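import Pool.Agent.H22.T7.WNA

/-!
# APR: approximation of differential operators by operators with polynomial coefficients

Proof.  `trunc_exists`: for `a : MvPowerSeries σ ℂ` (`σ` finite) and `L` there is a polynomial `c` with `Hi L (a - c)`: `c = ∑_{ρ, degree ρ < L} monomial ρ (coeff ρ a)`, a finite sum (the set of
`ρ` with `degree ρ < L` is finite, `Finsupp.finite_of_degree_le` or `MvPowerSeries.truncFinset`/`truncTotal` if available).
`apr`: `Diff_ind` with `P D := ∃ ρ, (∀ N h, Hi (N + ρ) h → Hi N (D h)) ∧ ∀ L, ∃ W ∈ WN σ ρ, ∀ h, Hi L (D h - W h)`.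
`1`: `ρ = 0`, `W = 1 = mulLeft 1 * dl []`.  Sum: `ρ = max` (`wn_mono`, `Hi_mono`).  Scalars.
`mulLeft a * D`: same `ρ`; `c` with `Hi L (a - c)`, `W` for `L`: `a D h - c W h = a (D h - W h) + (a - c) W h`.
`δ * D`: `ρ + 1`.  `δ x = ∑_j δ X_j * pderiv j x` (`dps`), so `Hi (N + 1) x → Hi N (δ x)` (`Hi_pderiv`).  Take `W` for `L + 1`, `c_j` with `Hi L (δ X_j - c_j)`, `W' = ∑_j mulLeft c_j * pderiv j * W` in
`WN (ρ + 1)`: `δ D h - W' h = δ (D h - W h) + ∑_j (δ X_j - c_j) pderiv j (W h)`.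
-/

set_option autoImplicit false

namespace Pool.Agent.H22.T7

open Finset

variable {σ : Type} [Fintype σ] [DecidableEq σ]

omit [DecidableEq σ] in
theorem trunc_exists (a : MvPowerSeries σ ℂ) (L : ℕ) :
    ∃ c : MvPolynomial σ ℂ, Hi L (a - (c : MvPowerSeries σ ℂ)) ∧
      ∀ ρ, MvPolynomial.coeff ρ c ≠ 0 → ρ.degree < L ∧
        MvPolynomial.coeff ρ c = MvPowerSeries.coeff ρ a := by
  refine ⟨MvPowerSeries.truncTotal L a, ?_, ?_⟩
  · intro ρ hρ
    by_contra hlt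
    apply hρ
    rw [map_sub, MvPolynomial.coeff_coe, MvPowerSeries.coeff_truncTotal a (not_le.1 hlt), sub_self]
  · intro ρ hρ
    have hlt : ρ.degree < L := by
      by_contra hge
      exact hρ (MvPowerSeries.coeff_truncTotal_eq_zero a (not_lt.1 hge))
    exact ⟨hlt, MvPowerSeries.coeff_truncTotal a hlt⟩

theorem Hi_der (δ : Derivation ℂ (MvPowerSeries σ ℂ) (MvPowerSeries σ ℂ)) (N : ℕ)
    (x : MvPowerSeries σ ℂ) (hx : Hi (N + 1) x) : Hi N (δ x) := by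
  rw [dps δ x]
  exact Hi_sum _ _ fun j _ => Hi_mul_left _ (Hi_pderiv j hx)

omit [Fintype σ] [DecidableEq σ] in
theorem Hi_of_eq {L : ℕ} {g h : MvPowerSeries σ ℂ} (e : g = h) (hh : Hi L h) : Hi L g := by
  rw [e]; exact hh

/-- APR -/
theorem apr {D : Module.End ℂ (MvPowerSeries σ ℂ)} (hD : D ∈ Diff (MvPowerSeries σ ℂ)) :
    ∃ ρ : ℕ, (∀ (N : ℕ) (h : MvPowerSeries σ ℂ), Hi (N + ρ) h → Hi N (D h)) ∧
      ∀ L : ℕ, ∃ W ∈ WN σ ρ, ∀ h : MvPowerSeries σ ℂ, Hi L (D h - W h) := by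
  refine Diff_ind (P := fun D : Module.End ℂ (MvPowerSeries σ ℂ) =>
    ∃ ρ : ℕ, (∀ (N : ℕ) (h : MvPowerSeries σ ℂ), Hi (N + ρ) h → Hi N (D h)) ∧
      ∀ L : ℕ, ∃ W ∈ WN σ ρ, ∀ h : MvPowerSeries σ ℂ, Hi L (D h - W h)) ?_ ?_ ?_ ?_ ?_ D hD
  · refine ⟨0, fun N h hh => hh, fun L => ⟨_, wn_mem (1 : MvPolynomial σ ℂ) [] le_rfl, fun h => ?_⟩⟩
    apply Hi_of_eq (h := 0)
    · simp [dl]
    · intro ρ hρ; exact absurd (map_zero _) hρ
  · rintro D E ⟨r1, hD1, hD2⟩ ⟨r2, hE1, hE2⟩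
    refine ⟨max r1 r2, fun N h hh => ?_, fun L => ?_⟩
    · exact Hi_add (hD1 N h (Hi_mono (by omega) hh)) (hE1 N h (Hi_mono (by omega) hh))
    · obtain ⟨W1, hW1, h1⟩ := hD2 L
      obtain ⟨W2, hW2, h2⟩ := hE2 L
      refine ⟨W1 + W2, add_mem (wn_mono (le_max_left _ _) hW1) (wn_mono (le_max_right _ _) hW2),
        fun h => ?_⟩
      apply Hi_of_eq (h := (D h - W1 h) + (E h - W2 h))
      · simp only [LinearMap.add_apply]; ring
      · exact Hi_add (h1 h) (h2 h)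
  · rintro c D ⟨r, hD1, hD2⟩
    refine ⟨r, fun N h hh => Hi_smul c (hD1 N h hh), fun L => ?_⟩
    obtain ⟨W, hW, h1⟩ := hD2 L
    refine ⟨c • W, Submodule.smul_mem _ _ hW, fun h => ?_⟩
    apply Hi_of_eq (h := c • (D h - W h))
    · simp only [LinearMap.smul_apply, smul_sub]
    · exact Hi_smul c (h1 h)
  · rintro a D ⟨r, hD1, hD2⟩
    refine ⟨r, fun N h hh => Hi_mul_left a (hD1 N h hh), fun L => ?_⟩
    obtain ⟨W, hW, h1⟩ := hD2 L
    obtain ⟨c, hc, -⟩ := trunc_exists a L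
    refine ⟨_, wn_mulLeft c hW, fun h => ?_⟩
    apply Hi_of_eq (h := a * (D h - W h) + W h * (a - (c : MvPowerSeries σ ℂ)))
    · simp only [Module.End.mul_apply, LinearMap.mulLeft_apply]; ring
    · exact Hi_add (Hi_mul_left _ (h1 h)) (Hi_mul_left _ hc)
  · rintro δ D ⟨r, hD1, hD2⟩
    refine ⟨r + 1, fun N h hh => ?_, fun L => ?_⟩
    · exact Hi_der δ N _ (hD1 (N + 1) h (Hi_mono (by omega) hh))
    · obtain ⟨W, hW, h1⟩ := hD2 (L + 1)
      choose c hc _ using fun j => trunc_exists (δ (MvPowerSeries.X j)) L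
      refine ⟨∑ j, LinearMap.mulLeft ℂ (c j : MvPowerSeries σ ℂ) *
        (((MvPowerSeries.pderiv ℂ j :
          Derivation ℂ (MvPowerSeries σ ℂ) (MvPowerSeries σ ℂ)).toLinearMap) * W),
        sum_mem fun j _ => wn_mulLeft (c j) (wn_pderiv j hW), fun h => ?_⟩
      apply Hi_of_eq (h := δ (D h - W h) + ∑ j, MvPowerSeries.pderiv ℂ j (W h) *
        (δ (MvPowerSeries.X j) - (c j : MvPowerSeries σ ℂ)))
      · have e1 : ((δ.toLinearMap * D) h : MvPowerSeries σ ℂ) = δ (D h - W h) + δ (W h) := by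
          rw [← map_add, sub_add_cancel]; rfl
        rw [e1, dps δ (W h), add_sub_assoc]
        congr 1
        rw [LinearMap.sum_apply, ← Finset.sum_sub_distrib]
        refine Finset.sum_congr rfl fun j _ => ?_
        simp only [Module.End.mul_apply, LinearMap.mulLeft_apply]
        rw [show ((MvPowerSeries.pderiv ℂ j : Derivation ℂ (MvPowerSeries σ ℂ)
          (MvPowerSeries σ ℂ)).toLinearMap) (W h) = MvPowerSeries.pderiv ℂ j (W h) from rfl]
        ring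
      · exact Hi_add (Hi_der δ L _ (h1 h))
          (Hi_sum _ _ fun j _ => Hi_mul_left _ (hc j))

end Pool.Agent.H22.T7
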