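import Pool.Agent.H22.T7.MRX
import Pool.Agent.H56.T5.APPL

/-!
# APX: the relation on the slice of a weight vector with positive entries

ADAPT the proof of `appL` (`Pool/Agent/H56/T5/APPL.lean`): replace `mrelL` by `mrx`, `R`, `PW`, `E` from `AFE`.

Proof.  The only changes are in `hxS` and `hxP`: there is a second type of exponents of `x`, `u = vec (R-1) 0 ρ` with `E.coeff ρ ≠ 0`.  By `EPos`: `ρ ≥ 0`, `(R-1) wmin a v' ≤ ∑ ρ_j v'_j` for all
`v' : Fin n → ℕ`, and `(R-1) wmin a w < ∑ ρ_j w_j` (`hw`).  `hxS`, good `v`: `h_v = vec 1 0 0`: `dt = R - 1 ≥ 0 ≥ l v`; `h_v = vec (-wmin a v') 0 v'`: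
`dt = -wmin a v' (R-1) + ∑ v'_j ρ_j ≥ 0 ≥ l v` (`dt_vec`).  `dt (h5 a w) u = -wmin a w (R-1) + ∑ w_j ρ_j > 0`.  `hxP`: `vec_mem_LL` with `ρ ≥ 0`.
`hs0`: `s0 = -|w|/N(w)` is not a natural number: `n > 0` (otherwise `wmin a w = 0`), so `wsum w > 0`, `s0.re < 0`.
-/

set_option autoImplicit false

namespace Pool.Agent.H22.T7

open Finset AddMonoidAlgebra
open Pool.Agent.H56.SMC Pool.Agent.H37.T5 Pool.Agent.H56.T5

theorem appX_s0 {n r : ℕ} (a : Fin r → (Fin n →₀ ℕ)) (w : Fin n → ℕ)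
    (hN : 0 < H22.wmin a w) (k : ℕ) :
    -(H22.wsum w : ℂ) / (H22.wmin a w : ℂ) ≠ (k : ℂ) := by
  have hr := appg_pos a w hN
  have h2 := appg_wmin_le a w ⟨0, hr⟩
  have hW : 0 < H22.wsum w := by
    rcases Nat.eq_zero_or_pos (H22.wsum w) with h0 | h0
    · exfalso
      have h3 : ∀ j, w j = 0 := by
        intro j
        exact (Finset.sum_eq_zero_iff.1 h0) j (mem_univ j)
      have h4 : ∑ j, (w j : ℤ) * (a ⟨0, hr⟩ j : ℤ) = 0 :=
        sum_eq_zero fun j _ => by rw [h3 j]; simp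
      rw [h4] at h2
      have h5 : (0 : ℤ) < H22.wmin a w := by exact_mod_cast hN
      omega
    · exact h0
  intro h
  have hN' : (H22.wmin a w : ℂ) ≠ 0 := by exact_mod_cast hN.ne'
  rw [div_eq_iff hN'] at h
  have h2 : ((-(H22.wsum w : ℤ) : ℤ) : ℂ) = ((k * H22.wmin a w : ℕ) : ℤ) := by
    push_cast
    exact h
  have h3 : (-(H22.wsum w : ℤ)) = ((k * H22.wmin a w : ℕ) : ℤ) := by exact_mod_cast h2
  have h4 : (0 : ℤ) ≤ ((k * H22.wmin a w : ℕ) : ℤ) := by positivity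
  have h5 : (0 : ℤ) < (H22.wsum w : ℤ) := by exact_mod_cast hW
  omega

/-- APX -/
theorem appX {n r : ℕ} (a : Fin r → (Fin n →₀ ℕ)) (κ : Fin r → ℂ)
    (b : Polynomial ℂ) (w : Fin n → ℕ) (hA : AFEw a κ b w)
    (hN : 0 < H22.wmin a w) (D : Finset (Fin n)) (M : ℤ) (hM : 0 < M)
    (m0 : ℤ) (hm0 : 0 < m0) (y0 : Lat (n + 2)) (hy0c : InC (A5 a M) y0)
    (hy0 : dt (h5 a w) y0 = 0)
    (hyj : ∀ j, (∃ i, a i j = 0) → m0 ≤ y0 j.succ.succ)
    (lam : Option (Fin n) ⊕ Fin 0 → ℂ)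
    (hK : KExactL (A5 a M) (cC κ lam) ev (sh D) (RG (A5 a M) m0 y0)) :
    ExL (pp (-(H22.wsum w : ℂ) / (H22.wmin a w : ℂ)) Complex.I) (A5 a M)
      (cF (A5 a M) (cC κ lam) (h5 a w)) ev (sh D)
      (RG (A5 a M) m0 y0 ∩ {u | dt (h5 a w) u = 0})
      (single 0 (b.eval (-(H22.wsum w : ℂ) / (H22.wmin a w : ℂ)))) := by
  classical
  have hr := appg_pos a w hN
  have hδ := appg_delta a (noW n) M
  obtain ⟨e, he⟩ := fspan hr a (noW n) M hM
  obtain ⟨mf, h, hh, hprim, hfacet, hfac⟩ := fac (cA a (bbM (noW n) M)) (vec 1 1 0) hδ ⟨e, he⟩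
  have hS := appg_sset (cA a (bbM (noW n) M)) h hh hfac
  have hSc : ∀ u, u ∈ Sc h (lev h m0 y0) ↔ InC (cA a (bbM (noW n) M)) (m0 • u + y0) := by
    intro u
    rw [mem_Sc_lev h hm0, hS]
  have hScRG : Sc h (lev h m0 y0) = RG (A5 a M) m0 y0 := by
    ext u
    exact hSc u
  have hl0 : ∀ v, lev h m0 y0 v ≤ 0 := by
    intro v
    have := appg_lev h m0 hm0 y0 v 0 (by rw [mul_zero]; exact hy0c (h v) (hh v))
    linarith
  have hSδ : ∀ u ∈ Sc h (lev h m0 y0), -|dt (vec 1 1 0) y0| ≤ dt (vec 1 1 0) u := by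
    intro u hu
    rw [hSc] at hu
    have h1 := hu (vec 1 1 0) (fun i => by rw [hδ i]; norm_num)
    rw [dt_add, dt_zsmul] at h1
    have h2 := le_abs_self (dt (vec 1 1 0) y0)
    have h3 := abs_nonneg (dt (vec 1 1 0) y0)
    by_contra hcon
    push Not at hcon
    nlinarith
  have hh0 := appg_h0 a (noW n) M hM w (fun k => k.elim0)
  have hS0 : ∀ u ∈ Sc h (lev h m0 y0), 0 ≤ dt (h5 a w) u := by
    intro u hu
    rw [hSc] at hu
    have h1 := hu _ hh0
    rw [dt_add, dt_zsmul] at h1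
    have h2 : dt (vec (-(H22.wmin a w : ℤ)) 0 (fun j => (w j : ℤ))) y0 = 0 := hy0
    rw [h2, add_zero] at h1
    exact nonneg_of_mul_nonneg_right h1 hm0
  have hcases : ∀ v, h v (Fin.succ 0) ≠ 0 ∨ h v = vec 1 0 0 ∨
      ∃ v' : Fin n → ℕ, RayNormal a (noW n) v' ∧ univ.gcd v' = 1 ∧
        h v = vec (-(H22.wmin a v' : ℤ)) 0 (fun j => (v' j : ℤ)) := by
    intro v
    by_cases h1 : h v (Fin.succ 0) = 0
    · exact Or.inr (fnr hr a (noW n) M hM (h v) (hh v) (hprim v) (hfacet v) h1)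
    · exact Or.inl h1
  have hnr : ∀ v, ∀ mm : ℤ, mm < lev h m0 y0 v →
      pv (pp (PowerSeries.C (-(H22.wsum w : ℂ) / (H22.wmin a w : ℂ)) + PowerSeries.X)
        (PowerSeries.C Complex.I)) (h v) + (mm : PA) ≠ 0 := by
    intro v mm hmm
    refine appn a w hN (h v) (lev h m0 y0 v) ?_ mm hmm
    rcases hcases v with h1 | h1 | ⟨v', -, -, hv'⟩
    · exact Or.inl h1
    · exact Or.inr (Or.inl h1)
    · refine Or.inr (Or.inr ⟨v', hv', fun h0 => ?_⟩)
      have := APPL_wsum hr a m0 y0 hyj v' h0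
      rw [← hv'] at this
      exact appg_lev h m0 hm0 y0 v _ this
  have hbad : ∀ v, ¬ (h v (Fin.succ 0) = 0) → ∀ mm : ℤ, mm < lev h m0 y0 v →
      IsUnit (pv (pp (PowerSeries.C (-(H22.wsum w : ℂ) / (H22.wmin a w : ℂ)) + PowerSeries.X)
        (PowerSeries.C Complex.I)) (h v) + (mm : PA)) := by
    intro v hng mm hmm
    exact appu a w hN (h v) (lev h m0 y0 v) (hl0 v) (Or.inl hng) mm hmm
  obtain ⟨R, PW, E, hR, hlen, hid, hEP⟩ := hA
  have hs0 : ∀ k : ℕ, -(H22.wsum w : ℂ) / (H22.wmin a w : ℂ) ≠ (k : ℂ) := appX_s0 a w hN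
  obtain ⟨x, hex, hx⟩ := mrx a κ (bbM (noW n) M) (by
      rintro (o | k) j
      · exact appg_bbM_nonneg (noW n) M hM o j
      · exact k.elim0) lam b R PW E hR hlen hid (fun ρ hρ => (hEP ρ hρ).1)
    (-(H22.wsum w : ℂ) / (H22.wmin a w : ℂ)) Complex.I (by
      intro m hm
      have := congrArg Complex.im hm
      simp at this) hs0
  have hR' : (0 : ℤ) ≤ (R : ℤ) - 1 := by omega
  have hxS : Supp {u | (∀ v, h v (Fin.succ 0) = 0 → lev h m0 y0 v ≤ dt (h v) u) ∧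
        0 < dt (h5 a w) u} x := by
    intro u hu
    rcases hx u hu with ⟨ρ, i, rfl, hρ⟩ | ⟨ρ, hρE, rfl⟩
    · refine ⟨fun v hgood => ?_, ?_⟩
      · refine (hl0 v).trans ?_
        rcases hcases v with h1 | h1 | ⟨v', -, -, hv'⟩
        · exact absurd hgood h1
        · rw [h1, dt_vec]
          simp
        · rw [hv']
          have := APPL_sum_add a v' ρ i R (-(H22.wmin a v' : ℤ)) 0 hρ
          refine le_trans ?_ this
          positivity
      · have := APPL_sum_add a w ρ i R (-(H22.wmin a w : ℤ)) 0 hρ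
        have hN' : (0 : ℤ) < H22.wmin a w := by exact_mod_cast hN
        have h8 : (0 : ℤ) < 0 * (R : ℤ) + (H22.wmin a w : ℤ) := by linarith
        exact lt_of_lt_of_le h8 this
    · obtain ⟨hρ, hv, hvw⟩ := hEP ρ hρE
      have key : ∀ v' : Fin n → ℕ, dt (vec (-(H22.wmin a v' : ℤ)) 0 (fun j => (v' j : ℤ)))
          (vec ((R : ℤ) - 1) 0 ρ) =
          ∑ j, ρ j * (v' j : ℤ) - ((R : ℤ) - 1) * (H22.wmin a v' : ℤ) := by
        intro v'
        rw [dt_vec]
        have : ∑ j, (v' j : ℤ) * ρ j = ∑ j, ρ j * (v' j : ℤ) :=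
          sum_congr rfl fun j _ => mul_comm _ _
        rw [this]
        ring
      refine ⟨fun v hgood => ?_, ?_⟩
      · refine (hl0 v).trans ?_
        rcases hcases v with h1 | h1 | ⟨v', -, -, hv'⟩
        · exact absurd hgood h1
        · rw [h1, dt_vec]
          simpa using hR'
        · rw [hv', key]
          have := hv v'
          linarith
      · have h9 := hvw
        have h10 : dt (h5 a w) (vec ((R : ℤ) - 1) 0 ρ) =
          ∑ j, ρ j * (w j : ℤ) - ((R : ℤ) - 1) * (H22.wmin a w : ℤ) := key w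
        show 0 < dt (h5 a w) (vec ((R : ℤ) - 1) 0 ρ)
        rw [h10]
        linarith
  have hxP : Supp (LL ev (sh D) ∅) x := by
    intro u hu
    rcases hx u hu with ⟨ρ, i, rfl, hρ⟩ | ⟨ρ, hρE, rfl⟩
    · refine vec_mem_LL D ∅ _ _ _ fun j _ => ?_
      simp only [Pi.add_apply]
      have := hρ j
      positivity
    · exact vec_mem_LL D ∅ _ _ _ fun j _ => (hEP ρ hρE).1 j
  have hmain := coreL (A5 a M) (cC κ lam)
    (pp (PowerSeries.C (-(H22.wsum w : ℂ) / (H22.wmin a w : ℂ)) + PowerSeries.X)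
        (PowerSeries.C Complex.I)) (sh D)
    (by
      intro k hk
      obtain ⟨j, -, rfl⟩ := mem_sh.1 hk
      simp [pp])
    (by
      intro k hk i
      obtain ⟨j, -, rfl⟩ := mem_sh.1 hk
      rw [dt_ev]
      rcases i with i | (o | k)
      · simp [A5, cA, vec]
      · simp only [A5, cA, vec, Fin.cons_succ]
        exact appg_bbM_nonneg (noW n) M hM o j
      · exact k.elim0)
    h (lev h m0 y0) hl0 (fun v => h v (Fin.succ 0) = 0) (vec 1 1 0) (h5 a w) hδ _ hSδ hh hh0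
    hS0 hnr hbad (by rw [hScRG]; exact hK) _ x hxS hxP
    (ExL.mono (Set.Subset.refl _) (sh_mono (subset_univ D)) hex)
  rw [hScRG, appg_aeval] at hmain
  have hpp : (fun j => PowerSeries.constantCoeff
      ((pp (PowerSeries.C (-(H22.wsum w : ℂ) / (H22.wmin a w : ℂ)) + PowerSeries.X)
        (PowerSeries.C Complex.I) : Fin (n + 2) → PA) j)) =
      pp (-(H22.wsum w : ℂ) / (H22.wmin a w : ℂ)) Complex.I := by
    funext j
    refine Fin.cases ?_ (fun j => Fin.cases ?_ (fun j => ?_) j) j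
    · simp [pp]
    · simp [pp]
    · simp [pp]
  rw [hpp] at hmain
  exact hmain

end Pool.Agent.H22.T7
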