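import Pool.Agent.H22.T7.PFB

/-!
# AUT: invariance under isomorphisms

Proof.  Claim: for every `D ∈ Diff R` there is `D' ∈ Diff R'` with `D' (φ g) = φ (D g)` for all `g` (`D' = φ D φ⁻¹`).  `Diff_ind`: `mulLeft a * D`: `mulLeft (φ a) * D'`; `δ * D`: the derivation
`δ' x = φ (δ (φ⁻¹ x))` of `R'` (build it with `Derivation.mk'`) and `δ' * D'`.  For families: `PF_iff`, `B c = ∑_i c^i • D_i`, `B' c = ∑_i c^i • D_i'`.
-/

set_option autoImplicit false

namespace Pool.Agent.H22.T7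

open Finset

/-- conjugation of a derivation by an isomorphism -/
noncomputable def AUT_der {R R' : Type} [CommRing R] [Algebra ℂ R] [CommRing R'] [Algebra ℂ R']
    (φ : R ≃ₐ[ℂ] R') (δ : Derivation ℂ R R) : Derivation ℂ R' R' :=
  Derivation.mk' (φ.toLinearMap ∘ₗ δ.toLinearMap ∘ₗ φ.symm.toLinearMap) (by
    intro a b
    simp [Derivation.leibniz, map_mul, map_add])

theorem AUT_conj {R R' : Type} [CommRing R] [Algebra ℂ R] [CommRing R'] [Algebra ℂ R']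
    (φ : R ≃ₐ[ℂ] R') : ∀ D ∈ Diff R, ∃ D' ∈ Diff R', ∀ g, D' (φ g) = φ (D g) := by
  apply Diff_ind
  · exact ⟨1, one_mem _, fun g => rfl⟩
  · rintro D E ⟨D', hD, h1⟩ ⟨E', hE, h2⟩
    refine ⟨D' + E', add_mem hD hE, fun g => ?_⟩
    rw [LinearMap.add_apply, LinearMap.add_apply, h1, h2, map_add]
  · rintro c D ⟨D', hD, h1⟩
    refine ⟨c • D', Subalgebra.smul_mem _ hD c, fun g => ?_⟩
    rw [LinearMap.smul_apply, LinearMap.smul_apply, h1, map_smul]
  · rintro a D ⟨D', hD, h1⟩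
    refine ⟨LinearMap.mulLeft ℂ (φ a) * D', mul_mem (mulLeft_mem _) hD, fun g => ?_⟩
    rw [Module.End.mul_apply, Module.End.mul_apply, h1, LinearMap.mulLeft_apply,
      LinearMap.mulLeft_apply, map_mul]
  · rintro δ D ⟨D', hD, h1⟩
    refine ⟨(AUT_der φ δ).toLinearMap * D', mul_mem (der_mem _) hD, fun g => ?_⟩
    rw [Module.End.mul_apply, Module.End.mul_apply, h1]
    change φ (δ (φ.symm (φ (D g)))) = φ (δ (D g))
    rw [AlgEquiv.symm_apply_apply]

/-- AUT -/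
theorem aut {R R' : Type} [CommRing R] [Algebra ℂ R] [CommRing R'] [Algebra ℂ R']
    (φ : R ≃ₐ[ℂ] R') (G : R) (b : Polynomial ℂ) (h : FEq R G b) : FEq R' (φ G) b := by
  obtain ⟨B, hB, hk⟩ := h
  obtain ⟨d, D, hD, hBD⟩ := (PF_iff B).1 hB
  choose D' hD' h1 using fun i => AUT_conj φ (D i) (hD i)
  refine ⟨fun c => ∑ i : Fin d, c ^ (i : ℕ) • D' i, (PF_iff _).2 ⟨d, D', hD', fun c => rfl⟩, ?_⟩
  intro k
  have h2 := hk k
  have h3 : φ (B (k : ℂ) (G ^ (k + 1))) = φ (b.eval (k : ℂ) • (1 * G ^ k)) := by rw [h2]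
  rw [hBD, LinearMap.sum_apply, map_sum] at h3
  change (∑ i : Fin d, (k : ℂ) ^ (i : ℕ) • D' i) ((φ G) ^ (k + 1)) = _
  rw [LinearMap.sum_apply, one_mul, ← map_pow, ← map_pow]
  rw [one_mul, map_smul] at h3
  rw [← h3]
  apply Finset.sum_congr rfl
  intro i _
  rw [LinearMap.smul_apply, LinearMap.smul_apply, h1, map_smul]

end Pool.Agent.H22.T7
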