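import Pool.Agent.H22.T7.PFB

/-!
# CJ: conjugation with a power

Proof.  First for a constant family `B = fun _ => D`, `D ∈ Diff R`, by `Diff_ind` with
`P D := ∃ M, ∃ B' ∈ PF R, ∀ (j : ℕ) h, U^M * D (h * U^j) = U^j * B' j h`.
`1`: `M = 0`, `B' = 1`.  Sum: `M = M1 + M2`, multiply with the other power of `U` (`mulLeft (U^M2) * B1' + mulLeft (U^M1) * B2'`).  Scalar: clear.
`mulLeft a * D`: same `M`, `mulLeft a * B'`.
`δ * D`: put `x = D (h U^j)`, `y = B' j h`, so `U^M x = U^j y`.  Apply `δ`: `M U^{M-1} δU x + U^M δx = j U^{j-1} δU y + U^j δy` (`Derivation.leibniz`, `Derivation.leibniz_pow`);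
times `U`: `U^{M+1} δx = j U^j δU y + U^{j+1} δy - M U^M δU x = U^j (j δU y + U δy - M δU y)` (use `M U^{M-1} U = M U^M` also for `M = 0`, and
`U^M x = U^j y`).  So `M + 1` and `B'' c = c • (mulLeft (δ U) * B' c) + mulLeft U * δ * B' c - M • mulLeft (δ U) * B' c`, in `PF R` since `PF R` is a
subalgebra (`const_mem`, `id_mem`).
General `B`: `PF_iff`, `B c = ∑_i c^i • D_i`; take `M_i`, `B'_i` for `D_i`, `M = ∑_i M_i`, `B' c = ∑_i c^i • mulLeft (U^{M - M_i}) * B'_i c`.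
-/

set_option autoImplicit false

namespace Pool.Agent.H22.T7

open Finset

variable {R : Type} [CommRing R] [Algebra ℂ R]

theorem cj_pow (U : R) (δ : Derivation ℂ R R) (n : ℕ) :
    U * δ (U ^ n) = (n : R) * (U ^ n * δ U) := by
  rw [Derivation.leibniz_pow]
  cases n with
  | zero => simp
  | succ n =>
    rw [Nat.add_sub_cancel, smul_eq_mul, nsmul_eq_mul, pow_succ]
    ring

theorem cj_const (U : R) : ∀ D ∈ Diff R, ∃ M : ℕ, ∃ B' ∈ PF R, ∀ (j : ℕ) (h : R),
    U ^ M * D (h * U ^ j) = U ^ j * B' (j : ℂ) h := by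
  refine Diff_ind ?_ ?_ ?_ ?_ ?_
  · refine ⟨0, 1, (PF R).one_mem, fun j h => ?_⟩
    rw [Pi.one_apply, Module.End.one_apply, Module.End.one_apply]
    ring
  · rintro D E ⟨M1, B1, hB1, h1⟩ ⟨M2, B2, hB2, h2⟩
    refine ⟨M1 + M2, (fun _ => LinearMap.mulLeft ℂ (U ^ M2)) * B1 +
      (fun _ => LinearMap.mulLeft ℂ (U ^ M1)) * B2,
      (PF R).add_mem ((PF R).mul_mem (const_mem (mulLeft_mem _)) hB1)
        ((PF R).mul_mem (const_mem (mulLeft_mem _)) hB2), fun j h => ?_⟩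
    have e1 := h1 j h
    have e2 := h2 j h
    rw [Pi.add_apply, Pi.mul_apply, Pi.mul_apply, LinearMap.add_apply, LinearMap.add_apply,
      Module.End.mul_apply, Module.End.mul_apply, LinearMap.mulLeft_apply, LinearMap.mulLeft_apply,
      pow_add]
    linear_combination U ^ M2 * e1 + U ^ M1 * e2
  · rintro c D ⟨M, B', hB', h1⟩
    refine ⟨M, c • B', (PF R).smul_mem hB' c, fun j h => ?_⟩
    rw [Pi.smul_apply, LinearMap.smul_apply, LinearMap.smul_apply, mul_smul_comm, h1 j h,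
      mul_smul_comm]
  · rintro a D ⟨M, B', hB', h1⟩
    refine ⟨M, (fun _ => LinearMap.mulLeft ℂ a) * B',
      (PF R).mul_mem (const_mem (mulLeft_mem _)) hB', fun j h => ?_⟩
    rw [Pi.mul_apply, Module.End.mul_apply, Module.End.mul_apply, LinearMap.mulLeft_apply,
      LinearMap.mulLeft_apply]
    linear_combination a * h1 j h
  · rintro δ D ⟨M, B', hB', h1⟩
    refine ⟨M + 1, (fun c => c • (1 : Module.End ℂ R)) * ((fun _ => LinearMap.mulLeft ℂ (δ U)) * B') +
      (fun _ => LinearMap.mulLeft ℂ U * δ.toLinearMap) * B' -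
      M • ((fun _ => LinearMap.mulLeft ℂ (δ U)) * B'), ?_, fun j h => ?_⟩
    · have ha := (PF R).mul_mem (const_mem (mulLeft_mem (δ U))) hB'
      exact (PF R).sub_mem ((PF R).add_mem ((PF R).mul_mem id_mem ha)
        ((PF R).mul_mem (const_mem ((Diff R).mul_mem (mulLeft_mem U) (der_mem δ))) hB'))
        ((PF R).nsmul_mem ha M)
    · obtain ⟨x, hx⟩ : ∃ x, x = D (h * U ^ j) := ⟨_, rfl⟩
      obtain ⟨y, hy⟩ : ∃ y, y = B' (j : ℂ) h := ⟨_, rfl⟩
      have e1 : U ^ M * x = U ^ j * y := by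
        rw [hx, hy]
        exact h1 j h
      have e2 := congrArg δ e1
      rw [Derivation.leibniz, Derivation.leibniz, smul_eq_mul, smul_eq_mul, smul_eq_mul,
        smul_eq_mul] at e2
      have e3 := cj_pow U δ M
      have e4 := cj_pow U δ j
      have e5 : ((j : ℂ) • (δ U * y) : R) = (j : R) * (δ U * y) := by
        rw [Nat.cast_smul_eq_nsmul, nsmul_eq_mul]
      have e6 : ((fun c : ℂ => c • (1 : Module.End ℂ R)) * ((fun _ => LinearMap.mulLeft ℂ (δ U)) * B') +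
          (fun _ => LinearMap.mulLeft ℂ U * δ.toLinearMap) * B' -
          M • ((fun _ => LinearMap.mulLeft ℂ (δ U)) * B') : ℂ → Module.End ℂ R) (j : ℂ) h =
          (j : ℂ) • (δ U * y) + U * δ y - M • (δ U * y) := by
        rw [hy]
        rfl
      rw [e6, e5, nsmul_eq_mul]
      have e7 : (δ.toLinearMap * D) (h * U ^ j) = δ x := by
        rw [hx]
        rfl
      rw [e7, pow_succ]
      linear_combination U * e2 - x * e3 + y * e4 - (M : R) * δ U * e1

/-- CJ -/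
theorem conj {B : ℂ → Module.End ℂ R} (hB : B ∈ PF R) (U : R) :
    ∃ M : ℕ, ∃ B' ∈ PF R, ∀ (j : ℕ) (h : R),
      U ^ M * B (j : ℂ) (h * U ^ j) = U ^ j * B' (j : ℂ) h := by
  obtain ⟨d, D, hD, hc⟩ := (PF_iff B).1 hB
  choose M B' hB' h1 using fun i => cj_const U (D i) (hD i)
  obtain ⟨N, hN⟩ : ∃ N, N = ∑ i, M i := ⟨_, rfl⟩
  have hle : ∀ i, M i ≤ N := by
    intro i
    rw [hN]
    exact Finset.single_le_sum (fun _ _ => Nat.zero_le _) (Finset.mem_univ i)
  refine ⟨N, ∑ i : Fin d, (fun c => c • (1 : Module.End ℂ R)) ^ (i : ℕ) *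
    ((fun _ => LinearMap.mulLeft ℂ (U ^ (N - M i))) * B' i), ?_, fun j h => ?_⟩
  · exact (PF R).sum_mem fun i _ => (PF R).mul_mem ((PF R).pow_mem id_mem _)
      ((PF R).mul_mem (const_mem (mulLeft_mem _)) (hB' i))
  · rw [hc, LinearMap.sum_apply, Finset.sum_apply, LinearMap.sum_apply, Finset.mul_sum,
      Finset.mul_sum]
    refine Finset.sum_congr rfl fun i _ => ?_
    have e1 : ((fun c : ℂ => c • (1 : Module.End ℂ R)) ^ (i : ℕ) *
        ((fun _ => LinearMap.mulLeft ℂ (U ^ (N - M i))) * B' i) : ℂ → Module.End ℂ R) (j : ℂ) h =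
        (j : ℂ) ^ (i : ℕ) • (U ^ (N - M i) * B' i (j : ℂ) h) := by
      rw [Pi.mul_apply, Pi.pow_apply, smul_pow, one_pow, smul_mul_assoc, one_mul]
      rfl
    rw [e1, LinearMap.smul_apply, mul_smul_comm, mul_smul_comm]
    congr 1
    have e2 := h1 i j h
    have e3 : U ^ N = U ^ (N - M i) * U ^ (M i) := by
      rw [← pow_add, Nat.sub_add_cancel (hle i)]
    rw [e3]
    linear_combination U ^ (N - M i) * e2

end Pool.Agent.H22.T7
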