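import Pool.Agent.H22.T7.PFB

/-!
# CMP: from polynomials to germs at `p`

Proof.  Let `τ : MvPolynomial (Fin n) ℂ →ₐ[ℂ] MvPolynomial (Fin n) ℂ`, `X_j ↦ X_j + C p_j`, and `T g = (τ g : MvPowerSeries)`, an algebra homomorphism (`MvPolynomial.coeToMvPowerSeries.algHom`
or `ringHom`).  `germ F p = T F`.
Claim: for every `D ∈ Diff (MvPolynomial ..)` there is `D' ∈ Diff (MvPowerSeries ..)` with `D' (T g) = T (D g)` for all `g`.  `Diff_ind`: `1`; sums; scalars; `mulLeft a * D`: `mulLeft (T a) * D'`;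
`δ * D`: `δ' * D'`, `δ' = ∑_j T (δ X_j) • pderiv ℂ j` (a derivation; or the sum of `mulLeft (T (δ X_j)) * pderiv j`, in `Diff`), and
`δ' (T g) = T (δ g)`: both sides are derivations in `g` over `T`; by induction on `g` (`MvPolynomial.induction_on`; for `X_i`: `pderiv_coe`,
`pderiv j (X_i + C p_i) = [i = j]`), or `δ g = ∑_j δ X_j * pderiv j g` (`MvPolynomial.mkDerivation`, `MvPolynomial.derivation_ext`) and `pderiv j (T g) = T (pderiv j g)`.
For families: `PF_iff`, `B c = ∑_i c^i • D_i`, `B' c = ∑_i c^i • D_i'`, `B' k ((T F)^{k+1}) = T (B k (F^{k+1})) = b(k) • (1 * (T F)^k)`.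
-/

set_option autoImplicit false

namespace Pool.Agent.H22.T7

open Finset

/-- The germ as an algebra homomorphism. -/
noncomputable def cmpT {n : ℕ} (p : Fin n → ℂ) :
    MvPolynomial (Fin n) ℂ →ₐ[ℂ] MvPowerSeries (Fin n) ℂ :=
  MvPolynomial.aeval (fun j => MvPowerSeries.X j + MvPowerSeries.C (p j))

theorem cmp_germ {n : ℕ} (F : MvPolynomial (Fin n) ℂ) (p : Fin n → ℂ) :
    germ F p = cmpT p F := by
  unfold germ cmpT
  induction F using MvPolynomial.induction_on with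
  | C a =>
    rw [MvPolynomial.algHom_C, MvPolynomial.algHom_C, MvPolynomial.algebraMap_eq,
      MvPolynomial.coe_C, MvPowerSeries.algebraMap_apply]
    simp
  | add f g hf hg => rw [map_add, map_add, MvPolynomial.coe_add, hf, hg]
  | mul_X f i hf =>
    rw [map_mul, map_mul, MvPolynomial.coe_mul, hf, MvPolynomial.aeval_X, MvPolynomial.aeval_X,
      MvPolynomial.coe_add, MvPolynomial.coe_X, MvPolynomial.coe_C]

theorem cmp_pderiv {n : ℕ} (p : Fin n → ℂ) (j : Fin n) (g : MvPolynomial (Fin n) ℂ) :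
    MvPowerSeries.pderiv ℂ j (cmpT p g) = cmpT p (MvPolynomial.pderiv j g) := by
  induction g using MvPolynomial.induction_on with
  | C a =>
    rw [MvPolynomial.pderiv_C, map_zero, MvPolynomial.algHom_C, Derivation.map_algebraMap]
  | add f g hf hg => rw [map_add, map_add, hf, hg, map_add, map_add]
  | mul_X f i hf =>
    have hX : cmpT p (MvPolynomial.X i) = MvPowerSeries.X i + MvPowerSeries.C (p i) := by
      unfold cmpT
      rw [MvPolynomial.aeval_X]
    have h1 : MvPowerSeries.pderiv ℂ j (cmpT p (MvPolynomial.X i)) =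
        cmpT p (MvPolynomial.pderiv j (MvPolynomial.X i)) := by
      rw [hX, map_add, MvPowerSeries.pderiv_C, add_zero]
      by_cases hij : i = j
      · subst hij
        rw [MvPowerSeries.pderiv_X_self, MvPolynomial.pderiv_X_self, map_one]
      · rw [MvPowerSeries.pderiv_X_of_ne hij, MvPolynomial.pderiv_X_of_ne hij, map_zero]
    rw [map_mul, Derivation.leibniz, Derivation.leibniz, h1, hf, smul_eq_mul, smul_eq_mul,
      smul_eq_mul, smul_eq_mul, map_add, map_mul, map_mul]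

theorem cmp_sum {n : ℕ} (d : Fin n → Derivation ℂ (MvPolynomial (Fin n) ℂ) (MvPolynomial (Fin n) ℂ))
    (g : MvPolynomial (Fin n) ℂ) : (∑ j, d j) g = ∑ j, d j g := by
  have h := map_sum (Derivation.coeFnAddMonoidHom :
    Derivation ℂ (MvPolynomial (Fin n) ℂ) (MvPolynomial (Fin n) ℂ) →+ _) d Finset.univ
  have h2 := congr_fun h g
  rw [Finset.sum_apply] at h2
  exact h2

theorem cmp_der {n : ℕ} (p : Fin n → ℂ)
    (δ : Derivation ℂ (MvPolynomial (Fin n) ℂ) (MvPolynomial (Fin n) ℂ)) :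
    ∃ δ' ∈ Diff (MvPowerSeries (Fin n) ℂ), ∀ g, δ' (cmpT p g) = cmpT p (δ g) := by
  refine ⟨∑ j, LinearMap.mulLeft ℂ (cmpT p (δ (MvPolynomial.X j))) *
    (MvPowerSeries.pderiv ℂ j :
      Derivation ℂ (MvPowerSeries (Fin n) ℂ) (MvPowerSeries (Fin n) ℂ)).toLinearMap, ?_, ?_⟩
  · refine Subalgebra.sum_mem _ (fun j _ => ?_)
    exact Subalgebra.mul_mem _ (mulLeft_mem _) (der_mem _)
  · intro g
    rw [LinearMap.sum_apply]
    have h1 : ∀ j : Fin n, (LinearMap.mulLeft ℂ (cmpT p (δ (MvPolynomial.X j))) *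
        (MvPowerSeries.pderiv ℂ j :
          Derivation ℂ (MvPowerSeries (Fin n) ℂ) (MvPowerSeries (Fin n) ℂ)).toLinearMap)
          (cmpT p g) = cmpT p (δ (MvPolynomial.X j) * MvPolynomial.pderiv j g) := by
      intro j
      rw [Module.End.mul_apply, LinearMap.mulLeft_apply, map_mul, ← cmp_pderiv p j g]
      rfl
    rw [Finset.sum_congr rfl (fun j _ => h1 j), ← map_sum]
    congr 1
    have h2 : δ = ∑ j : Fin n, (δ (MvPolynomial.X j)) • (MvPolynomial.pderiv (R := ℂ) j) := by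
      apply MvPolynomial.derivation_ext
      intro i
      rw [cmp_sum, Finset.sum_eq_single i]
      · rw [Derivation.smul_apply, MvPolynomial.pderiv_X_self, smul_eq_mul, mul_one]
      · intro k _ hk
        rw [Derivation.smul_apply, MvPolynomial.pderiv_X_of_ne (Ne.symm hk), smul_zero]
      · intro h
        exact absurd (Finset.mem_univ i) h
    conv_rhs => rw [h2]
    rw [cmp_sum]
    refine Finset.sum_congr rfl (fun j _ => ?_)
    rw [Derivation.smul_apply, smul_eq_mul]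

theorem cmp_diff {n : ℕ} (p : Fin n → ℂ) :
    ∀ D ∈ Diff (MvPolynomial (Fin n) ℂ), ∃ D' ∈ Diff (MvPowerSeries (Fin n) ℂ),
      ∀ g, D' (cmpT p g) = cmpT p (D g) := by
  refine Diff_ind (P := fun D => ∃ D' ∈ Diff (MvPowerSeries (Fin n) ℂ),
      ∀ g, D' (cmpT p g) = cmpT p (D g)) ?_ ?_ ?_ ?_ ?_
  · exact ⟨1, Subalgebra.one_mem _, fun g => rfl⟩
  · rintro D E ⟨D', hD, h1⟩ ⟨E', hE, h2⟩
    refine ⟨D' + E', Subalgebra.add_mem _ hD hE, fun g => ?_⟩
    rw [LinearMap.add_apply, LinearMap.add_apply, map_add, h1, h2]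
  · rintro c D ⟨D', hD, h1⟩
    refine ⟨c • D', Subalgebra.smul_mem _ hD c, fun g => ?_⟩
    rw [LinearMap.smul_apply, LinearMap.smul_apply, map_smul, h1]
  · rintro a D ⟨D', hD, h1⟩
    refine ⟨LinearMap.mulLeft ℂ (cmpT p a) * D', Subalgebra.mul_mem _ (mulLeft_mem _) hD,
      fun g => ?_⟩
    rw [Module.End.mul_apply, Module.End.mul_apply, LinearMap.mulLeft_apply,
      LinearMap.mulLeft_apply, h1, map_mul]
  · rintro δ D ⟨D', hD, h1⟩
    obtain ⟨δ', hδ, h2⟩ := cmp_der p δ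
    refine ⟨δ' * D', Subalgebra.mul_mem _ hδ hD, fun g => ?_⟩
    rw [Module.End.mul_apply, Module.End.mul_apply, h1, h2]
    rfl

/-- CMP -/
theorem cmp {n : ℕ} (F : MvPolynomial (Fin n) ℂ) (p : Fin n → ℂ) (b : Polynomial ℂ)
    (h : FEq (MvPolynomial (Fin n) ℂ) F b) : FEq (MvPowerSeries (Fin n) ℂ) (germ F p) b := by
  obtain ⟨B, hB, hk⟩ := h
  obtain ⟨d, D, hD, hBD⟩ := (PF_iff B).1 hB
  choose D' hD' hT using fun i => cmp_diff p (D i) (hD i)
  refine ⟨fun c => ∑ i : Fin d, c ^ (i : ℕ) • D' i, (PF_iff _).2 ⟨d, D', hD', fun c => rfl⟩, ?_⟩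
  intro k
  have h1 : (∑ i : Fin d, (k : ℂ) ^ (i : ℕ) • D' i) (germ F p ^ (k + 1)) =
      cmpT p (B (k : ℂ) (F ^ (k + 1))) := by
    rw [cmp_germ, ← map_pow, LinearMap.sum_apply, hBD, LinearMap.sum_apply, map_sum]
    refine Finset.sum_congr rfl (fun i _ => ?_)
    rw [LinearMap.smul_apply, LinearMap.smul_apply, hT i, map_smul]
  show (∑ i : Fin d, (k : ℂ) ^ (i : ℕ) • D' i) (germ F p ^ (k + 1)) = _
  rw [h1, hk k, map_smul, map_mul, map_one, map_pow, cmp_germ]

end Pool.Agent.H22.T7
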