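import Pool.Agent.H22.T7.PFB

/-!
# DPS: derivations of the ring of formal power series

Proof.  `Hi` facts: `Hi_add`, `Hi_mul` (an exponent of `g h` is a sum of exponents of `g` and `h`, `coeff_mul`), `Hi_zero`, `Hi_mono`.
`hi_dec`: choose a linear order on `σ` (or use `Fintype.equivFin σ`); for every exponent `ρ ≠ 0` let `j(ρ)` be a chosen variable with `ρ j ≠ 0`
(`Classical.choose`); `g j = ` the series with coefficient at `ρ` equal to `coeff (ρ + single j 1) h` if `j(ρ + single j 1) = j`, and `0` otherwise.  Then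
`coeff ρ (∑ X_j g_j) = ∑_j [ρ_j ≠ 0] coeff (ρ - single j 1) g_j = ∑_j [ρ_j ≠ 0, j(ρ) = j] coeff ρ h = coeff ρ h` for `ρ ≠ 0`, and `0` for `ρ = 0`
(`coeff_X_mul`-type lemmas: `MvPowerSeries.coeff_add_monomial_mul`, `MvPowerSeries.coeff_monomial_mul`).  `Hi N (g j)`: `N + 1 ≤ degree (ρ + single j 1)`.
`dps`: let `δ' = δ - ∑_j δ X_j • pderiv j`, a derivation with `δ' X_j = 0` for all `j` (`pderiv_X`).  Claim: for all `N` and all `h`, `Hi N (δ' h)`.  Induction on `N`: `N = 0` clear.
`h = C h0 + ∑_j X_j g_j` (`hi_dec` with `N = 0` for `h - C h0`), `δ' h = ∑_j X_j δ' g_j`, and `Hi N (δ' g_j)` gives `Hi (N+1)`.  So all coefficients of `δ' h` vanish.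
-/

set_option autoImplicit false

namespace Pool.Agent.H22.T7

open Finset

variable {σ : Type}

theorem Hi_add {L : ℕ} {g h : MvPowerSeries σ ℂ} (hg : Hi L g) (hh : Hi L h) : Hi L (g + h) := by
  intro ρ hρ
  rw [map_add] at hρ
  by_cases h0 : MvPowerSeries.coeff ρ g = 0
  · rw [h0, zero_add] at hρ
    exact hh ρ hρ
  · exact hg ρ h0

theorem Hi_sum {α : Type*} {L : ℕ} (s : Finset α) (f : α → MvPowerSeries σ ℂ)
    (h : ∀ i ∈ s, Hi L (f i)) : Hi L (∑ i ∈ s, f i) := by
  intro ρ hρ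
  rw [map_sum] at hρ
  obtain ⟨i, hi, hne⟩ := Finset.exists_ne_zero_of_sum_ne_zero hρ
  exact h i hi ρ hne

theorem Hi_mul {L L' : ℕ} {g h : MvPowerSeries σ ℂ} (hg : Hi L g) (hh : Hi L' h) :
    Hi (L + L') (g * h) := by
  classical
  intro ρ hρ
  rw [MvPowerSeries.coeff_mul] at hρ
  obtain ⟨q, hq, hne⟩ := Finset.exists_ne_zero_of_sum_ne_zero hρ
  rw [Finset.HasAntidiagonal.mem_antidiagonal] at hq
  have h1 := hg _ (left_ne_zero_of_mul hne)
  have h2 := hh _ (right_ne_zero_of_mul hne)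
  rw [← hq, map_add]
  omega

theorem Hi_mono {L L' : ℕ} (hL : L' ≤ L) {g : MvPowerSeries σ ℂ} (hg : Hi L g) : Hi L' g :=
  fun ρ hρ => hL.trans (hg ρ hρ)

theorem Hi_smul {L : ℕ} (c : ℂ) {g : MvPowerSeries σ ℂ} (hg : Hi L g) : Hi L (c • g) := by
  intro ρ hρ
  rw [MvPowerSeries.coeff_smul] at hρ
  exact hg ρ (right_ne_zero_of_mul hρ)

theorem Hi_zero (g : MvPowerSeries σ ℂ) : Hi 0 g := fun _ _ => Nat.zero_le _

/-- Multiples. -/
theorem Hi_mul_left {L : ℕ} (g : MvPowerSeries σ ℂ) {h : MvPowerSeries σ ℂ} (hh : Hi L h) :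
    Hi L (g * h) := by
  have h1 := Hi_mul (Hi_zero g) hh
  rwa [zero_add] at h1

theorem Hi_pderiv {L : ℕ} (j : σ) {h : MvPowerSeries σ ℂ} (hh : Hi (L + 1) h) :
    Hi L (MvPowerSeries.pderiv ℂ j h) := by
  intro ρ hρ
  rw [MvPowerSeries.coeff_pderiv] at hρ
  have h1 := hh _ (left_ne_zero_of_mul hρ)
  rw [map_add, Finsupp.degree_single] at h1
  omega

theorem hi_dec [Fintype σ] [DecidableEq σ] (N : ℕ) (h : MvPowerSeries σ ℂ) (hh : Hi (N + 1) h) :
    ∃ g : σ → MvPowerSeries σ ℂ, (∀ j, Hi N (g j)) ∧ h = ∑ j, MvPowerSeries.X j * g j := by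
  classical
  have hex : ∀ ρ : σ →₀ ℕ, ρ ≠ 0 → ∃ j, ρ j ≠ 0 := by
    intro ρ hρ
    by_contra hcon
    push Not at hcon
    exact hρ (Finsupp.ext hcon)
  rcases isEmpty_or_nonempty σ with hσ | hσ
  · refine ⟨fun _ => 0, fun j => hσ.elim j, ?_⟩
    rw [Finset.univ_eq_empty, sum_empty]
    ext ρ
    by_contra hne
    have h1 := hh ρ hne
    have h2 : ρ = 0 := Finsupp.ext fun j => hσ.elim j
    rw [h2] at h1
    simp at h1
  choose! jj hjj using hex
  let gg : σ → MvPowerSeries σ ℂ := fun j => (fun ρ : σ →₀ ℕ =>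
    if jj (ρ + Finsupp.single j 1) = j then
      MvPowerSeries.coeff (ρ + Finsupp.single j 1) h else (0 : ℂ))
  have hgg : ∀ j ρ, MvPowerSeries.coeff ρ (gg j) = if jj (ρ + Finsupp.single j 1) = j then
      MvPowerSeries.coeff (ρ + Finsupp.single j 1) h else 0 := fun _ _ => rfl
  refine ⟨gg, fun j ρ hρ => ?_, ?_⟩
  · rw [hgg] at hρ
    split_ifs at hρ with h2
    · have h3 := hh _ hρ
      rw [map_add, Finsupp.degree_single] at h3
      omega
    · exact absurd rfl hρ
  · ext ρ
    rw [map_sum]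
    have h1 : ∀ j, MvPowerSeries.coeff ρ (MvPowerSeries.X j * gg j) =
        if ρ j ≠ 0 ∧ jj ρ = j then MvPowerSeries.coeff ρ h else 0 := by
      intro j
      rw [MvPowerSeries.X_def, MvPowerSeries.coeff_monomial_mul]
      by_cases h2 : ρ j ≠ 0
      · have h3 : Finsupp.single j 1 ≤ ρ := by
          rw [Finsupp.single_le_iff]
          omega
        rw [if_pos h3, one_mul]
        have h4 : ρ - Finsupp.single j 1 + Finsupp.single j 1 = ρ := tsub_add_cancel_of_le h3
        rw [hgg, h4]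
        by_cases h5 : jj ρ = j
        · rw [if_pos h5, if_pos ⟨h2, h5⟩]
        · rw [if_neg h5, if_neg (fun h => h5 h.2)]
      · have h3 : ¬ Finsupp.single j 1 ≤ ρ := by
          rw [Finsupp.single_le_iff]
          omega
        rw [if_neg h3, if_neg (fun h => h2 h.1)]
    rw [sum_congr rfl fun j _ => h1 j]
    by_cases hρ : ρ = 0
    · subst hρ
      have h2 : MvPowerSeries.coeff 0 h = 0 := by
        by_contra h3
        have := hh 0 h3
        simp at this
      rw [h2]
      symm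
      refine sum_eq_zero fun j _ => ?_
      split_ifs <;> rfl
    · rw [sum_eq_single (jj ρ)]
      · rw [if_pos ⟨hjj ρ hρ, rfl⟩]
      · intro j _ hj
        rw [if_neg (fun h => hj h.2.symm)]
      · intro h; exact absurd (mem_univ _) h

/-- DPS -/
theorem dps [Fintype σ] [DecidableEq σ]
    (δ : Derivation ℂ (MvPowerSeries σ ℂ) (MvPowerSeries σ ℂ)) (h : MvPowerSeries σ ℂ) :
    δ h = ∑ j, δ (MvPowerSeries.X j) * MvPowerSeries.pderiv ℂ j h := by
  classical
  set E : MvPowerSeries σ ℂ → MvPowerSeries σ ℂ := fun h =>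
    δ h - ∑ j, δ (MvPowerSeries.X j) * MvPowerSeries.pderiv ℂ j h with hE
  have hadd : ∀ x y, E (x + y) = E x + E y := by
    intro x y
    simp only [hE, map_add, mul_add, sum_add_distrib]
    ring
  have hsum : ∀ (s : Finset σ) (f : σ → MvPowerSeries σ ℂ),
      E (∑ i ∈ s, f i) = ∑ i ∈ s, E (f i) := by
    intro s f
    induction s using Finset.induction_on with
    | empty => simp [hE]
    | insert i s hi ih => rw [sum_insert hi, sum_insert hi, hadd, ih]
  have hmul : ∀ x y, E (x * y) = x * E y + y * E x := by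
    intro x y
    simp only [hE, Derivation.leibniz, smul_eq_mul, mul_add, sum_add_distrib]
    have h1 : ∑ j, δ (MvPowerSeries.X j) * (x * MvPowerSeries.pderiv ℂ j y) =
        x * ∑ j, δ (MvPowerSeries.X j) * MvPowerSeries.pderiv ℂ j y := by
      rw [mul_sum]
      exact sum_congr rfl fun j _ => by ring
    have h2 : ∑ j, δ (MvPowerSeries.X j) * (y * MvPowerSeries.pderiv ℂ j x) =
        y * ∑ j, δ (MvPowerSeries.X j) * MvPowerSeries.pderiv ℂ j x := by
      rw [mul_sum]
      exact sum_congr rfl fun j _ => by ring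
    rw [h1, h2]
    ring
  have hX : ∀ j, E (MvPowerSeries.X j) = 0 := by
    intro j
    simp only [hE]
    rw [sub_eq_zero, sum_eq_single j]
    · rw [MvPowerSeries.pderiv_X_self, mul_one]
    · intro i _ hi
      rw [MvPowerSeries.pderiv_X_of_ne hi.symm, mul_zero]
    · intro h; exact absurd (mem_univ _) h
  have hC : ∀ c : ℂ, E (MvPowerSeries.C c) = 0 := by
    intro c
    simp only [hE, MvPowerSeries.pderiv_C, mul_zero, sum_const_zero, sub_zero]
    have h1 : (MvPowerSeries.C c : MvPowerSeries σ ℂ) = algebraMap ℂ _ c := rfl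
    rw [h1]
    exact δ.map_algebraMap c
  have key : ∀ (N : ℕ) (h : MvPowerSeries σ ℂ), Hi N (E h) := by
    intro N
    induction N with
    | zero => intro h; exact Hi_zero _
    | succ N ih =>
      intro h
      have h0 : Hi (0 + 1) (h - MvPowerSeries.C (MvPowerSeries.constantCoeff h)) := by
        intro ρ hρ
        by_contra hcon
        have h1 : ρ.degree = 0 := by omega
        rw [Finsupp.degree_eq_zero_iff] at h1
        apply hρ
        rw [h1, map_sub]
        simp
      obtain ⟨g, -, hg⟩ := hi_dec 0 _ h0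
      have h2 : h = MvPowerSeries.C (MvPowerSeries.constantCoeff h) +
          ∑ j, MvPowerSeries.X j * g j := by
        rw [← hg]; ring
      rw [h2, hadd, hC, zero_add, hsum]
      refine Hi_sum _ _ fun j _ => ?_
      rw [hmul, hX, mul_zero, add_zero, add_comm N 1]
      refine Hi_mul ?_ (ih _)
      intro ρ hρ
      rw [MvPowerSeries.coeff_X] at hρ
      by_cases h3 : ρ = Finsupp.single j 1
      · rw [h3, Finsupp.degree_single]
      · rw [if_neg h3] at hρ
        exact absurd rfl hρ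
  have h0 : E h = 0 := by
    ext ρ
    by_contra hne
    have h1 : MvPowerSeries.coeff ρ (E h) ≠ 0 := hne
    have h2 := key (ρ.degree + 1) h ρ h1
    omega
  exact sub_eq_zero.1 h0

end Pool.Agent.H22.T7
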