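import Mathlib
import Pool.Agent.H22.GDefs

/-!
# Germs which are products of powers of nondegenerate germs

`NondegC`: nondegeneracy with respect to the compact faces. `topZetaL`: the local topological zeta
function by the formula of Denef and Loeser. `sus G e`: the germ `G + ∑ u_k v_k`. `SND G`: the germ
`sus G e` is, in suitable formal coordinates, nondegenerate, and convenient or quasi-homogeneous.
`GT F p`: the germ of the polynomial `F` at the point `p` is, in suitable formal coordinates, a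
unit times a product of powers of germs `G_j` in disjoint sets of variables.
-/

set_option autoImplicit false

namespace Pool.Agent.H22.T7

open Finset

/-- Nondegeneracy with respect to the compact faces of the Newton polyhedron: for every weight
vector `w` with positive entries the face polynomial `f_w` and all `x_k ∂f_w/∂x_k` have no common
zero with all coordinates different from zero. -/
def NondegC {m r : ℕ} (a : Fin r → (Fin m →₀ ℕ)) (κ : Fin r → ℂ) : Prop :=
  ∀ w : Fin m → ℤ, (∀ j, 0 < w j) → ∀ x : Fin m → ℂ, (∀ j, x j ≠ 0) →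
    ¬ ((∑ i with ∀ i', ∑ j, w j * a i j ≤ ∑ j, w j * a i' j, κ i * ∏ j, x j ^ (a i j)) = 0 ∧
      ∀ k, (∑ i with ∀ i', ∑ j, w j * a i j ≤ ∑ j, w j * a i' j,
        κ i * (a i k : ℂ) * ∏ j, x j ^ (a i j)) = 0)

/-- `τ` is the set of all exponents on the compact face cut out by some weight vector `k > 0`. -/
def IsCFace {m r : ℕ} (a : Fin r → (Fin m →₀ ℕ)) (τ : Finset (Fin r)) : Prop :=
  ∃ k : Fin m → ℝ, (∀ j, 0 < k j) ∧
    ∀ l, l ∈ τ ↔ ∀ l', ∑ j, (a l j : ℝ) * k j ≤ ∑ j, (a l' j : ℝ) * k j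

open Classical in
/-- The local topological zeta function of a germ, nondegenerate with exponents `a_1, …, a_r`, by
the formula of Denef and Loeser:
`Z(s) = Σ_{τ vertex} J_τ(s) + (s / (s+1)) Σ_{dim τ ≥ 1} (-1)^{dim τ} (dim τ)! Vol(τ) J_τ(s)`,
the sums over the compact faces of the Newton polyhedron. -/
noncomputable def topZetaL {m r : ℕ} (a : Fin r → (Fin m →₀ ℕ)) (𝒟 : ∀ τ, FaceCones a τ)
    (𝒯 : ∀ τ, FaceTriang a τ) : RatFunc ℂ :=
  ∑ τ ∈ univ.filter (fun τ : Finset (Fin r) => IsCFace a τ ∧ faceRank a τ = 1), JfunG a τ (𝒟 τ) +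
    RatFunc.X / (RatFunc.X + 1) *
      ∑ τ ∈ univ.filter (fun τ : Finset (Fin r) => IsCFace a τ ∧ 2 ≤ faceRank a τ),
        (-1) ^ (faceRank a τ - 1) * (nvol (𝒯 τ) : RatFunc ℂ) * JfunG a τ (𝒟 τ)

/-- `Z(c s + d)`. -/
noncomputable def aff (c d : ℂ) (Z : RatFunc ℂ) : RatFunc ℂ :=
  RatFunc.eval RatFunc.C (RatFunc.C c * RatFunc.X + RatFunc.C d) Z

/-- The local zeta function of `G` from that of `G + u_1 v_1 + ⋯ + u_e v_e`: the function
`Φ(s) = ((s+1) Z(s) - 1) / s` of the second germ at `s - e` is that of the first at `s`. -/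
noncomputable def unstab (e : ℕ) (Z : RatFunc ℂ) : RatFunc ℂ :=
  1 / (RatFunc.X + 1) + RatFunc.X / (RatFunc.X + 1) *
    aff 1 (-(e : ℂ)) (((RatFunc.X + 1) * Z - 1) / RatFunc.X)

/-- The germ `G + u_1 v_1 + ⋯ + u_e v_e`. -/
noncomputable def sus {m : ℕ} (G : MvPowerSeries (Fin m) ℂ) (e : ℕ) :
    MvPowerSeries (Fin m ⊕ (Fin e ⊕ Fin e)) ℂ :=
  MvPowerSeries.rename Sum.inl G +
    ∑ k, MvPowerSeries.X (Sum.inr (Sum.inl k)) * MvPowerSeries.X (Sum.inr (Sum.inr k))

/-- The germ of `F` at `p`. -/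
noncomputable def germ {n : ℕ} (F : MvPolynomial (Fin n) ℂ) (p : Fin n → ℂ) :
    MvPowerSeries (Fin n) ℂ :=
  ((MvPolynomial.aeval (fun j => MvPolynomial.X j + MvPolynomial.C (p j)) F :
    MvPolynomial (Fin n) ℂ) : MvPowerSeries (Fin n) ℂ)

/-- `G` is stably nondegenerate: in suitable formal coordinates `G + u_1 v_1 + ⋯ + u_e v_e` is
`∑ κ_i x^{a_i} + H`, the exponents of `H` lie above all compact faces, `∑ κ_i x^{a_i}` is
nondegenerate with respect to the compact faces, and either the `a_i` contain a multiple of every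
unit vector (convenient), or `H = 0` and `∑ κ_i x^{a_i}` is quasi-homogeneous with positive
weights. -/
structure SND {m : ℕ} (G : MvPowerSeries (Fin m) ℂ) where
  /-- the number of summands `u_k v_k` -/
  e : ℕ
  /-- the number of coordinates -/
  m' : ℕ
  pos : 0 < m'
  /-- the number of exponents -/
  r : ℕ
  /-- the exponents -/
  a : Fin r → (Fin m' →₀ ℕ)
  inj : Function.Injective a
  ne : ∀ i, a i ≠ 0
  /-- the coefficients -/
  κ : Fin r → ℂ
  κ0 : ∀ i, κ i ≠ 0
  nd : NondegC a κ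
  /-- the terms above the Newton polyhedron -/
  H : MvPowerSeries (Fin m') ℂ
  high : ∀ ρ, MvPowerSeries.coeff ρ H ≠ 0 → ∀ w : Fin m' → ℕ, (∀ j, 0 < w j) →
    wmin a w < ∑ j, ρ j * w j
  alt : (∀ j, ∃ i k, a i = Finsupp.single j k) ∨
    (H = 0 ∧ ∃ (w : Fin m' → ℕ) (d : ℕ), (∀ j, 0 < w j) ∧ ∀ i, ∑ j, a i j * w j = d)
  /-- the change of coordinates -/
  φ : MvPowerSeries (Fin m ⊕ (Fin e ⊕ Fin e)) ℂ ≃ₐ[ℂ] MvPowerSeries (Fin m') ℂ
  eq : φ (sus G e) = ∑ i, MvPowerSeries.monomial (a i) (κ i) + H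
  /-- decompositions of the dual cones -/
  𝒟 : ∀ τ, FaceCones a τ
  /-- triangulations of the faces -/
  𝒯 : ∀ τ, FaceTriang a τ

/-- The local topological zeta function of `G`. -/
noncomputable def SND.Z {m : ℕ} {G : MvPowerSeries (Fin m) ℂ} (T : SND G) : RatFunc ℂ :=
  unstab T.e (topZetaL T.a T.𝒟 T.𝒯)

/-- In suitable formal coordinates the germ of `F` at `p` is a unit times a product of powers
`G_j^{N_j}` of stably nondegenerate germs `G_j` in disjoint sets of variables. -/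
structure GT {n : ℕ} (F : MvPolynomial (Fin n) ℂ) (p : Fin n → ℂ) where
  /-- the change of coordinates -/
  φ : MvPowerSeries (Fin n) ℂ ≃ₐ[ℂ] MvPowerSeries (Fin n) ℂ
  /-- the unit -/
  u : MvPowerSeries (Fin n) ℂ
  hu : IsUnit u
  /-- the number of factors -/
  q : ℕ
  /-- the numbers of variables -/
  m : Fin q → ℕ
  /-- the variables of the factors -/
  ι : ∀ j, Fin (m j) ↪ Fin n
  disj : ∀ j j', j ≠ j' → ∀ x y, ι j x ≠ ι j' y
  /-- the exponents of the factors -/
  N : Fin q → ℕ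
  Npos : ∀ j, 0 < N j
  /-- the factors -/
  G : ∀ j, MvPowerSeries (Fin (m j)) ℂ
  /-- the factors are stably nondegenerate -/
  T : ∀ j, SND (G j)
  eq : φ (germ F p) = u * ∏ j, (MvPowerSeries.rename (ι j) (G j)) ^ (N j)

/-- The local topological zeta function `∏_j Z_{G_j}(N_j s)` of `F` at `p`. -/
noncomputable def GT.Z {n : ℕ} {F : MvPolynomial (Fin n) ℂ} {p : Fin n → ℂ} (T : GT F p) :
    RatFunc ℂ :=
  ∏ j, aff (T.N j) 0 (T.T j).Z

end Pool.Agent.H22.T7
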