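import Pool.Agent.H22.T7.DPS

/-!
# EXT: extension of differential operators to more variables

Proof.  Facts: `pderiv (inl j) (rename inl g) = rename inl (pderiv j g)`, `pderiv (inl j) (rename inr q) = 0`, `pderiv (inr j) (rename inl g) = 0`,
`pderiv (inr j) (rename inr q) = rename inr (pderiv j q)` (coefficients: `coeff_pderiv`, `coeff_rename`, `coeff_embDomain_rename`, `coeff_rename_eq_zero`; use the embeddings
`Function.Embedding.inl`, `Function.Embedding.inr`, or the instances for injective maps).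
`ext`: `Diff_ind` on `D`: `1`: `1`.  Sums, scalars: clear.  `mulLeft a * D`: `mulLeft (rename inl a) * D'`.  `δ * D`: `δ' * D'` with
`δ' = ∑_j mulLeft (rename inl (δ X_j)) * pderiv (inl j)`: `δ' (rename inl g * rename inr q) = ∑_j rename inl (δ X_j) * rename inl (pderiv j g) * rename inr q = rename inl (δ g) * rename inr q`
by `dps`.
-/

set_option autoImplicit false

namespace Pool.Agent.H22.T7

open Finset

theorem ext_coeff_out {σ τ : Type} [Fintype σ] [Fintype τ] (e : σ ↪ τ)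
    (g : MvPowerSeries σ ℂ) (x : τ →₀ ℕ) (t : τ) (ht : t ∉ Set.range e) (hx : x t ≠ 0) :
    MvPowerSeries.coeff x (MvPowerSeries.rename e g) = 0 := by
  apply MvPowerSeries.coeff_rename_eq_zero
  rintro ⟨y, hy⟩
  apply hx
  rw [← hy, ← Finsupp.embDomain_eq_mapDomain]
  classical
  rw [Finsupp.embDomain_apply]
  rw [dif_neg]
  rintro ⟨a, ha⟩
  exact ht ⟨a, ha⟩

theorem ext_range {σ τ : Type} [Fintype σ] [Fintype τ] (e : σ ↪ τ) (x : τ →₀ ℕ)
    (hx : ∀ t, t ∉ Set.range e → x t = 0) : ∃ y : σ →₀ ℕ, x = Finsupp.embDomain e y := by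
  refine ⟨Finsupp.comapDomain e x (e.injective.injOn), ?_⟩
  rw [Finsupp.embDomain_comapDomain]
  intro t ht
  by_contra h
  exact (Finsupp.mem_support_iff.mp ht) (hx t h)

theorem ext_pderiv_in {σ τ : Type} [Fintype σ] [Fintype τ] (e : σ ↪ τ) (j : σ)
    (g : MvPowerSeries σ ℂ) :
    MvPowerSeries.pderiv ℂ (e j) (MvPowerSeries.rename e g) =
      MvPowerSeries.rename e (MvPowerSeries.pderiv ℂ j g) := by
  classical
  ext x
  rw [MvPowerSeries.coeff_pderiv]
  by_cases hx : ∀ t, t ∉ Set.range e → x t = 0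
  · obtain ⟨y, rfl⟩ := ext_range e x hx
    have h1 : Finsupp.embDomain e y + Finsupp.single (e j) 1 =
        Finsupp.embDomain e (y + Finsupp.single j 1) := by
      rw [Finsupp.embDomain_eq_mapDomain, Finsupp.embDomain_eq_mapDomain, Finsupp.mapDomain_add,
        Finsupp.mapDomain_single]
    rw [h1, MvPowerSeries.coeff_embDomain_rename, MvPowerSeries.coeff_embDomain_rename,
      MvPowerSeries.coeff_pderiv, Finsupp.embDomain_apply_self]
  · push Not at hx
    obtain ⟨t, ht, hxt⟩ := hx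
    rw [ext_coeff_out e _ x t ht hxt, ext_coeff_out e g (x + Finsupp.single (e j) 1) t ht, zero_mul]
    rw [Finsupp.add_apply]
    omega

theorem ext_pderiv_out {σ τ : Type} [Fintype σ] [Fintype τ] (e : σ ↪ τ) (t : τ)
    (ht : t ∉ Set.range e) (g : MvPowerSeries σ ℂ) :
    MvPowerSeries.pderiv ℂ t (MvPowerSeries.rename e g) = 0 := by
  classical
  ext x
  rw [MvPowerSeries.coeff_pderiv, ext_coeff_out e g (x + Finsupp.single t 1) t ht, zero_mul]
  · simp
  · rw [Finsupp.add_apply, Finsupp.single_eq_same]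
    omega

theorem pderiv_inl_inl {α β : Type} [Fintype α] [Fintype β] [DecidableEq α] [DecidableEq β]
    (j : α) (g : MvPowerSeries α ℂ) :
    MvPowerSeries.pderiv ℂ (Sum.inl j : α ⊕ β) (MvPowerSeries.rename Sum.inl g) =
      MvPowerSeries.rename Sum.inl (MvPowerSeries.pderiv ℂ j g) :=
  ext_pderiv_in (Function.Embedding.inl : α ↪ α ⊕ β) j g

theorem pderiv_inl_inr {α β : Type} [Fintype α] [Fintype β] [DecidableEq α] [DecidableEq β]
    (j : α) (q : MvPowerSeries β ℂ) :
    MvPowerSeries.pderiv ℂ (Sum.inl j : α ⊕ β) (MvPowerSeries.rename Sum.inr q) = 0 :=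
  ext_pderiv_out (Function.Embedding.inr : β ↪ α ⊕ β) (Sum.inl j) (by
    rintro ⟨b, hb⟩
    exact absurd hb (by simp)) q

theorem pderiv_inr_inl {α β : Type} [Fintype α] [Fintype β] [DecidableEq α] [DecidableEq β]
    (j : β) (g : MvPowerSeries α ℂ) :
    MvPowerSeries.pderiv ℂ (Sum.inr j : α ⊕ β) (MvPowerSeries.rename Sum.inl g) = 0 :=
  ext_pderiv_out (Function.Embedding.inl : α ↪ α ⊕ β) (Sum.inr j) (by
    rintro ⟨b, hb⟩
    exact absurd hb (by simp)) g

theorem pderiv_inr_inr {α β : Type} [Fintype α] [Fintype β] [DecidableEq α] [DecidableEq β]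
    (j : β) (q : MvPowerSeries β ℂ) :
    MvPowerSeries.pderiv ℂ (Sum.inr j : α ⊕ β) (MvPowerSeries.rename Sum.inr q) =
      MvPowerSeries.rename Sum.inr (MvPowerSeries.pderiv ℂ j q) :=
  ext_pderiv_in (Function.Embedding.inr : β ↪ α ⊕ β) j q

/-- EXT -/
theorem ext {α β : Type} [Fintype α] [Fintype β] [DecidableEq α] [DecidableEq β]
    {D : Module.End ℂ (MvPowerSeries α ℂ)} (hD : D ∈ Diff (MvPowerSeries α ℂ)) :
    ∃ D' ∈ Diff (MvPowerSeries (α ⊕ β) ℂ), ∀ (g : MvPowerSeries α ℂ) (q : MvPowerSeries β ℂ),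
      D' (MvPowerSeries.rename Sum.inl g * MvPowerSeries.rename Sum.inr q) =
        MvPowerSeries.rename Sum.inl (D g) * MvPowerSeries.rename Sum.inr q := by
  revert D
  apply Diff_ind
  · refine ⟨1, one_mem _, ?_⟩
    intro g q
    rfl
  · rintro D E ⟨D', hD', h1⟩ ⟨E', hE', h2⟩
    refine ⟨D' + E', add_mem hD' hE', ?_⟩
    intro g q
    rw [LinearMap.add_apply, h1, h2, LinearMap.add_apply, map_add, add_mul]
  · rintro c D ⟨D', hD', h1⟩
    refine ⟨c • D', Subalgebra.smul_mem _ hD' c, ?_⟩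
    intro g q
    rw [LinearMap.smul_apply, h1, LinearMap.smul_apply, map_smul, smul_mul_assoc]
  · rintro a D ⟨D', hD', h1⟩
    refine ⟨LinearMap.mulLeft ℂ (MvPowerSeries.rename Sum.inl a) * D',
      mul_mem (mulLeft_mem _) hD', ?_⟩
    intro g q
    rw [Module.End.mul_apply, h1, Module.End.mul_apply, LinearMap.mulLeft_apply,
      LinearMap.mulLeft_apply, map_mul, mul_assoc]
  · rintro δ D ⟨D', hD', h1⟩
    refine ⟨(∑ j : α, LinearMap.mulLeft ℂ (MvPowerSeries.rename Sum.inl (δ (MvPowerSeries.X j))) *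
      ((MvPowerSeries.pderiv ℂ (Sum.inl j : α ⊕ β) : Derivation ℂ (MvPowerSeries (α ⊕ β) ℂ)
        (MvPowerSeries (α ⊕ β) ℂ)).toLinearMap)) * D',
      mul_mem (sum_mem fun j _ => mul_mem (mulLeft_mem _) (der_mem _)) hD', ?_⟩
    intro g q
    rw [Module.End.mul_apply, h1, Module.End.mul_apply, LinearMap.sum_apply]
    have h3 : δ.toLinearMap (D g) = ∑ j, δ (MvPowerSeries.X j) * MvPowerSeries.pderiv ℂ j (D g) :=
      dps δ (D g)
    rw [h3, map_sum, Finset.sum_mul]
    apply Finset.sum_congr rfl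
    intro j _
    rw [Module.End.mul_apply, LinearMap.mulLeft_apply]
    have h4 : (MvPowerSeries.pderiv ℂ (Sum.inl j : α ⊕ β) : Derivation ℂ (MvPowerSeries (α ⊕ β) ℂ)
        (MvPowerSeries (α ⊕ β) ℂ)).toLinearMap
          (MvPowerSeries.rename Sum.inl (D g) * MvPowerSeries.rename Sum.inr q) =
        MvPowerSeries.rename Sum.inl (MvPowerSeries.pderiv ℂ j (D g)) *
          MvPowerSeries.rename Sum.inr q := by
      show MvPowerSeries.pderiv ℂ (Sum.inl j : α ⊕ β)
        (MvPowerSeries.rename Sum.inl (D g) * MvPowerSeries.rename Sum.inr q) = _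
      rw [Derivation.leibniz, pderiv_inl_inl, pderiv_inl_inr, smul_zero, zero_add, smul_eq_mul,
        mul_comm]
    rw [h4, map_mul, mul_assoc]

end Pool.Agent.H22.T7
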