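import Pool.Agent.H22.T7.PFB

/-!
# FEA: the functional equation as a polynomial family

Proof.  `P.act c g = ∑_β MvPolynomial.map (evalRingHom c) (P β) * diffPow β g`.  `diffPow β ∈ Diff`: a product of powers of derivations (`Subalgebra.list_prod_mem`, `pow_mem`,
`der_mem`; `LinearMap` multiplication is composition).  For `p : MvPolynomial (Fin n) (Polynomial ℂ)`: the family
`c ↦ mulLeft (MvPolynomial.map (evalRingHom c) p)` is in `PF`: induction on `p` (`MvPolynomial.induction_on`): for `C q`, `q : Polynomial ℂ`: induction on `q`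
(`q = C a`: constant family; `q = X`: `c • 1`; sums, products since `c ↦ mulLeft (map .. p)` is a ring homomorphism and `PF` a subalgebra); `X j`: constant family.
So `B c = ∑_{β ∈ P.support} (mulLeft ..) * diffPow β` is in `PF` (as a sum of products of functions), `B c g = P.act c g`, and
`C (b.eval k) * F^k = b.eval k • (1 * F^k)` (`MvPolynomial.C_mul'`).
-/

set_option autoImplicit false

namespace Pool.Agent.H22.T7

open Finset

theorem FEA_diff {n : ℕ} (β : Fin n →₀ ℕ) :
    (H22.diffPow β : Module.End ℂ (MvPolynomial (Fin n) ℂ)) ∈ Diff (MvPolynomial (Fin n) ℂ) := by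
  unfold H22.diffPow
  refine Subalgebra.list_prod_mem _ ?_
  intro D hD
  rw [List.mem_map] at hD
  obtain ⟨j, -, rfl⟩ := hD
  exact pow_mem (der_mem (R := MvPolynomial (Fin n) ℂ) (MvPolynomial.pderiv j)) _

theorem FEA_coef {n : ℕ} (p : MvPolynomial (Fin n) (Polynomial ℂ)) :
    (fun c : ℂ => LinearMap.mulLeft ℂ
      (MvPolynomial.map (Polynomial.evalRingHom c) p : MvPolynomial (Fin n) ℂ)) ∈
      PF (MvPolynomial (Fin n) ℂ) := by
  induction p using MvPolynomial.induction_on with
  | C q =>
    induction q using Polynomial.induction_on' with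
    | add p q hp hq =>
      have h : (fun c : ℂ => LinearMap.mulLeft ℂ
          (MvPolynomial.map (Polynomial.evalRingHom c) (MvPolynomial.C (p + q)) :
            MvPolynomial (Fin n) ℂ)) =
          (fun c : ℂ => LinearMap.mulLeft ℂ
            (MvPolynomial.map (Polynomial.evalRingHom c) (MvPolynomial.C p) :
              MvPolynomial (Fin n) ℂ)) +
          (fun c : ℂ => LinearMap.mulLeft ℂ
            (MvPolynomial.map (Polynomial.evalRingHom c) (MvPolynomial.C q) :
              MvPolynomial (Fin n) ℂ)) := by
        funext c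
        refine LinearMap.ext fun g => ?_
        simp only [map_add, LinearMap.mulLeft_apply, Pi.add_apply, LinearMap.add_apply, add_mul]
      rw [h]
      exact add_mem hp hq
    | monomial k a =>
      have h : (fun c : ℂ => LinearMap.mulLeft ℂ
          (MvPolynomial.map (Polynomial.evalRingHom c)
            (MvPolynomial.C (Polynomial.monomial k a)) : MvPolynomial (Fin n) ℂ)) =
          a • (fun c : ℂ => c • (1 : Module.End ℂ (MvPolynomial (Fin n) ℂ))) ^ k := by
        funext c
        refine LinearMap.ext fun g => ?_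
        rw [MvPolynomial.map_C, Pi.smul_apply, Pi.pow_apply, smul_pow, one_pow]
        simp only [LinearMap.mulLeft_apply, LinearMap.smul_apply, Module.End.one_apply,
          Polynomial.coe_evalRingHom, Polynomial.eval_monomial]
        rw [smul_smul, MvPolynomial.C_mul']
      rw [h]
      exact Subalgebra.smul_mem _ (pow_mem id_mem k) a
  | add p q hp hq =>
    have h : (fun c : ℂ => LinearMap.mulLeft ℂ
        (MvPolynomial.map (Polynomial.evalRingHom c) (p + q) : MvPolynomial (Fin n) ℂ)) =
        (fun c : ℂ => LinearMap.mulLeft ℂ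
          (MvPolynomial.map (Polynomial.evalRingHom c) p : MvPolynomial (Fin n) ℂ)) +
        (fun c : ℂ => LinearMap.mulLeft ℂ
          (MvPolynomial.map (Polynomial.evalRingHom c) q : MvPolynomial (Fin n) ℂ)) := by
      funext c
      refine LinearMap.ext fun g => ?_
      simp only [map_add, LinearMap.mulLeft_apply, Pi.add_apply, LinearMap.add_apply, add_mul]
    rw [h]
    exact add_mem hp hq
  | mul_X p j hp =>
    have h : (fun c : ℂ => LinearMap.mulLeft ℂ
        (MvPolynomial.map (Polynomial.evalRingHom c) (p * MvPolynomial.X j) :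
          MvPolynomial (Fin n) ℂ)) =
        (fun c : ℂ => LinearMap.mulLeft ℂ
          (MvPolynomial.map (Polynomial.evalRingHom c) p : MvPolynomial (Fin n) ℂ)) *
        (fun _ : ℂ => LinearMap.mulLeft ℂ (MvPolynomial.X j : MvPolynomial (Fin n) ℂ)) := by
      funext c
      refine LinearMap.ext fun g => ?_
      simp only [map_mul, MvPolynomial.map_X, LinearMap.mulLeft_apply, Pi.mul_apply,
        Module.End.mul_apply, mul_assoc]
    rw [h]
    exact mul_mem hp (const_mem (mulLeft_mem _))

/-- FEA -/
theorem fea {n : ℕ} (F : MvPolynomial (Fin n) ℂ) (b : Polynomial ℂ) (P : H22.WeylS n)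
    (h : H22.FunctionalEquation F b P) : FEq (MvPolynomial (Fin n) ℂ) F b := by
  refine ⟨∑ β ∈ P.support, (fun c : ℂ => LinearMap.mulLeft ℂ
      (MvPolynomial.map (Polynomial.evalRingHom c) (P β) : MvPolynomial (Fin n) ℂ)) *
      (fun _ : ℂ => (H22.diffPow β : Module.End ℂ (MvPolynomial (Fin n) ℂ))), ?_, ?_⟩
  · exact sum_mem fun β _ => mul_mem (FEA_coef (P β)) (const_mem (FEA_diff β))
  · intro k
    have h1 := h k
    have h2 : (∑ β ∈ P.support, (fun c : ℂ => LinearMap.mulLeft ℂ
        (MvPolynomial.map (Polynomial.evalRingHom c) (P β) : MvPolynomial (Fin n) ℂ)) *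
        (fun _ : ℂ => (H22.diffPow β : Module.End ℂ (MvPolynomial (Fin n) ℂ)))) (k : ℂ)
          (F ^ (k + 1)) = P.act (k : ℂ) (F ^ (k + 1)) := by
      rw [Finset.sum_apply, LinearMap.sum_apply]
      rfl
    rw [h2, h1, one_mul, MvPolynomial.C_mul']

end Pool.Agent.H22.T7
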