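import Pool.Agent.H22.T7.MAI
import Pool.Agent.H60.ConeExist
import Pool.Agent.H22.G6

/-!
# FIN
-/

set_option autoImplicit false

namespace Pool.Agent.H22.T7

open Finset
open Pool.Agent.H37.SM

/-- FIN -/
theorem fin_main {n : ℕ} (F : MvPolynomial (Fin n) ℂ) (hF : ∀ c : ℂ, F ≠ MvPolynomial.C c)
    (b : Polynomial ℂ) (P : H22.WeylS n) (hP : H22.FunctionalEquation F b P) {N : ℕ}
    (p : Fin N → Fin n → ℂ) (T : ∀ i, GT F (p i)) (c0 c1 : ℂ) (χ : Fin N → ℂ) (s0 : ℂ)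
    (hs0 : s0.re < 0)
    (hs : (RatFunc.C c0 + RatFunc.C c1 / (RatFunc.X + 1) +
      ∑ i, RatFunc.C (χ i) * (T i).Z).denom.IsRoot s0) : b.IsRoot s0 := by
  classical
  by_contra hb
  have hF0 : F ≠ 0 := by
    intro h
    exact hF 0 (by rw [h, map_zero])
  have hb' : b.eval s0 ≠ 0 := hb
  have hs1 : s0 ≠ -1 := by
    rintro rfl
    exact hb' (H22.eval_neg_one_general F hF b P hP)
  have h1 : Reg s0 (RatFunc.C c0 + RatFunc.C c1 / (RatFunc.X + 1) +
      ∑ i, RatFunc.C (χ i) * (T i).Z) := by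
    refine Reg.add (Reg.add (reg_C s0 c0) ?_) (Reg.sum _ _ fun i _ => ?_)
    · rw [div_eq_mul_inv]
      refine (reg_C s0 c1).mul ?_
      have h2 := reg_inv_linear (s0 := s0) 1 1 (by
        intro h
        apply hs1
        push_cast at h
        linear_combination h)
      have h3 : ((1 : ℕ) : RatFunc ℂ) + ((1 : ℕ) : RatFunc ℂ) * RatFunc.X = RatFunc.X + 1 := by
        push_cast; ring
      rw [h3] at h2
      exact h2
    · exact (reg_C s0 (χ i)).mul (mai_gt F hF0 (p i) (T i) b P hP s0 hs0 hb')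
  exact h1 hs

end Pool.Agent.H22.T7
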