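import Pool.Agent.H22.T7.NDF
import Pool.Agent.H22.T7.APR
import Pool.Agent.H56.SMC.LAM

/-!
# FPR: the polynomial `f'`

Proof.  `c0` from `trunc_exists H D0` (exponents of degree `< D0`), `S = c0.support`, `s = S.card`, `e : Fin s ≃ S` (`S.equivFin`).  `r' = r + s + m`,
`a' = Fin.append (Fin.append a (fun t => (e t : _))) (fun j => Finsupp.single j D0)`, `κ'` similarly with `coeff (e t) c0` and `lam`, `lam` from `lam_exists (image κ ∪ image of the coefficients of c0) (Fin m)`.
`η = castAdd ∘ castAdd`, `θ = natAdd`.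
`Above`: for `t` = an exponent of `c0`: `high`; for `t = θ j`: `w·(D0 e_j) = D0 w_j > k w_j ≥ wmin a w` where `a i = single j k` (`conv`; `k < D0` since `degree (a i) < D0`; `wmin a w ≤ ∑ a_i j w_j`: `appg_wmin_le`).
`ndf` with `T` = the finite set; the cast `((T : Finset ℂ) : Set ℂ)`.  `hdeg`: `degree (a i) < D0`, exponents of `c0` have degree `< D0`, `degree (single j D0) = D0`.
`Hi D0 (fpoly a' κ' - (∑ + H))`: `fpoly a' κ' = fpoly a κ + c0 + ∑_j monomial (single j D0) lam_j` (`Fin.sum_univ_add`, `Fin.append_left`, `Fin.append_right`, `MvPolynomial.support_sum_monomial_coeff`), so the difference is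
`-(H - c0) + ∑_j lam_j X_j^{D0}`.
-/

set_option autoImplicit false

namespace Pool.Agent.H22.T7

open Finset AddMonoidAlgebra
open Pool.Agent.H56.SMC Pool.Agent.H37.T5 Pool.Agent.H56.T5

/-- FPR -/
theorem fpr {m r : ℕ} (hm : 0 < m) (a : Fin r → (Fin m →₀ ℕ)) (κ : Fin r → ℂ)
    (conv : Conv a) (nd : NondegC a κ) (H : MvPowerSeries (Fin m) ℂ)
    (high : ∀ ρ, MvPowerSeries.coeff ρ H ≠ 0 → ∀ w : Fin m → ℕ, (∀ j, 0 < w j) →
      H22.wmin a w < ∑ j, ρ j * w j) (D0 : ℕ) (hD0 : ∀ i, (a i).degree < D0) :
    ∃ (r' : ℕ) (a' : Fin r' → (Fin m →₀ ℕ)) (κ' : Fin r' → ℂ) (η : Fin r ↪ Fin r'),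
      Above a a' η ∧ Nondeg a' κ' ∧
      Hi D0 ((fpoly a' κ' : MvPowerSeries (Fin m) ℂ) -
        (∑ i, MvPowerSeries.monomial (a i) (κ i) + H)) := by
  classical
  obtain ⟨c0, hc0, hc0'⟩ := trunc_exists H D0
  obtain ⟨e, he⟩ : ∃ e : Fin c0.support.card ≃ c0.support, e = c0.support.equivFin.symm :=
    ⟨_, rfl⟩
  obtain ⟨lam, hlam⟩ := lam_exists (Finset.univ.image κ ∪
    c0.support.image (fun ρ => MvPolynomial.coeff ρ c0)) (Fin m)
  have hD0pos : 0 < D0 := by
    obtain ⟨i, k, _⟩ := conv ⟨0, hm⟩
    exact lt_of_le_of_lt (Nat.zero_le _) (hD0 i)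
  have hwle : ∀ (w : Fin m → ℕ) (i : Fin r), H22.wmin a w ≤ ∑ j, a i j * w j := fun w i =>
    ciInf_le (OrderBot.bddBelow _) i
  have hinj : Function.Injective (fun i : Fin r =>
      Fin.castAdd m (Fin.castAdd c0.support.card i)) :=
    (Fin.castAdd_injective _ _).comp (Fin.castAdd_injective _ _)
  have hcoe : ∀ t, MvPolynomial.coeff (e t : Fin m →₀ ℕ) c0 ≠ 0 := fun t =>
    MvPolynomial.mem_support_iff.1 (e t).2
  have hAb : Above a (Fin.append (Fin.append a (fun t => (e t : Fin m →₀ ℕ)))
      (fun j => Finsupp.single j D0)) ⟨_, hinj⟩ := by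
    refine ⟨fun i => by simp, fun t ht w hw => ?_⟩
    induction t using Fin.addCases with
    | left t =>
      induction t using Fin.addCases with
      | left i => exact absurd ⟨i, rfl⟩ ht
      | right t =>
        rw [Fin.append_left, Fin.append_right]
        refine high _ ?_ w hw
        rw [← (hc0' _ (hcoe t)).2]
        exact hcoe t
    | right j =>
      rw [Fin.append_right]
      obtain ⟨i, k, hik⟩ := conv j
      have h1 := hwle w i
      have h2 := hD0 i
      rw [hik, Finsupp.degree_single] at h2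
      have h3 : ∀ k : ℕ, ∑ j', (Finsupp.single j k : Fin m →₀ ℕ) j' * w j' = k * w j := by
        intro k
        rw [Finset.sum_eq_single j]
        · rw [Finsupp.single_eq_same]
        · intro b _ hb
          rw [Finsupp.single_eq_of_ne hb, zero_mul]
        · intro hb
          exact absurd (Finset.mem_univ j) hb
      rw [hik, h3] at h1
      rw [h3]
      exact lt_of_le_of_lt h1 (Nat.mul_lt_mul_of_pos_right h2 (hw j))
  have hinj2 : Function.Injective (fun j : Fin m => Fin.natAdd (r + c0.support.card) j) :=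
    Fin.natAdd_injective _ _
  refine ⟨r + c0.support.card + m, Fin.append (Fin.append a (fun t => (e t : Fin m →₀ ℕ)))
    (fun j => Finsupp.single j D0), Fin.append (Fin.append κ
    (fun t => MvPolynomial.coeff (e t : Fin m →₀ ℕ) c0)) lam, ⟨_, hinj⟩, hAb, ?_, ?_⟩
  · refine ndf hm a κ _ _ ⟨_, hinj⟩ hAb (fun i => by simp) nd D0 ?_ _ lam hlam ⟨_, hinj2⟩
      (fun j => by simp) (fun j => by simp) ?_
    · intro t
      induction t using Fin.addCases with
      | left t =>
        induction t using Fin.addCases with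
        | left i =>
          rw [Fin.append_left, Fin.append_left]
          exact (hD0 i).le
        | right t =>
          rw [Fin.append_left, Fin.append_right]
          exact (hc0' _ (hcoe t)).1.le
      | right j =>
        rw [Fin.append_right, Finsupp.degree_single]
    · intro t ht
      induction t using Fin.addCases with
      | left t =>
        rw [Fin.append_left]
        simp only [Finset.coe_union, Finset.coe_image, Set.mem_union]
        induction t using Fin.addCases with
        | left i =>
          left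
          exact ⟨i, by simp, by simp⟩
        | right t =>
          right
          exact ⟨e t, (e t).2, by simp⟩
      | right j => exact absurd ⟨j, rfl⟩ ht
  · have hsum : (fpoly (Fin.append (Fin.append a (fun t => (e t : Fin m →₀ ℕ)))
        (fun j => Finsupp.single j D0)) (Fin.append (Fin.append κ
        (fun t => MvPolynomial.coeff (e t : Fin m →₀ ℕ) c0)) lam) : MvPowerSeries (Fin m) ℂ) =
        ∑ i, MvPowerSeries.monomial (a i) (κ i) + (c0 : MvPowerSeries (Fin m) ℂ) +
          ∑ j, MvPowerSeries.monomial (Finsupp.single j D0) (lam j) := by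
      have h1 : fpoly (Fin.append (Fin.append a (fun t => (e t : Fin m →₀ ℕ)))
        (fun j => Finsupp.single j D0)) (Fin.append (Fin.append κ
        (fun t => MvPolynomial.coeff (e t : Fin m →₀ ℕ) c0)) lam) =
          ∑ i, MvPolynomial.monomial (a i) (κ i) + c0 +
            ∑ j, MvPolynomial.monomial (Finsupp.single j D0) (lam j) := by
        rw [fpoly, Fin.sum_univ_add, Fin.sum_univ_add]
        simp only [Fin.append_left, Fin.append_right]
        congr 2
        have h2 : ∑ t : Fin c0.support.card, (MvPolynomial.monomial (e t : Fin m →₀ ℕ)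
            (MvPolynomial.coeff (e t : Fin m →₀ ℕ) c0)) =
            ∑ ρ : c0.support, MvPolynomial.monomial (ρ : Fin m →₀ ℕ)
              (MvPolynomial.coeff (ρ : Fin m →₀ ℕ) c0) :=
          Equiv.sum_comp e (fun ρ : c0.support => MvPolynomial.monomial (ρ : Fin m →₀ ℕ)
              (MvPolynomial.coeff (ρ : Fin m →₀ ℕ) c0))
        rw [h2, Finset.sum_coe_sort c0.support (fun ρ => MvPolynomial.monomial ρ
          (MvPolynomial.coeff ρ c0)), MvPolynomial.support_sum_monomial_coeff]
      rw [h1]
      simp only [MvPolynomial.coe_add]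
      have h3 : ∀ {k : ℕ} (b : Fin k → (Fin m →₀ ℕ)) (c : Fin k → ℂ),
          ((∑ i, MvPolynomial.monomial (b i) (c i) : MvPolynomial (Fin m) ℂ) :
            MvPowerSeries (Fin m) ℂ) = ∑ i, MvPowerSeries.monomial (b i) (c i) := by
        intro k b c
        have h4 := map_sum (MvPolynomial.coeToMvPowerSeries.ringHom (σ := Fin m) (R := ℂ))
          (fun i => MvPolynomial.monomial (b i) (c i)) Finset.univ
        simp only [MvPolynomial.coeToMvPowerSeries.ringHom_apply] at h4
        rw [h4]
        exact Finset.sum_congr rfl fun i _ => MvPolynomial.coe_monomial _ _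
      rw [h3, h3]
    rw [hsum]
    intro ρ hρ
    by_contra hlt
    push Not at hlt
    apply hρ
    have h5 : (∑ i, MvPowerSeries.monomial (a i) (κ i) + (c0 : MvPowerSeries (Fin m) ℂ) +
          ∑ j, MvPowerSeries.monomial (Finsupp.single j D0) (lam j)) -
          (∑ i, MvPowerSeries.monomial (a i) (κ i) + H) =
        -(H - (c0 : MvPowerSeries (Fin m) ℂ)) +
          ∑ j, MvPowerSeries.monomial (Finsupp.single j D0) (lam j) := by ring
    rw [h5, map_add, map_neg, map_sum]
    have h6 : MvPowerSeries.coeff ρ (H - (c0 : MvPowerSeries (Fin m) ℂ)) = 0 := by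
      by_contra h7
      exact absurd (hc0 ρ h7) (not_le.2 hlt)
    rw [h6, neg_zero, zero_add]
    refine Finset.sum_eq_zero fun j _ => ?_
    rw [MvPowerSeries.coeff_monomial, if_neg]
    intro h8
    rw [h8, Finsupp.degree_single] at hlt
    exact absurd hlt (lt_irrefl _)

end Pool.Agent.H22.T7
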