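import Pool.Agent.H22.T7.TDefs
import Pool.Agent.H56.SMC.MREL
import Pool.Agent.H56.T5.BFBL

/-!
# INT: interpolation in `s`

Proof.  `R = ρ + 2`, `dd = d + R + natDegree b`, `R' = R + dd`, `E = F1^dd Φ`, `Φ` the difference of
both sides of the identity with exponent `R`. The coefficients of `E` are polynomials in `S` of
degree `≤ dd`; those of exponents of degree `< L` vanish at the numbers `R - 1 + t`, `t ≤ dd`.
-/

set_option autoImplicit false

namespace Pool.Agent.H22.T7

open Finset AddMonoidAlgebra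
open Pool.Agent.H56.SMC Pool.Agent.H37.T5 Pool.Agent.H56.T5

/-! ### Degrees in `S` -/

/-- All coefficients have degree at most `N` in `S`. -/
def IDG {m : ℕ} (N : ℕ) (z : LP (Polynomial ℂ) m) : Prop := ∀ u, (z.coeff u).natDegree ≤ N

theorem IDG_mono {m N N' : ℕ} {z : LP (Polynomial ℂ) m} (h : IDG N z) (hN : N ≤ N') : IDG N' z :=
  fun u => (h u).trans hN

theorem IDG_zero {m : ℕ} (N : ℕ) : IDG N (0 : LP (Polynomial ℂ) m) := by
  intro u; rw [coeff_zero', Polynomial.natDegree_zero]; exact Nat.zero_le _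

theorem IDG_add {m N : ℕ} {x y : LP (Polynomial ℂ) m} (hx : IDG N x) (hy : IDG N y) :
    IDG N (x + y) := by
  intro u; rw [coeff_add']; exact Polynomial.natDegree_add_le_of_degree_le (hx u) (hy u)

theorem IDG_sub {m N : ℕ} {x y : LP (Polynomial ℂ) m} (hx : IDG N x) (hy : IDG N y) :
    IDG N (x - y) := by
  intro u; rw [coeff_sub']
  exact (Polynomial.natDegree_sub_le_of_le (hx u) (hy u)).trans (max_self N).le

theorem IDG_sum {m N : ℕ} {α : Type*} (s : Finset α) (f : α → LP (Polynomial ℂ) m)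
    (h : ∀ i ∈ s, IDG N (f i)) : IDG N (∑ i ∈ s, f i) := by
  intro u; rw [coeff_finsum]
  exact Polynomial.natDegree_sum_le_of_forall_le _ _ fun i hi => h i hi u

theorem IDG_lp_sum {m : ℕ} (x : LP (Polynomial ℂ) m) :
    x = ∑ v ∈ x.coeff.support, single v (x.coeff v) := by
  apply lp_ext; intro u
  rw [coeff_finsum]
  simp only [coeff_single']
  rw [Finset.sum_ite_eq]
  split_ifs with h
  · rfl
  · exact Finsupp.notMem_support_iff.1 h

theorem IDG_mul {m N M : ℕ} {x y : LP (Polynomial ℂ) m} (hx : IDG N x) (hy : IDG M y) :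
    IDG (N + M) (x * y) := by
  rw [IDG_lp_sum x, sum_mul]
  refine IDG_sum _ _ fun v _ u => ?_
  rw [single_mul_coeff]
  exact Polynomial.natDegree_mul_le.trans (add_le_add (hx v) (hy _))

theorem IDG_one {m : ℕ} (N : ℕ) : IDG N (1 : LP (Polynomial ℂ) m) := by
  intro u
  rw [AddMonoidAlgebra.one_def, coeff_single']
  split_ifs
  · rw [Polynomial.natDegree_one]; exact Nat.zero_le _
  · rw [Polynomial.natDegree_zero]; exact Nat.zero_le _

theorem IDG_pow {m : ℕ} {x : LP (Polynomial ℂ) m} (hx : IDG 0 x) (k : ℕ) : IDG 0 (x ^ k) := by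
  induction k with
  | zero => rw [pow_zero]; exact IDG_one 0
  | succ k ih => rw [pow_succ]; exact IDG_mul ih hx

theorem IDG_smul {m N M : ℕ} {x : LP (Polynomial ℂ) m} (c : Polynomial ℂ) (hc : c.natDegree ≤ M)
    (hx : IDG N x) : IDG (M + N) (c • x) := by
  intro u
  rw [coeff_smul']
  exact Polynomial.natDegree_mul_le.trans (add_le_add hc (hx u))

theorem IDG_dL {m N : ℕ} (j : Fin m) {x : LP (Polynomial ℂ) m} (hx : IDG N x) :
    IDG N (dL j x) := by
  intro u
  rw [bfb_dL_coeff]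
  have h : (((u j : Polynomial ℂ)) + 1).natDegree ≤ 0 := by
    have : ((u j : Polynomial ℂ)) + 1 = ((u j + 1 : ℤ) : Polynomial ℂ) := by push_cast; ring
    rw [this, Polynomial.natDegree_intCast]
  calc _ ≤ _ := Polynomial.natDegree_mul_le
    _ ≤ 0 + N := add_le_add h (hx _)
    _ = N := zero_add N

theorem IDG_GG {m : ℕ} {F : LP (Polynomial ℂ) m} (hF : IDG 0 F) (l : List (Fin m)) :
    IDG l.length (GG F Polynomial.X l) := by
  induction l with
  | nil => exact IDG_one 0
  | cons j l ih =>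
    have e4 : GG F Polynomial.X (j :: l) = F * dL j (GG F Polynomial.X l) +
      (Polynomial.X + 1 - (l.length : Polynomial ℂ)) • (GG F Polynomial.X l * dL j F) := rfl
    rw [e4, List.length_cons]
    refine IDG_add ?_ ?_
    · exact IDG_mono (IDG_mul hF (IDG_dL j ih)) (by omega)
    · have h1 : (Polynomial.X + 1 - (l.length : Polynomial ℂ)).natDegree ≤ 1 := by
        have : (Polynomial.X + 1 - (l.length : Polynomial ℂ)) =
            Polynomial.X + Polynomial.C (1 - (l.length : ℂ)) := by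
          rw [Polynomial.C_sub, Polynomial.C_1, Polynomial.C_eq_natCast]; ring
        rw [this]
        exact (Polynomial.natDegree_X_add_C _).le
      exact IDG_mono (IDG_smul _ h1 (IDG_mul ih (IDG_dL j hF))) (by omega)

/-! ### The coefficients of `toL` -/

theorem INT_prod_single {n : ℕ} {R : Type} [CommRing R] {α : Type} (s : Finset α)
    (f : α → Lat n) : ∏ j ∈ s, (single (f j) 1 : LP R n) = single (∑ j ∈ s, f j) 1 := by
  classical
  induction s using Finset.induction_on with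
  | empty => rfl
  | insert b s hb ih => rw [prod_insert hb, sum_insert hb, ih, single_mul_single, one_mul]

theorem INT_toL_monomial {n : ℕ} {R : Type} [CommRing R] (a : Fin n →₀ ℕ) (κ : R) :
    toL R (MvPolynomial.monomial a κ) = single (fun j => (a j : ℤ)) κ := by
  show MvPolynomial.aeval (fun j => (single (ev j) 1 : LP R n)) (MvPolynomial.monomial a κ) = _
  rw [MvPolynomial.aeval_monomial]
  have h1 : a.prod (fun i k => (single (ev i) 1 : LP R n) ^ k) =
      single (fun j => (a j : ℤ)) 1 := by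
    rw [Finsupp.prod_fintype _ _ (fun i => pow_zero _)]
    have h2 : ∀ i : Fin n, (single (ev i) 1 : LP R n) ^ (a i) = single ((a i) • ev i) 1 := by
      intro i
      rw [single_pow, one_pow]
    simp only [h2]
    rw [INT_prod_single]
    congr 1
    funext j
    rw [Finset.sum_apply]
    simp only [Pi.smul_apply, ev, Pi.single_apply]
    simp
  rw [h1]
  have h3 : (algebraMap R (LP R n)) κ = single 0 κ := rfl
  rw [h3, single_mul_single, zero_add, mul_one]

/-- The exponents of `toL p`. -/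
theorem INT_toL_coeff {n : ℕ} {R : Type} [CommRing R] (p : MvPolynomial (Fin n) R) (u : Lat n) :
    (toL R p).coeff u = if ∀ j, 0 ≤ u j then
      MvPolynomial.coeff (Finsupp.equivFunOnFinite.symm (fun j => (u j).toNat)) p else 0 := by
  classical
  induction p using MvPolynomial.induction_on' with
  | monomial a c =>
    rw [INT_toL_monomial, coeff_single', MvPolynomial.coeff_monomial]
    by_cases h : ∀ j, 0 ≤ u j
    · rw [if_pos h]
      congr 1
      apply propext
      constructor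
      · rintro rfl
        ext j; simp
      · intro h2
        funext j
        have h3 := DFunLike.congr_fun h2 j
        simp only [Finsupp.equivFunOnFinite_symm_apply_apply] at h3
        have := h j
        omega
    · rw [if_neg h, if_neg]
      rintro rfl
      exact h fun j => Int.natCast_nonneg _
  | add p q hp hq =>
    rw [map_add, coeff_add', hp, hq]
    split_ifs
    · rw [MvPolynomial.coeff_add]
    · rw [add_zero]

/-- All exponents are `≥ 0` and of degree `≥ L`. -/
def IHL {m : ℕ} (L : ℕ) (z : LP ℂ m) : Prop :=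
  ∀ u, z.coeff u ≠ 0 → (∀ j, 0 ≤ u j) ∧ (L : ℤ) ≤ ∑ j, u j

theorem IHL_toL {m L : ℕ} {p : MvPolynomial (Fin m) ℂ} (hp : HiP L p) : IHL L (toL ℂ p) := by
  intro u hu
  rw [INT_toL_coeff] at hu
  by_cases h : ∀ j, 0 ≤ u j
  · refine ⟨h, ?_⟩
    rw [if_pos h] at hu
    have h1 := hp _ hu
    rw [Finsupp.degree_eq_sum] at h1
    have h2 : ((∑ j, (Finsupp.equivFunOnFinite.symm (fun j => (u j).toNat)) j : ℕ) : ℤ) =
        ∑ j, u j := by
      push_cast
      refine sum_congr rfl fun j _ => ?_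
      rw [Finsupp.equivFunOnFinite_symm_apply_apply]
      exact Int.toNat_of_nonneg (h j)
    rw [← h2]
    exact_mod_cast h1
  · rw [if_neg h] at hu
    exact absurd rfl hu

theorem IHL_mul {m L : ℕ} {x y : LP ℂ m} (hx : Supp (Pos m) x) (hy : IHL L y) :
    IHL L (x * y) := by
  intro u hu
  obtain ⟨a, b, ha, hb, rfl⟩ := bfb_mul_coeff _ _ _ hu
  have h1 := hx a ha
  obtain ⟨h2, h3⟩ := hy b hb
  refine ⟨fun j => add_nonneg (h1 j) (h2 j), ?_⟩
  have h4 : ∑ j, (a + b) j = ∑ j, a j + ∑ j, b j := sum_add_distrib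
  rw [h4]
  have h5 : 0 ≤ ∑ j, a j := sum_nonneg fun j _ => h1 j
  omega

theorem INT_pos_one {m : ℕ} {A : Type} [CommRing A] : Supp (Pos m) (1 : LP A m) := by
  intro u hu j
  rw [AddMonoidAlgebra.one_def, coeff_single'] at hu
  by_cases h : u = 0
  · rw [h]; exact le_rfl
  · rw [if_neg h] at hu; exact absurd rfl hu

theorem INT_pos_pow {m : ℕ} {A : Type} [CommRing A] {x : LP A m} (hx : Supp (Pos m) x) (k : ℕ) :
    Supp (Pos m) (x ^ k) := by
  induction k with
  | zero => rw [pow_zero]; exact INT_pos_one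
  | succ k ih => rw [pow_succ]; exact pos_mul ih hx

theorem INT_pos_toL {m : ℕ} {A : Type} [CommRing A] (p : MvPolynomial (Fin m) A) :
    Supp (Pos m) (toL A p) := fun u hu => mrel_toL_nonneg p u hu

/-- The identity, with a remainder `E` all of whose exponents are `≥ 0` and of degree `≥ L`. -/
theorem int_L {m r : ℕ} (a : Fin r → (Fin m →₀ ℕ)) (κ : Fin r → ℂ)
    (b : Polynomial ℂ) (ρ d L : ℕ) (PW : H22.WeylS m)
    (hlen : ∀ β ∈ PW.support, (lst β).length ≤ ρ)
    (hdeg : ∀ β u, (MvPolynomial.coeff u (PW β)).natDegree < d)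
    (hfe : ∀ k : ℕ, HiP L (PW.act (k : ℂ) (fpoly a κ ^ (k + 1)) -
      MvPolynomial.C (b.eval (k : ℂ)) * fpoly a κ ^ k)) :
    ∃ E : LP (Polynomial ℂ) m,
      (∀ β ∈ PW.support, (lst β).length ≤ 2 * ρ + d + b.natDegree + 4) ∧
      AId a κ b (2 * ρ + d + b.natDegree + 4) PW E ∧
      ∀ u, E.coeff u ≠ 0 → (∀ j, 0 ≤ u j) ∧ (L : ℤ) ≤ ∑ j, u j := by
  classical
  set f := fpoly a κ with hf
  set F : LP ℂ m := toL ℂ f with hF
  set R : ℕ := ρ + 2 with hR
  have hle : ∀ β ∈ PW.support, (lst β).length + 2 ≤ R := by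
    intro β hβ
    have := hlen β hβ
    omega
  set dd : ℕ := d + R + b.natDegree with hdd
  set F' : LP (Polynomial ℂ) m := lmap Polynomial.C F with hF1
  have hFF : F1 a κ = F' := rfl
  set Φ : LP (Polynomial ℂ) m := ∑ β ∈ PW.support, toL (Polynomial ℂ) (PW β) *
      GG F' Polynomial.X (lst β) * F' ^ (R - (lst β).length) - b • F' ^ (R - 1) with hΦ
  have hmap : ∀ (A : Type) [CommRing A] (φ : Polynomial ℂ →+* A),
      lmap φ Φ = ∑ β ∈ PW.support, toL A (MvPolynomial.map φ (PW β)) *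
        GG (lmap (φ.comp Polynomial.C) F) (φ Polynomial.X) (lst β) *
          (lmap (φ.comp Polynomial.C) F) ^ (R - (lst β).length) -
        φ b • (lmap (φ.comp Polynomial.C) F) ^ (R - 1) := by
    intro A _ φ
    have h1 : lmap φ F' = lmap (φ.comp Polynomial.C) F := by
      apply lp_ext; intro u
      rw [hF1, lmap_coeff, lmap_coeff, lmap_coeff]
      rfl
    rw [hΦ, lmap_sub, lmap_sum, lmap_smul, bfa_lmap_pow, h1]
    congr 1
    refine sum_congr rfl fun β _ => ?_
    rw [bfa_lmap_mul, bfa_lmap_mul, bfa_lmap_pow, bfa_GG_lmap, bfa_toL_map, h1]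
  have e1 : ∀ k : ℂ, (Polynomial.evalRingHom k).comp Polynomial.C = RingHom.id ℂ := by
    intro k; ext x; simp
  have e2 : lmap (RingHom.id ℂ) F = F := by
    apply lp_ext; intro u; rfl
  have hact : ∀ k : ℕ, R ≤ k + 1 → F ^ (k + 1 - R) * lmap (Polynomial.evalRingHom (k : ℂ)) Φ =
      toL ℂ (PW.act (k : ℂ) (f ^ (k + 1)) - MvPolynomial.C (b.eval (k : ℂ)) * f ^ k) := by
    intro k hk
    rw [hmap, e1, e2]
    have e3 : Polynomial.evalRingHom (k : ℂ) Polynomial.X = (k : ℂ) := by simp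
    have e4 : Polynomial.evalRingHom (k : ℂ) b = b.eval (k : ℂ) := rfl
    rw [e3, e4, mul_sub, map_sub, mul_sum]
    have h3 : toL ℂ (MvPolynomial.C (b.eval (k : ℂ)) * f ^ k) =
        F ^ (k + 1 - R) * (b.eval (k : ℂ) • F ^ (R - 1)) := by
      rw [map_mul, map_pow, bfa_toL_C, ← hF, mul_smul_comm, ← pow_add,
        show k + 1 - R + (R - 1) = k by omega]
      apply lp_ext; intro u
      rw [single_mul_coeff, coeff_smul', sub_zero]
    rw [h3]
    congr 1
    unfold H22.WeylS.act
    rw [Finsupp.sum, map_sum]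
    refine sum_congr rfl fun β hβ => ?_
    have hb := hle β hβ
    rw [map_mul, bfa_toL_diffPow, map_pow, ← hF, bfa_claim1 F k (lst β) (by omega)]
    have h5 : F ^ (k + 1 - (lst β).length) =
        F ^ (k + 1 - R) * F ^ (R - (lst β).length) := by
      rw [← pow_add]; congr 1; omega
    rw [h5]
    ring
  -- supports
  have hposF : Supp (Pos m) F := INT_pos_toL f
  have hposF' : Supp (Pos m) F' := hposF.lmap _
  set E : LP (Polynomial ℂ) m := F' ^ dd * Φ with hE
  have hposE : Supp (Pos m) E := by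
    refine pos_mul (INT_pos_pow hposF' _) (BFBL_sub (Supp.sum _ fun β _ => ?_)
      (BFBL_smul _ (INT_pos_pow hposF' _)))
    exact pos_mul (pos_mul (INT_pos_toL _) (pos_GG _ hposF' _ _)) (INT_pos_pow hposF' _)
  -- degrees
  have hF0 : IDG 0 F' := by
    intro u
    rw [hF1, lmap_coeff]
    exact (Polynomial.natDegree_C _).le
  have htoL : ∀ β, IDG d (toL (Polynomial ℂ) (PW β)) := by
    intro β u
    rw [INT_toL_coeff]
    split_ifs
    · exact (hdeg β _).le
    · rw [Polynomial.natDegree_zero]; exact Nat.zero_le _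
  have hdegE : IDG dd E := by
    have h1 : IDG dd Φ := by
      refine IDG_sub (IDG_sum _ _ fun β hβ => ?_) ?_
      · refine IDG_mono (IDG_mul (IDG_mul (htoL β) (IDG_GG hF0 _)) (IDG_pow hF0 _)) ?_
        have := hle β hβ
        omega
      · exact IDG_mono (IDG_smul b le_rfl (IDG_pow hF0 _)) (by omega)
    exact IDG_mono (IDG_mul (IDG_pow hF0 _) h1) (by omega)
  -- vanishing of the coefficients of low degree
  have hlow : ∀ u, E.coeff u ≠ 0 → (L : ℤ) ≤ ∑ j, u j := by
    intro u hu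
    by_contra hcon
    apply hu
    refine Polynomial.eq_zero_of_natDegree_lt_card_of_eval_eq_zero (E.coeff u)
      (f := fun t : Fin (dd + 1) => ((R - 1 + (t : ℕ) : ℕ) : ℂ)) ?_ ?_ ?_
    · intro x y hxy
      have : (R - 1 + (x : ℕ) : ℕ) = R - 1 + (y : ℕ) := Nat.cast_injective (R := ℂ) hxy
      apply Fin.ext
      omega
    · intro t
      set k : ℕ := R - 1 + (t : ℕ) with hk
      have ht := t.2
      have h1 : (lmap (Polynomial.evalRingHom (k : ℂ)) E).coeff u = (E.coeff u).eval (k : ℂ) := by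
        rw [lmap_coeff]; rfl
      have h2 : lmap (Polynomial.evalRingHom (k : ℂ)) E =
          F ^ (dd - (t : ℕ)) * toL ℂ (PW.act (k : ℂ) (f ^ (k + 1)) -
            MvPolynomial.C (b.eval (k : ℂ)) * f ^ k) := by
        rw [← hact k (by omega), hE, bfa_lmap_mul, bfa_lmap_pow, hF1, ← mul_assoc, ← pow_add,
          show dd - (t : ℕ) + (k + 1 - R) = dd by omega]
        congr 2
        apply lp_ext; intro u
        rw [lmap_coeff, lmap_coeff]
        simp
      have h3 : IHL L (lmap (Polynomial.evalRingHom (k : ℂ)) E) := by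
        rw [h2]
        exact IHL_mul (INT_pos_pow hposF _) (IHL_toL (hfe k))
      by_contra h4
      rw [← h1] at h4
      exact hcon (h3 u h4).2
    · rw [Fintype.card_fin]
      have := hdegE u
      omega
  have hRd : 2 * ρ + d + b.natDegree + 4 = R + dd := by omega
  rw [hRd]
  refine ⟨E, fun β hβ => by have := hle β hβ; omega, ?_, fun u hu => ⟨hposE u hu, hlow u hu⟩⟩
  · -- the identity
    unfold AId
    rw [hFF]
    have h1 : b • F' ^ (R + dd - 1) = F' ^ dd * (b • F' ^ (R - 1)) := by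
      rw [mul_smul_comm, ← pow_add]
      congr 2
      omega
    rw [h1, hE, ← mul_add, hΦ, add_sub_cancel, mul_sum]
    refine sum_congr rfl fun β hβ => ?_
    have h2 : F' ^ (R + dd - (lst β).length) = F' ^ dd * F' ^ (R - (lst β).length) := by
      rw [← pow_add]
      congr 1
      have := hle β hβ
      omega
    rw [h2]
    ring

/-- INT -/
theorem int_afe {m r : ℕ} (hm : 0 < m) (a : Fin r → (Fin m →₀ ℕ)) (κ : Fin r → ℂ)
    (b : Polynomial ℂ) (ρ d L K : ℕ) (hK : ∀ (v : Fin m → ℕ) (j : Fin m), H22.wmin a v ≤ K * v j)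
    (hL : m * ((2 * ρ + d + b.natDegree + 3) * K + 1) ≤ L) (PW : H22.WeylS m)
    (hlen : ∀ β ∈ PW.support, (lst β).length ≤ ρ)
    (hdeg : ∀ β u, (MvPolynomial.coeff u (PW β)).natDegree < d)
    (hfe : ∀ k : ℕ, HiP L (PW.act (k : ℂ) (fpoly a κ ^ (k + 1)) -
      MvPolynomial.C (b.eval (k : ℂ)) * fpoly a κ ^ k)) : AFE a κ b := by
  classical
  obtain ⟨E, hl, hid, hE⟩ := int_L a κ b ρ d L PW hlen hdeg hfe
  refine ⟨2 * ρ + d + b.natDegree + 4, PW, E, by omega, hl, hid, ?_⟩
  intro u hu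
  obtain ⟨hu0, h1⟩ := hE u hu
  refine ⟨hu0, fun v => ?_⟩
  set n0 : ℕ := 2 * ρ + d + b.natDegree + 3 with hn0
  -- a large coordinate
  obtain ⟨j, hj⟩ : ∃ j, ((n0 * K + 1 : ℕ) : ℤ) ≤ u j := by
    by_contra hcon
    push Not at hcon
    have h2 : ∑ j, u j ≤ ∑ _j : Fin m, ((n0 * K : ℕ) : ℤ) := by
      refine sum_le_sum fun j _ => ?_
      have := hcon j
      push_cast at this ⊢
      omega
    rw [sum_const, card_univ, Fintype.card_fin, nsmul_eq_mul] at h2
    have h4 : (((m * (n0 * K + 1) : ℕ)) : ℤ) ≤ (m : ℤ) * ((n0 * K : ℕ) : ℤ) :=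
      (Int.ofNat_le.2 hL).trans (h1.trans h2)
    have h5 : m * (n0 * K + 1) ≤ m * (n0 * K) := by exact_mod_cast h4
    have := Nat.le_of_mul_le_mul_left h5 hm
    omega
  have h6 : u j * (v j : ℤ) ≤ ∑ i, u i * (v i : ℤ) :=
    single_le_sum (f := fun i => u i * (v i : ℤ))
      (fun i _ => mul_nonneg (hu0 i) (Int.natCast_nonneg _)) (mem_univ j)
  have h7 : ((n0 * K + 1 : ℕ) : ℤ) * (v j : ℤ) ≤ u j * (v j : ℤ) :=
    mul_le_mul_of_nonneg_right hj (Int.natCast_nonneg _)
  have h10 : (((2 * ρ + d + b.natDegree + 4 : ℕ) : ℤ) - 1) = (n0 : ℤ) := by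
    rw [hn0]; push_cast; ring
  rw [h10]
  have h8 : (n0 : ℤ) * (H22.wmin a v : ℤ) ≤ (n0 : ℤ) * ((K * v j : ℕ) : ℤ) :=
    mul_le_mul_of_nonneg_left (Int.ofNat_le.2 (hK v j)) (Int.natCast_nonneg _)
  have h9 : ((n0 * K + 1 : ℕ) : ℤ) * (v j : ℤ) = (n0 : ℤ) * ((K * v j : ℕ) : ℤ) + (v j : ℤ) := by
    push_cast
    ring
  constructor
  · have := Int.natCast_nonneg (v j)
    omega
  · intro hv
    have := hv j
    omega

end Pool.Agent.H22.T7
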