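import Pool.Agent.H22.T7.Defs
import Pool.Agent.H22.T6.Defs

/-!
# T7: auxiliary definitions

`Diff R` = the algebra of differential operators generated by the multiplications and the
derivations; `PF R` = the polynomial families `c ↦ B c` of differential operators; `FEqV R G V b` =
the functional equation `B(k) G^{k+1} = b(k) V G^k`; `Hi L h` = all exponents of `h` have degree
`≥ L`; `WN σ ρ` = the operators `∑ c_l ∂_l` with polynomials `c_l` and lists `l` of length `≤ ρ`;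
`AFE` = the functional equation up to a remainder with large exponents.
-/

set_option autoImplicit false

namespace Pool.Agent.H22.T7

open Finset AddMonoidAlgebra
open Pool.Agent.H56.SMC Pool.Agent.H37.T5 Pool.Agent.H56.T5 Pool.Agent.H37.T6

/-- The algebra generated by the multiplications and the derivations. -/
def Diff (R : Type) [CommRing R] [Algebra ℂ R] : Subalgebra ℂ (Module.End ℂ R) :=
  Algebra.adjoin ℂ ({D | ∃ a : R, D = LinearMap.mulLeft ℂ a} ∪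
    {D | ∃ δ : Derivation ℂ R R, D = δ.toLinearMap})

/-- Polynomial families of differential operators. -/
def PF (R : Type) [CommRing R] [Algebra ℂ R] : Subalgebra ℂ (ℂ → Module.End ℂ R) :=
  Algebra.adjoin ℂ ({B | B = fun c => c • (1 : Module.End ℂ R)} ∪
    {B | ∃ D ∈ Diff R, B = fun _ => D})

/-- `B(k) G^{k+1} = b(k) V G^k` for all `k ∈ ℕ`. -/
def FEqV (R : Type) [CommRing R] [Algebra ℂ R] (G V : R) (b : Polynomial ℂ) : Prop :=
  ∃ B ∈ PF R, ∀ k : ℕ, B (k : ℂ) (G ^ (k + 1)) = b.eval (k : ℂ) • (V * G ^ k)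

/-- `B(k) G^{k+1} = b(k) G^k` for all `k ∈ ℕ`. -/
def FEq (R : Type) [CommRing R] [Algebra ℂ R] (G : R) (b : Polynomial ℂ) : Prop :=
  FEqV R G 1 b

/-- All exponents of `h` have degree `≥ L`. -/
def Hi {σ : Type} (L : ℕ) (h : MvPowerSeries σ ℂ) : Prop :=
  ∀ ρ, MvPowerSeries.coeff ρ h ≠ 0 → L ≤ ρ.degree

/-- All exponents of the polynomial `h` have degree `≥ L`. -/
def HiP {σ : Type} (L : ℕ) (h : MvPolynomial σ ℂ) : Prop :=
  ∀ ρ, MvPolynomial.coeff ρ h ≠ 0 → L ≤ ρ.degree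

/-- `∂_{j_1} ⋯ ∂_{j_l}`. -/
noncomputable def dl {σ : Type} (l : List σ) : Module.End ℂ (MvPowerSeries σ ℂ) :=
  (l.map fun j => ((MvPowerSeries.pderiv ℂ j :
    Derivation ℂ (MvPowerSeries σ ℂ) (MvPowerSeries σ ℂ)).toLinearMap)).prod

/-- The operators `∑ c_l ∂_l`, `c_l` polynomials, `l` lists of length `≤ ρ`. -/
def WN (σ : Type) (ρ : ℕ) : Submodule ℂ (Module.End ℂ (MvPowerSeries σ ℂ)) :=
  Submodule.span ℂ {D | ∃ (c : MvPolynomial σ ℂ) (l : List σ), l.length ≤ ρ ∧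
    D = LinearMap.mulLeft ℂ (c : MvPowerSeries σ ℂ) * dl l}

/-- The quadratic form `∑ u_k v_k`. -/
noncomputable def QQ (e : ℕ) : MvPowerSeries (Fin e ⊕ Fin e) ℂ :=
  ∑ k, MvPowerSeries.X (Sum.inl k) * MvPowerSeries.X (Sum.inr k)

/-- The exponents `ρ` of the remainder `E`: `ρ ≥ 0` and `ρ·v ≥ (R-1) N(v)` for all `v ≥ 0`, with
strict inequality if `v > 0`. -/
def EPos {n r : ℕ} (a : Fin r → (Fin n →₀ ℕ)) (R : ℕ) (E : LP (Polynomial ℂ) n) : Prop :=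
  ∀ ρ, E.coeff ρ ≠ 0 → (∀ j, 0 ≤ ρ j) ∧ ∀ v : Fin n → ℕ,
    ((R : ℤ) - 1) * (H22.wmin a v : ℤ) ≤ ∑ j, ρ j * (v j : ℤ) ∧
    ((∀ j, 0 < v j) → ((R : ℤ) - 1) * (H22.wmin a v : ℤ) < ∑ j, ρ j * (v j : ℤ))

/-- `f` with coefficients in `ℂ[S]`. -/
noncomputable def F1 {n r : ℕ} (a : Fin r → (Fin n →₀ ℕ)) (κ : Fin r → ℂ) :
    LP (Polynomial ℂ) n := lmap Polynomial.C (toL ℂ (fpoly a κ))

/-- The identity `∑_β p_β GG_β f^{R-|β|} = b f^{R-1} + E`. -/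
def AId {n r : ℕ} (a : Fin r → (Fin n →₀ ℕ)) (κ : Fin r → ℂ) (b : Polynomial ℂ) (R : ℕ)
    (PW : H22.WeylS n) (E : LP (Polynomial ℂ) n) : Prop :=
  ∑ β ∈ PW.support, toL (Polynomial ℂ) (PW β) * GG (F1 a κ) Polynomial.X (lst β) *
      (F1 a κ) ^ (R - (lst β).length) = b • (F1 a κ) ^ (R - 1) + E

/-- The functional equation up to a remainder with large exponents. -/
def AFE {n r : ℕ} (a : Fin r → (Fin n →₀ ℕ)) (κ : Fin r → ℂ) (b : Polynomial ℂ) : Prop :=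
  ∃ (R : ℕ) (PW : H22.WeylS n) (E : LP (Polynomial ℂ) n), 0 < R ∧
    (∀ β ∈ PW.support, (lst β).length ≤ R) ∧ AId a κ b R PW E ∧ EPos a R E

/-- The functional equation up to a remainder with large exponents, for the weight vector `w`. -/
def AFEw {n r : ℕ} (a : Fin r → (Fin n →₀ ℕ)) (κ : Fin r → ℂ) (b : Polynomial ℂ)
    (w : Fin n → ℕ) : Prop :=
  ∃ (R : ℕ) (PW : H22.WeylS n) (E : LP (Polynomial ℂ) n), 0 < R ∧
    (∀ β ∈ PW.support, (lst β).length ≤ R) ∧ AId a κ b R PW E ∧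
    ∀ ρ, E.coeff ρ ≠ 0 → (∀ j, 0 ≤ ρ j) ∧
      (∀ v : Fin n → ℕ, ((R : ℤ) - 1) * (H22.wmin a v : ℤ) ≤ ∑ j, ρ j * (v j : ℤ)) ∧
      ((R : ℤ) - 1) * (H22.wmin a w : ℤ) < ∑ j, ρ j * (w j : ℤ)

theorem AFE.w {n r : ℕ} {a : Fin r → (Fin n →₀ ℕ)} {κ : Fin r → ℂ} {b : Polynomial ℂ}
    (h : AFE a κ b) (w : Fin n → ℕ) (hw : ∀ j, 0 < w j) : AFEw a κ b w := by
  obtain ⟨R, PW, E, h1, h2, h3, h4⟩ := h
  exact ⟨R, PW, E, h1, h2, h3, fun ρ hρ => ⟨(h4 ρ hρ).1, fun v => ((h4 ρ hρ).2 v).1,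
    ((h4 ρ hρ).2 w).2 hw⟩⟩

/-- The hypothesis of the zeta side, for weight vectors with positive entries. -/
def HYpos {n r : ℕ} (a : Fin r → (Fin n →₀ ℕ)) (s0 : ℂ) : Prop :=
  ∀ (w : Fin n → ℕ) (Yb : Finset (Fin r)) (Yj : Finset (Fin n)), (∀ j, 0 < w j) →
    YD a w Yb Yj → s0 = -(H22.wsum w : ℂ) / (H22.wmin a w : ℂ) → UY a Yb Yj

/-- Every coordinate axis contains an exponent. -/
def Conv {n r : ℕ} (a : Fin r → (Fin n →₀ ℕ)) : Prop :=
  ∀ j, ∃ i k, a i = Finsupp.single j k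

/-- `a'` consists of the exponents `a` and of exponents above the compact faces of `a`. -/
def Above {n r r' : ℕ} (a : Fin r → (Fin n →₀ ℕ)) (a' : Fin r' → (Fin n →₀ ℕ))
    (η : Fin r ↪ Fin r') : Prop :=
  (∀ i, a' (η i) = a i) ∧ ∀ t, t ∉ Set.range η → ∀ w : Fin n → ℕ, (∀ j, 0 < w j) →
    H22.wmin a w < ∑ j, a' t j * w j

end Pool.Agent.H22.T7
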