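import Pool.Agent.H56.T5.JFL
import Pool.Agent.H22.T7.TDefs

/-!
# JFX: the formal integrals, with a second formula

COPY `jfL` (`Pool/Agent/H56/T5/JFL.lean`) with all its auxiliary lemmas available by import; the only change is the additional last conclusion.

Proof.  In the proof of `jfL`, `I i m = JF_I _ ρ σ i m` with `ρ 0 = 1`, `ρ i = ρ (i-1) (-s - i)` in `KA`, `s = C s0 + X`, `σ 0 = 1`.
`I (-R) 0 g = mk ((ρ (-R) * jK (C (σ 0))) • JF_emb R 0 (lmap jK g))` (definition of `JF_I`, `JF_L`).  Claim: for every `R : ℕ` there is `ρ1 : PA` with `ρ (-R) = jK ρ1`.  Induction: `R = 0`: `ρ1 = 1`.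
`ρ (-R) = ρ (-R-1) (-s + R)` and `-s + R = -(C s0 + X) + R` is a unit of `PA` (constant coefficient `R - s0 ≠ 0` by `hs0`; `PowerSeries.isUnit_iff_constantCoeff`), so
`ρ (-(R+1)) = jK (ρ1 * (unit)⁻¹)`.  Then, as in the last part of the proof of `jfL` (`g` by induction: zero, add, single),
`jK ρ1 • JF_emb R 0 (lmap jK g) = lmap jK (ρ1 • JF_emb R 0 g)`.
-/

set_option autoImplicit false

namespace Pool.Agent.H22.T7

open Finset AddMonoidAlgebra
open Pool.Agent.H56.SMC Pool.Agent.H37.T5 Pool.Agent.H56.T5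

/-- JFX -/
theorem jfX {n r : ℕ} {ϑ : Type} [Fintype ϑ] (a : Fin r → (Fin n →₀ ℕ)) (κ : Fin r → ℂ)
    (bb : ϑ → Lat n) (hbb : ∀ k j, 0 ≤ bb k j) (lam : ϑ → ℂ) (s0 t0 : ℂ)
    (ht0 : ∀ m : ℤ, t0 ≠ (m : ℂ)) (hs0 : ∀ k : ℕ, s0 ≠ (k : ℂ)) :
    ∃ I : ℤ → ℤ → LP PA n →ₗ[PA] (LP KA (n + 2) ⧸ exLS
        (fun j => jK (pp (PowerSeries.C s0 + PowerSeries.X) (PowerSeries.C t0) j)) (cA a bb)
        (fun i => jK (PowerSeries.C (cC κ lam i))) ev (sh univ) Set.univ),
      (∀ i m g, Supp (Pos n) g →
        I i m g = I (i - 1) m (lmap (algebraMap ℂ PA) (toL ℂ (fpoly a κ)) * g)) ∧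
      (∀ i m g, Supp (Pos n) g →
        I i m g = I i (m - 1) (lmap (algebraMap ℂ PA) (Hl bb lam) * g)) ∧
      (∀ i m j g, Supp (Pos n) g → I i m (dL j g) +
        ((PowerSeries.C s0 + PowerSeries.X) + (i : PA)) •
          I (i - 1) m (dL j (lmap (algebraMap ℂ PA) (toL ℂ (fpoly a κ))) * g) +
        (PowerSeries.C t0 + (m : PA)) •
          I i (m - 1) (dL j (lmap (algebraMap ℂ PA) (Hl bb lam)) * g) = 0) ∧
      I 0 0 1 = Submodule.Quotient.mk (single 0 1) ∧
      (∀ R : ℕ, ∃ ρ : ℂ, ∀ g, I 0 (-(R : ℤ)) g =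
        Submodule.Quotient.mk (lmap jK (PowerSeries.C ρ • emb (R : ℤ) g))) ∧
      ∀ R : ℕ, ∃ ρ1 : PA, ∀ g, I (-(R : ℤ)) 0 g =
        Submodule.Quotient.mk (lmap jK (ρ1 • JF_emb (R : ℤ) 0 g)) := by
  have hD : ∀ i : ℤ, -jK (PowerSeries.C s0 + PowerSeries.X) - (i : KA) ≠ 0 := by
    intro i h
    have h1 : jK (-(PowerSeries.C s0 + PowerSeries.X) - (i : PA)) = 0 := by
      rw [map_sub, map_neg, map_intCast]; exact h
    have h2 : (-(PowerSeries.C s0 + PowerSeries.X) - (i : PA)) = 0 :=
      (IsFractionRing.injective PA KA) (by rw [map_zero]; exact h1)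
    have h3 := congrArg (PowerSeries.coeff 1) h2
    have h4 : ((i : ℤ) : PA) = PowerSeries.C (i : ℂ) := by simp
    rw [h4, map_sub, map_neg, map_add, PowerSeries.coeff_C, PowerSeries.coeff_one_X,
      PowerSeries.coeff_C, map_zero, if_neg one_ne_zero, if_neg one_ne_zero] at h3
    norm_num at h3
  have hE : ∀ m : ℤ, -t0 - (m : ℂ) ≠ 0 := by
    intro m h
    apply ht0 (-m)
    push_cast
    linear_combination -h
  obtain ⟨ρ, hρ0, hρ⟩ := JF_rec _ hD
  obtain ⟨σ, hσ0, hσ⟩ := JF_rec _ hE
  have hσ' : ∀ m, jK (PowerSeries.C (σ m)) = jK (PowerSeries.C (σ (m - 1))) *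
      (-jK (PowerSeries.C t0) - (m : KA)) := by
    intro m
    rw [hσ m]
    simp only [map_mul, map_sub, map_neg, map_intCast]
  refine ⟨fun i m => JF_I _ ρ σ i m, ?_, ?_, ?_, ?_, ?_, ?_⟩
  · intro i m g hg
    refine JFL_ind (M := fun g => JF_I (JFL_S a κ bb lam s0 t0) ρ σ i m g =
      JF_I (JFL_S a κ bb lam s0 t0) ρ σ (i - 1) m
        (lmap (algebraMap ℂ PA) (toL ℂ (fpoly a κ)) * g)) ?_ ?_ ?_ hg
    · simp only [mul_zero, map_zero]
    · intro x y hx hy
      rw [mul_add, map_add, map_add, hx, hy]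
    · intro q hq x
      rw [JF_I_single, JF_mapf, sum_mul, map_sum]
      have h := JFL_D0 a κ bb lam s0 t0 (-i) (-m) q hq (ρ (i - 1) * jK (PowerSeries.C (σ m)) * jK x)
      have e1 : (-jK (PowerSeries.C s0 + PowerSeries.X) + ((-i : ℤ) : KA)) *
          (ρ (i - 1) * jK (PowerSeries.C (σ m)) * jK x) =
          ρ i * jK (PowerSeries.C (σ m)) * jK x := by
        rw [hρ i]; push_cast; ring
      rw [e1] at h
      rw [h]
      refine sum_congr rfl fun k _ => ?_
      rw [single_mul_single, JF_I_single]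
      congr 2
      · congr 1
        · ring
        · rw [add_comm]
      · rw [map_mul]; ring
  · intro i m g hg
    refine JFL_ind (M := fun g => JF_I (JFL_S a κ bb lam s0 t0) ρ σ i m g =
      JF_I (JFL_S a κ bb lam s0 t0) ρ σ i (m - 1)
        (lmap (algebraMap ℂ PA) (Hl bb lam) * g)) ?_ ?_ ?_ hg
    · simp only [mul_zero, map_zero]
    · intro x y hx hy
      rw [mul_add, map_add, map_add, hx, hy]
    · intro q hq x
      rw [JF_I_single, JF_mapH, sum_mul, map_sum]
      have h := JFL_D1 a κ bb lam s0 t0 (-i) (-m) q hq (ρ i * jK (PowerSeries.C (σ (m - 1))) * jK x)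
      have e1 : (-jK (PowerSeries.C t0) + ((-m : ℤ) : KA)) *
          (ρ i * jK (PowerSeries.C (σ (m - 1))) * jK x) =
          ρ i * jK (PowerSeries.C (σ m)) * jK x := by
        rw [hσ' m]; push_cast; ring
      rw [e1] at h
      rw [h]
      refine sum_congr rfl fun k _ => ?_
      rw [single_mul_single, JF_I_single]
      congr 2
      · congr 1
        · ring
        · rw [add_comm]
      · rw [map_mul]; ring
  · intro i m j g hg
    refine JFL_ind (M := fun g => JF_I (JFL_S a κ bb lam s0 t0) ρ σ i m (dL j g) +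
        ((PowerSeries.C s0 + PowerSeries.X) + (i : PA)) •
          JF_I (JFL_S a κ bb lam s0 t0) ρ σ (i - 1) m
            (dL j (lmap (algebraMap ℂ PA) (toL ℂ (fpoly a κ))) * g) +
        (PowerSeries.C t0 + (m : PA)) •
          JF_I (JFL_S a κ bb lam s0 t0) ρ σ i (m - 1)
            (dL j (lmap (algebraMap ℂ PA) (Hl bb lam)) * g) = 0) ?_ ?_ ?_ hg
    · simp only [JF_dL_zero, mul_zero, map_zero, smul_zero, add_zero]
    · intro x y hx hy
      rw [JF_dL_add, mul_add, mul_add, map_add, map_add, map_add, smul_add, smul_add]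
      calc _ = _ + _ := by abel
        _ = 0 + 0 := congrArg₂ (· + ·) hx hy
        _ = 0 := add_zero 0
    · intro q hq x
      rw [JF_mapf, JF_mapH, JF_dL_sum, JF_dL_sum, sum_mul, sum_mul, map_sum, map_sum, smul_sum,
        smul_sum]
      have h := JFL_D2 a κ bb lam s0 t0 (-i) (-m) (-ev j + q) j
        (JFL_mem _ _ q hq j)
        (ρ i * jK (PowerSeries.C (σ m)) * jK x)
      have e0 : ((-ev j + q : Lat n) j : ℤ) = -1 + q j := by
        simp [ev]
      have e1 : (1 + (((-ev j + q : Lat n) j : ℤ) : KA)) *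
          (ρ i * jK (PowerSeries.C (σ m)) * jK x) =
          ρ i * jK (PowerSeries.C (σ m)) * jK ((q j : PA) * x) := by
        rw [e0, map_mul, map_intCast]; push_cast; ring
      rw [e1] at h
      rw [JF_dL_single, JF_I_single, h]
      have f1 : ∀ k : Fin r, ((PowerSeries.C s0 + PowerSeries.X) + (i : PA)) •
          JF_I (JFL_S a κ bb lam s0 t0) ρ σ (i - 1) m
            (dL j (single (fun j => (a k j : ℤ)) (PowerSeries.C (κ k))) * single q x) =
          -(JFL_S a κ bb lam s0 t0).mkQ (single (vec (-i + 1) (-m)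
            ((-ev j + q) + fun j => (a k j : ℤ)))
            (jK (PowerSeries.C (κ k)) * (a k j : KA) *
              (ρ i * jK (PowerSeries.C (σ m)) * jK x))) := by
        intro k
        rw [JF_dL_single, single_mul_single, ← map_smul, JF_smul_single, JF_I_single, ← map_neg]
        congr 1
        rw [← AddMonoidAlgebra.single_neg]
        congr 1
        · congr 1
          · ring
          · abel
        · rw [hρ i]
          simp only [map_mul, map_add, map_intCast]
          push_cast
          ring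
      have f2 : ∀ k : ϑ, (PowerSeries.C t0 + (m : PA)) •
          JF_I (JFL_S a κ bb lam s0 t0) ρ σ i (m - 1)
            (dL j (single (bb k) (PowerSeries.C (lam k))) * single q x) =
          -(JFL_S a κ bb lam s0 t0).mkQ (single (vec (-i) (-m + 1) ((-ev j + q) + bb k))
            (jK (PowerSeries.C (lam k)) * (bb k j : KA) *
              (ρ i * jK (PowerSeries.C (σ m)) * jK x))) := by
        intro k
        rw [JF_dL_single, single_mul_single, ← map_smul, JF_smul_single, JF_I_single, ← map_neg]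
        congr 1
        rw [← AddMonoidAlgebra.single_neg]
        congr 1
        · congr 1
          · ring
          · abel
        · rw [hσ' m]
          simp only [map_mul, map_add, map_intCast]
          ring
      rw [sum_congr rfl (fun k _ => f1 k), sum_congr rfl (fun k _ => f2 k), sum_neg_distrib,
        sum_neg_distrib]
      abel
  · have h1 : (1 : LP PA n) = single 0 1 := rfl
    rw [h1, JF_I_single, hρ0, hσ0]
    simp only [map_one, mul_one, neg_zero]
    have h2 : (vec 0 0 (0 : Lat n) : Lat (n + 2)) = 0 := by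
      funext k
      refine Fin.cases rfl (fun k => Fin.cases rfl (fun k => rfl) k) k
    rw [h2]
    rfl
  · intro R
    refine ⟨σ (-(R : ℤ)), ?_⟩
    intro g
    show Submodule.Quotient.mk ((ρ 0 * jK (PowerSeries.C (σ (-(R : ℤ))))) •
      JF_emb (-0) (- -(R : ℤ)) (lmap jK g)) = _
    rw [hρ0, one_mul, neg_zero, neg_neg, lmap_smul]
    congr 2
    induction g using AddMonoidAlgebra.induction_linear with
    | zero =>
      have z1 : lmap jK (0 : LP PA n) = 0 := by
        apply lp_ext; intro u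
        rw [lmap_coeff, coeff_zero', coeff_zero', map_zero]
      have z2 : emb (R : ℤ) (0 : LP PA n) = 0 := JF_emb_zero 0 (R : ℤ)
      have z3 : lmap jK (0 : LP PA (n + 2)) = 0 := by
        apply lp_ext; intro u
        rw [lmap_coeff, coeff_zero', coeff_zero', map_zero]
      rw [z1, z2, z3, JF_emb_zero]
    | add x y hx hy =>
      rw [lmap_add, JF_emb_add, hx, hy, ← lmap_add]
      congr 1
      exact (JF_emb_add (0 : ℤ) (R : ℤ) x y).symm
    | single q x =>
      rw [JF_lmap_single, JF_emb_single]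
      have h1 : emb (R : ℤ) (single q x : LP PA n) = single (vec 0 (R : ℤ) q) x :=
        JF_emb_single (0 : ℤ) (R : ℤ) q x
      rw [h1, JF_lmap_single]
  · have hρn : ∀ R : ℕ, ∃ ρ1 : PA, ρ (-(R : ℤ)) = jK ρ1 := by
      intro R
      induction R with
      | zero => exact ⟨1, by simp [hρ0]⟩
      | succ R ih =>
        obtain ⟨ρ1, h1⟩ := ih
        have hu : IsUnit (-(PowerSeries.C s0 + PowerSeries.X) + (R : PA)) := by
          rw [PowerSeries.isUnit_iff_constantCoeff]
          have e1 : PowerSeries.constantCoeff (-(PowerSeries.C s0 + PowerSeries.X) + (R : PA)) =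
              -s0 + R := by
            simp
          rw [e1, isUnit_iff_ne_zero]
          intro h0
          exact hs0 R (by linear_combination -h0)
        obtain ⟨v, hv⟩ := hu
        have h2 := hρ (-(R : ℤ))
        have e2 : -jK (PowerSeries.C s0 + PowerSeries.X) - ((-(R : ℤ) : ℤ) : KA) = jK (v : PA) := by
          rw [hv]
          simp only [map_add, map_neg, map_natCast]
          push_cast
          ring
        have e3 : -(R : ℤ) - 1 = -((R + 1 : ℕ) : ℤ) := by push_cast; ring
        rw [e2, e3, h1] at h2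
        refine ⟨ρ1 * ((v⁻¹ : PAˣ) : PA), ?_⟩
        rw [map_mul, h2, mul_assoc, ← map_mul, Units.mul_inv, map_one, mul_one]
    intro R
    obtain ⟨ρ1, h1⟩ := hρn R
    refine ⟨ρ1, ?_⟩
    intro g
    show Submodule.Quotient.mk ((ρ (-(R : ℤ)) * jK (PowerSeries.C (σ 0))) •
      JF_emb (- -(R : ℤ)) (-0) (lmap jK g)) = _
    rw [hσ0, map_one, map_one, mul_one, neg_zero, neg_neg, lmap_smul, h1]
    congr 2
    induction g using AddMonoidAlgebra.induction_linear with
    | zero =>
      have z1 : lmap jK (0 : LP PA n) = 0 := by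
        apply lp_ext; intro u
        rw [lmap_coeff, coeff_zero', coeff_zero', map_zero]
      have z3 : lmap jK (0 : LP PA (n + 2)) = 0 := by
        apply lp_ext; intro u
        rw [lmap_coeff, coeff_zero', coeff_zero', map_zero]
      rw [z1, JF_emb_zero, JF_emb_zero, z3]
    | add x y hx hy =>
      rw [lmap_add, JF_emb_add, hx, hy, ← lmap_add, JF_emb_add]
    | single q x =>
      rw [JF_lmap_single, JF_emb_single, JF_emb_single, JF_lmap_single]

end Pool.Agent.H22.T7
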