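import Pool.Agent.H22.T7.TDefs
import Pool.Agent.H37.SM.ZRG

/-!
# LOC: the local zeta function from the global one

Proof.  `Reg s0 R` (`Pool/Agent/H37/SM/ZDefs.lean`, `ZRG.lean`) is `R.denom.eval s0 ≠ 0`, i.e. `¬ IsRoot`.
`IsCFace a τ → IsFace a τ`.  Let `τ` be a face which is not a compact face.  Claim: every `k ∈ minCone a τ` has some `k_j = 0`.  Let `k0 ≥ 0` cut out `τ` (so `k0 ∈ minCone a τ`), and suppose `k ∈ minCone a τ` has all `k_j > 0`.  Then
`k0 + k > 0` cuts out `τ`: for `l ∈ τ` both `k0` and `k` are minimal at `a_l` (`minCone`), so the sum is; for `l ∉ τ` (`τ` nonempty: `k0` attains its minimum, if `r > 0`; if `r = 0` there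
is only `τ = ∅`, which is a compact face) `k0` is not minimal at `a_l`, so `(k0 + k)·a_l > (k0 + k)·a_i`, `i ∈ τ`.  So `IsCFace a τ`, a contradiction.
So for a generator `w = 𝒟.w C c` of a cone of `τ` (`FaceCones.mem`) some `w_j = 0`, and `wmin a w = 0` (`conv`: `a i = single j k`, `a_i·w = 0`; `H22.wmin` is an infimum in `ℕ`).  So `JfunG a τ (𝒟 τ)` is a sum of products of
`(|w| + 0·X)⁻¹ = (|w|)⁻¹`, regular at `s0` (`reg_inv_linear` if `|w| ≠ 0`, and `(0 + 0 X)⁻¹ = 0` otherwise; `Reg` of a finite product: induction with `Reg.mul`).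
`topZetaG - topZetaL = ∑_{noncompact, rank 1} J_τ + X/(X+1) ∑_{noncompact, rank ≥ 2} ± vol J_τ` (split the `filter` sums, `Finset.sum_filter_add_sum_filter_not`), regular at `s0 ≠ -1` (`reg_X_div`, `reg_natCast`, `Reg.sum`).
-/

set_option autoImplicit false

namespace Pool.Agent.H22.T7

open Finset
open Pool.Agent.H37.SM

private lemma loc_isFace {m r : ℕ} {a : Fin r → (Fin m →₀ ℕ)} {τ : Finset (Fin r)}
    (h : IsCFace a τ) : H22.IsFace a τ := by
  obtain ⟨k, hk, hl⟩ := h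
  exact ⟨k, fun j => (hk j).le, hl⟩

private lemma loc_cface {m r : ℕ} {a : Fin r → (Fin m →₀ ℕ)} {τ : Finset (Fin r)}
    (hF : H22.IsFace a τ) {k : Fin m → ℝ} (hk : k ∈ H22.minCone a τ) (hpos : ∀ j, 0 < k j) :
    IsCFace a τ := by
  obtain ⟨k0, hk0, hl⟩ := hF
  have hsum : ∀ l : Fin r, ∑ j, (a l j : ℝ) * (k0 j + k j) =
      ∑ j, (a l j : ℝ) * k0 j + ∑ j, (a l j : ℝ) * k j := by
    intro l
    rw [← Finset.sum_add_distrib]
    exact Finset.sum_congr rfl fun j _ => mul_add _ _ _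
  refine ⟨fun j => k0 j + k j, fun j => add_pos_of_nonneg_of_pos (hk0 j) (hpos j), fun l =>
    ⟨fun hlτ l' => ?_, fun h => ?_⟩⟩
  · rw [hsum, hsum]
    exact add_le_add ((hl l).1 hlτ l') (hk.2 l hlτ l')
  · obtain ⟨i, -, hi⟩ := Finset.exists_min_image (Finset.univ : Finset (Fin r))
      (fun l => ∑ j, (a l j : ℝ) * k0 j) ⟨l, Finset.mem_univ l⟩
    have hiτ : i ∈ τ := (hl i).2 fun l' => hi l' (Finset.mem_univ l')
    have h1 := h i
    simp only [hsum] at h1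
    have h2 := hk.2 i hiτ l
    refine (hl l).2 fun l' => ?_
    have h3 := (hl i).1 hiτ l'
    linarith

private lemma loc_wmin {m r : ℕ} {a : Fin r → (Fin m →₀ ℕ)} (conv : Conv a) (w : Fin m → ℕ)
    (j : Fin m) (hj : w j = 0) : H22.wmin a w = 0 := by
  obtain ⟨i, k, hi⟩ := conv j
  have h1 : H22.wmin a w ≤ ∑ j', a i j' * w j' := ciInf_le' (fun i => ∑ j', a i j' * w j') i
  have h2 : ∑ j', a i j' * w j' = 0 := by
    refine Finset.sum_eq_zero fun j' _ => ?_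
    by_cases hjj : j = j'
    · subst hjj
      rw [hj, mul_zero]
    · rw [hi, Finsupp.single_apply, if_neg hjj, zero_mul]
  omega

private lemma loc_prod {s0 : ℂ} {ι : Type*} (T : Finset ι) (f : ι → RatFunc ℂ)
    (h : ∀ i ∈ T, Reg s0 (f i)) : Reg s0 (∏ i ∈ T, f i) := by
  classical
  induction T using Finset.induction_on with
  | empty =>
    rw [Finset.prod_empty]
    have h1 := reg_natCast (s0 := s0) 1
    rwa [Nat.cast_one] at h1
  | insert i T hi ih =>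
    rw [Finset.prod_insert hi]
    exact (h i (Finset.mem_insert_self i T)).mul
      (ih fun j hj => h j (Finset.mem_insert_of_mem hj))

private lemma loc_J {m r : ℕ} {a : Fin r → (Fin m →₀ ℕ)} (conv : Conv a) {τ : Finset (Fin r)}
    (hF : H22.IsFace a τ) (hC : ¬ IsCFace a τ) (𝒟 : H22.FaceCones a τ) (s0 : ℂ) :
    Reg s0 (H22.JfunG a τ 𝒟) := by
  unfold H22.JfunG
  refine Reg.sum _ _ fun C _ => (reg_natCast _).mul (loc_prod _ _ fun c _ => ?_)
  have h1 : ∃ j, 𝒟.w C c j = 0 := by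
    by_contra hne
    push Not at hne
    refine hC (loc_cface hF (𝒟.mem C c) fun j => ?_)
    have h2 : 0 < 𝒟.w C c j := Nat.pos_of_ne_zero (hne j)
    unfold H22.toReal
    exact_mod_cast h2
  obtain ⟨j, hj⟩ := h1
  rw [loc_wmin conv _ j hj]
  by_cases h0 : H22.wsum (𝒟.w C c) = 0
  · rw [h0, Nat.cast_zero, zero_mul, add_zero, inv_zero]
    exact reg_zero
  · refine reg_inv_linear _ 0 ?_
    rw [Nat.cast_zero, zero_mul, add_zero]
    exact_mod_cast h0

/-- LOC -/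
theorem loc {m r : ℕ} (a : Fin r → (Fin m →₀ ℕ)) (conv : Conv a)
    (𝒟 : ∀ τ, H22.FaceCones a τ) (𝒯 : ∀ τ, H22.FaceTriang a τ) (s0 : ℂ) (hs1 : s0 ≠ -1)
    (h : Reg s0 (H22.topZetaG a 𝒟 𝒯)) : Reg s0 (topZetaL a 𝒟 𝒯) := by
  classical
  set J : Finset (Fin r) → RatFunc ℂ := fun τ => H22.JfunG a τ (𝒟 τ) with hJ
  set V : Finset (Fin r) → RatFunc ℂ := fun τ =>
    (-1) ^ (H22.faceRank a τ - 1) * (H22.nvol (𝒯 τ) : RatFunc ℂ) * H22.JfunG a τ (𝒟 τ) with hV
  have key : ∀ (p : Finset (Fin r) → Prop) [DecidablePred p] (g : Finset (Fin r) → RatFunc ℂ),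
      ∑ τ ∈ univ.filter (fun τ : Finset (Fin r) => IsCFace a τ ∧ p τ), g τ +
        ∑ τ ∈ univ.filter (fun τ : Finset (Fin r) => (H22.IsFace a τ ∧ p τ) ∧ ¬ IsCFace a τ), g τ =
      ∑ τ ∈ univ.filter (fun τ : Finset (Fin r) => H22.IsFace a τ ∧ p τ), g τ := by
    intro p _ g
    rw [← Finset.sum_filter_add_sum_filter_not
      (univ.filter (fun τ : Finset (Fin r) => H22.IsFace a τ ∧ p τ)) (fun τ => IsCFace a τ) g]
    congr 1
    · refine Finset.sum_congr ?_ fun _ _ => rfl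
      ext τ
      simp only [Finset.mem_filter, Finset.mem_univ, true_and]
      constructor
      · rintro ⟨h1, h2⟩
        exact ⟨⟨loc_isFace h1, h2⟩, h1⟩
      · rintro ⟨⟨_, h2⟩, h1⟩
        exact ⟨h1, h2⟩
    · refine Finset.sum_congr ?_ fun _ _ => rfl
      ext τ
      simp only [Finset.mem_filter, Finset.mem_univ, true_and]
  have k1 := key (fun τ => H22.faceRank a τ = 1) J
  have k2 := key (fun τ => 2 ≤ H22.faceRank a τ) V
  have e : topZetaL a 𝒟 𝒯 = H22.topZetaG a 𝒟 𝒯 -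
      (∑ τ ∈ univ.filter (fun τ : Finset (Fin r) =>
          (H22.IsFace a τ ∧ H22.faceRank a τ = 1) ∧ ¬ IsCFace a τ), J τ +
        RatFunc.X / (RatFunc.X + 1) * ∑ τ ∈ univ.filter (fun τ : Finset (Fin r) =>
          (H22.IsFace a τ ∧ 2 ≤ H22.faceRank a τ) ∧ ¬ IsCFace a τ), V τ) := by
    have e1 : H22.topZetaG a 𝒟 𝒯 =
        ∑ τ ∈ univ.filter (fun τ : Finset (Fin r) => H22.IsFace a τ ∧ H22.faceRank a τ = 1), J τ +
        RatFunc.X / (RatFunc.X + 1) *
        ∑ τ ∈ univ.filter (fun τ : Finset (Fin r) => H22.IsFace a τ ∧ 2 ≤ H22.faceRank a τ), V τ := by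
      unfold H22.topZetaG
      congr!
    have e2 : topZetaL a 𝒟 𝒯 =
        ∑ τ ∈ univ.filter (fun τ : Finset (Fin r) => IsCFace a τ ∧ H22.faceRank a τ = 1), J τ +
        RatFunc.X / (RatFunc.X + 1) *
        ∑ τ ∈ univ.filter (fun τ : Finset (Fin r) => IsCFace a τ ∧ 2 ≤ H22.faceRank a τ), V τ := by
      unfold topZetaL
      congr!
    rw [e1, e2, ← k1, ← k2]
    ring
  rw [e]
  refine h.sub ((Reg.sum _ _ fun τ hτ => ?_).add ((reg_X_div hs1).mul (Reg.sum _ _ fun τ hτ => ?_)))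
  · rw [Finset.mem_filter] at hτ
    exact loc_J conv hτ.2.1.1 hτ.2.2 _ _
  · rw [Finset.mem_filter] at hτ
    refine Reg.mul (Reg.mul ?_ (reg_natCast _)) (loc_J conv hτ.2.1.1 hτ.2.2 _ _)
    have h1 := reg_intCast (s0 := s0) ((-1) ^ (H22.faceRank a τ - 1))
    simpa using h1

end Pool.Agent.H22.T7
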