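import Pool.Agent.H22.T7.TDefs

/-!
# QHN: quasi-homogeneous polynomials, faces

For a quasi-homogeneous polynomial with positive weights every face is a compact face.
-/

set_option autoImplicit false

namespace Pool.Agent.H22.T7

open Finset
open Pool.Agent.H56.SMC

theorem ndq {m r : ℕ} (a : Fin r → (Fin m →₀ ℕ)) (κ : Fin r → ℂ) (nd : NondegC a κ)
    (w0 : Fin m → ℕ) (d : ℕ) (hw : ∀ j, 0 < w0 j) (hd : ∀ i, ∑ j, a i j * w0 j = d) :
    Nondeg a κ := by
  classical
  intro w x hx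
  set M : ℤ := ∑ j, |w j| + 1 with hM
  set w' : Fin m → ℤ := fun j => w j + M * w0 j with hw'
  have hpos : ∀ j, 0 < w' j := by
    intro j
    have h1 : |w j| ≤ ∑ j, |w j| := single_le_sum (f := fun j => |w j|)
      (fun _ _ => abs_nonneg _) (mem_univ j)
    have h2 := neg_abs_le (w j)
    have h3 : (1 : ℤ) ≤ (w0 j : ℤ) := by exact_mod_cast hw j
    have h4 : M ≤ M * w0 j := by
      have : 0 < M := by
        rw [hM]
        have : 0 ≤ ∑ j, |w j| := sum_nonneg fun _ _ => abs_nonneg _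
        omega
      nlinarith
    simp only [hw']
    omega
  have hsum : ∀ i, ∑ j, w' j * (a i j : ℤ) = ∑ j, w j * (a i j : ℤ) + M * d := by
    intro i
    rw [← hd i]
    simp only [hw']
    push_cast
    rw [mul_sum, ← sum_add_distrib]
    exact sum_congr rfl fun j _ => by ring
  have h := nd w' hpos x hx
  have hiff : ∀ i, (∀ i', ∑ j, w' j * (a i j : ℤ) ≤ ∑ j, w' j * (a i' j : ℤ)) ↔
      ∀ i', ∑ j, w j * (a i j : ℤ) ≤ ∑ j, w j * (a i' j : ℤ) := by
    intro i
    refine forall_congr' fun i' => ?_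
    rw [hsum, hsum]
    constructor <;> intro h <;> linarith
  have hf : (univ.filter fun i => ∀ i', ∑ j, w' j * (a i j : ℤ) ≤ ∑ j, w' j * (a i' j : ℤ)) =
      univ.filter fun i => ∀ i', ∑ j, w j * (a i j : ℤ) ≤ ∑ j, w j * (a i' j : ℤ) :=
    filter_congr fun i _ => hiff i
  rw [hf] at h
  exact h

theorem isFace_iff {m r : ℕ} (a : Fin r → (Fin m →₀ ℕ)) (w0 : Fin m → ℕ) (d : ℕ)
    (hw : ∀ j, 0 < w0 j) (hd : ∀ i, ∑ j, a i j * w0 j = d) (τ : Finset (Fin r)) :
    IsCFace a τ ↔ H22.IsFace a τ := by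
  constructor
  · rintro ⟨k, hk, h⟩
    exact ⟨k, fun j => (hk j).le, h⟩
  · rintro ⟨k, hk, h⟩
    refine ⟨fun j => k j + w0 j, fun j => ?_, fun l => ?_⟩
    · have h1 : (0 : ℝ) < w0 j := by exact_mod_cast hw j
      have := hk j
      show 0 < k j + w0 j
      linarith
    · have hsum : ∀ i, ∑ j, (a i j : ℝ) * (k j + w0 j) = ∑ j, (a i j : ℝ) * k j + d := by
        intro i
        rw [← hd i]
        push_cast
        rw [← sum_add_distrib]
        exact sum_congr rfl fun j _ => by ring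
      rw [h l]
      refine forall_congr' fun l' => ?_
      rw [hsum, hsum]
      constructor <;> intro h <;> linarith

theorem loq {m r : ℕ} (a : Fin r → (Fin m →₀ ℕ)) (w0 : Fin m → ℕ) (d : ℕ)
    (hw : ∀ j, 0 < w0 j) (hd : ∀ i, ∑ j, a i j * w0 j = d)
    (𝒟 : ∀ τ, H22.FaceCones a τ) (𝒯 : ∀ τ, H22.FaceTriang a τ) :
    topZetaL a 𝒟 𝒯 = H22.topZetaG a 𝒟 𝒯 := by
  classical
  unfold topZetaL H22.topZetaG
  have h1 : (univ.filter fun τ : Finset (Fin r) => IsCFace a τ ∧ H22.faceRank a τ = 1) =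
      univ.filter fun τ : Finset (Fin r) => H22.IsFace a τ ∧ H22.faceRank a τ = 1 :=
    filter_congr fun τ _ => by rw [isFace_iff a w0 d hw hd]
  have h2 : (univ.filter fun τ : Finset (Fin r) => IsCFace a τ ∧ 2 ≤ H22.faceRank a τ) =
      univ.filter fun τ : Finset (Fin r) => H22.IsFace a τ ∧ 2 ≤ H22.faceRank a τ :=
    filter_congr fun τ _ => by rw [isFace_iff a w0 d hw hd]
  congr 1
  · convert rfl using 2
    convert h1.symm using 2
  · congr 1
    convert rfl using 2
    convert h2.symm using 2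

end Pool.Agent.H22.T7
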