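import Pool.Agent.H22.T7.INT
import Pool.Agent.H56.SMC.BFB

/-!
# QHW: quasi-homogeneous polynomials

If `∑ κ_i x^{a_i}` is quasi-homogeneous with positive weights, the component of the right weight of
the identity `AId` has no remainder.
-/

set_option autoImplicit false

namespace Pool.Agent.H22.T7

open Finset AddMonoidAlgebra
open Pool.Agent.H56.SMC Pool.Agent.H37.T5 Pool.Agent.H56.T5

/-- All exponents have weight `V`. -/
def IsH {m : ℕ} {A : Type} [CommRing A] (w : Lat m) (V : ℤ) (z : LP A m) : Prop :=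
  ∀ u, z.coeff u ≠ 0 → dt w u = V

section
variable {m : ℕ} {A : Type} [CommRing A] {w : Lat m}

theorem IsH_add {V : ℤ} {x y : LP A m} (hx : IsH w V x) (hy : IsH w V y) : IsH w V (x + y) := by
  intro u hu
  rw [coeff_add'] at hu
  by_cases h : x.coeff u = 0
  · rw [h, zero_add] at hu; exact hy u hu
  · exact hx u h

theorem IsH_mul {V W : ℤ} {x y : LP A m} (hx : IsH w V x) (hy : IsH w W y) :
    IsH w (V + W) (x * y) := by
  intro u hu
  obtain ⟨a, b, ha, hb, rfl⟩ := bfb_mul_coeff _ _ _ hu
  rw [dt_add, hx a ha, hy b hb]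

theorem IsH_smul {V : ℤ} (c : A) {x : LP A m} (hx : IsH w V x) : IsH w V (c • x) := by
  intro u hu
  rw [coeff_smul'] at hu
  exact hx u (right_ne_zero_of_mul hu)

theorem IsH_one : IsH w 0 (1 : LP A m) := by
  intro u hu
  rw [AddMonoidAlgebra.one_def, coeff_single'] at hu
  by_cases h : u = 0
  · rw [h, dt_zero]
  · rw [if_neg h] at hu; exact absurd rfl hu

theorem IsH_pow {V : ℤ} {x : LP A m} (hx : IsH w V x) (k : ℕ) : IsH w (k * V) (x ^ k) := by
  induction k with
  | zero => simpa using (IsH_one : IsH w 0 (1 : LP A m))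
  | succ k ih =>
    rw [pow_succ]
    have h := IsH_mul ih hx
    have e : (k : ℤ) * V + V = ((k + 1 : ℕ) : ℤ) * V := by push_cast; ring
    rwa [e] at h

theorem IsH_dL {V : ℤ} (j : Fin m) {x : LP A m} (hx : IsH w V x) : IsH w (V - w j) (dL j x) := by
  intro u hu
  obtain ⟨h1, -⟩ := bfb_dL_ne j x u hu
  have h2 := hx _ h1
  rw [dt_add] at h2
  have h3 : dt w (ev j) = w j := by rw [dt_comm, dt_ev]
  rw [h3] at h2
  omega

theorem IsH_GG {N : ℤ} {F : LP A m} (hF : IsH w N F) (s : A) (l : List (Fin m)) :
    IsH w ((l.length : ℤ) * N - (l.map w).sum) (GG F s l) := by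
  induction l with
  | nil => simpa [GG] using (IsH_one : IsH w 0 (1 : LP A m))
  | cons j l ih =>
    have e4 : GG F s (j :: l) = F * dL j (GG F s l) +
      (s + 1 - (l.length : A)) • (GG F s l * dL j F) := rfl
    rw [e4]
    have h1 := IsH_mul hF (IsH_dL j ih)
    have h2 := IsH_smul (s + 1 - (l.length : A)) (IsH_mul ih (IsH_dL j hF))
    have e1 : N + ((l.length : ℤ) * N - (l.map w).sum - w j) =
        ((j :: l).length : ℤ) * N - ((j :: l).map w).sum := by
      rw [List.length_cons, List.map_cons, List.sum_cons]; push_cast; ring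
    have e2 : ((l.length : ℤ) * N - (l.map w).sum) + (N - w j) =
        ((j :: l).length : ℤ) * N - ((j :: l).map w).sum := by
      rw [List.length_cons, List.map_cons, List.sum_cons]; push_cast; ring
    rw [e1] at h1
    rw [e2] at h2
    exact IsH_add h1 h2

open Classical in
/-- The component of weight `V`. -/
noncomputable def hc (w : Lat m) (V : ℤ) (z : LP A m) : LP A m :=
  dg (fun u => if dt w u = V then (1 : A) else 0) z

open Classical in
theorem hc_coeff (V : ℤ) (z : LP A m) (u : Lat m) :
    (hc w V z).coeff u = if dt w u = V then z.coeff u else 0 := by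
  unfold hc
  rw [dg_coeff]
  split_ifs
  · rw [one_mul]
  · rw [zero_mul]

theorem hc_add (V : ℤ) (x y : LP A m) : hc w V (x + y) = hc w V x + hc w V y := by
  classical
  apply lp_ext; intro u
  rw [coeff_add', hc_coeff, hc_coeff, hc_coeff, coeff_add']
  split_ifs
  · rfl
  · rw [add_zero]

theorem hc_sum {α : Type} (V : ℤ) (s : Finset α) (f : α → LP A m) :
    hc w V (∑ i ∈ s, f i) = ∑ i ∈ s, hc w V (f i) := by
  classical
  apply lp_ext; intro u
  rw [hc_coeff, coeff_finsum, coeff_finsum]
  simp only [hc_coeff]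
  split_ifs
  · rfl
  · rw [sum_const_zero]

theorem hc_of_IsH {V : ℤ} {z : LP A m} (h : IsH w V z) : hc w V z = z := by
  classical
  apply lp_ext; intro u
  rw [hc_coeff]
  by_cases hu : z.coeff u = 0
  · rw [hu]; split_ifs <;> rfl
  · rw [if_pos (h u hu)]

theorem hc_mul {V W : ℤ} (z : LP A m) {h : LP A m} (hh : IsH w V h) :
    hc w W (z * h) = hc w (W - V) z * h := by
  classical
  induction z using AddMonoidAlgebra.induction_linear with
  | zero =>
    apply lp_ext; intro u
    rw [zero_mul, hc_coeff, coeff_zero']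
    have : hc w (W - V) (0 : LP A m) = 0 := by
      apply lp_ext; intro u
      rw [hc_coeff, coeff_zero']
      split_ifs <;> rfl
    rw [this, zero_mul, coeff_zero']
    split_ifs <;> rfl
  | add x y hx hy => rw [add_mul, hc_add, hx, hy, hc_add, add_mul]
  | single v r =>
    have h1 : hc w (W - V) (single v r : LP A m) =
        if dt w v = W - V then single v r else 0 := by
      apply lp_ext; intro u
      rw [hc_coeff, coeff_single']
      by_cases huv : u = v
      · subst huv
        rw [if_pos rfl]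
        split_ifs
        · rw [coeff_single', if_pos rfl]
        · rw [coeff_zero']
      · rw [if_neg huv]
        by_cases h4 : dt w v = W - V
        · rw [if_pos h4, coeff_single', if_neg huv]
          split_ifs <;> rfl
        · rw [if_neg h4, coeff_zero']
          split_ifs <;> rfl
    rw [h1]
    apply lp_ext; intro u
    rw [hc_coeff, single_mul_coeff]
    by_cases hu : h.coeff (u - v) = 0
    · rw [hu, mul_zero]
      split_ifs
      · rw [single_mul_coeff, hu, mul_zero]
      · rw [zero_mul, coeff_zero']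
      · rw [single_mul_coeff, hu, mul_zero]
      · rw [zero_mul, coeff_zero']
    · have h2 := hh _ hu
      rw [dt_sub] at h2
      by_cases h3 : dt w u = W
      · rw [if_pos h3, if_pos (by omega), single_mul_coeff]
      · rw [if_neg h3, if_neg (by omega), zero_mul, coeff_zero']

end

/-- QHW -/
theorem qhw {m r : ℕ} (a : Fin r → (Fin m →₀ ℕ)) (κ : Fin r → ℂ) (b : Polynomial ℂ)
    (w : Fin m → ℕ) (N : ℕ) (hw : ∀ j, 0 < w j) (hN : ∀ i, ∑ j, a i j * w j = N) (R L : ℕ)
    (PW : H22.WeylS m) (E : LP (Polynomial ℂ) m) (hR : 0 < R)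
    (hlen : ∀ β ∈ PW.support, (lst β).length ≤ R) (hid : AId a κ b R PW E)
    (hE : ∀ u, E.coeff u ≠ 0 → (∀ j, 0 ≤ u j) ∧ (L : ℤ) ≤ ∑ j, u j) (hL : R * N < L) :
    ∃ PW' : H22.WeylS m, (∀ β ∈ PW'.support, (lst β).length ≤ R) ∧ AId a κ b R PW' 0 := by
  classical
  set wz : Lat m := fun j => (w j : ℤ) with hwz
  have hF : IsH wz (N : ℤ) (F1 a κ) := by
    intro u hu
    unfold F1 at hu
    rw [lmap_coeff] at hu
    have hu' : (toL ℂ (fpoly a κ)).coeff u ≠ 0 := fun h => hu (by rw [h, map_zero])
    rw [JF_f] at hu'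
    obtain ⟨i, rfl⟩ := mrel_singles _ _ _ hu'
    rw [← hN i]
    simp only [dt, hwz]
    push_cast
    exact sum_congr rfl fun j _ => mul_comm _ _
  set wt : (Fin m →₀ ℕ) → ℕ := fun β => ∑ j, β j * w j with hwt
  -- the component of the coefficient of `∂^β`
  set q : (Fin m →₀ ℕ) → MvPolynomial (Fin m) (Polynomial ℂ) := fun β =>
    if N ≤ wt β then MvPolynomial.weightedHomogeneousComponent w (wt β - N) (PW β) else 0 with hq
  have hq0 : ∀ β, PW β = 0 → q β = 0 := by
    intro β hβ
    simp only [hq, hβ, map_zero]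
    split_ifs <;> rfl
  set PW' : H22.WeylS m := Finsupp.onFinset PW.support q (fun β hβ => by
    rw [Finsupp.mem_support_iff]
    exact fun h => hβ (hq0 β h)) with hPW'
  have hPW'q : ∀ β, PW' β = q β := fun β => rfl
  have hsub : PW'.support ⊆ PW.support := by
    intro β hβ
    rw [Finsupp.mem_support_iff] at hβ ⊢
    exact fun h => hβ (by rw [hPW'q]; exact hq0 β h)
  refine ⟨PW', fun β hβ => hlen β (hsub hβ), ?_⟩
  have hlst : ∀ β : Fin m →₀ ℕ, ((lst β).map wz).sum = (wt β : ℤ) := by
    intro β
    unfold lst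
    have h1 : ∀ l : List (Fin m), ((l.flatMap fun j => List.replicate (β j) j).map wz).sum =
        (l.map fun j => (β j : ℤ) * (w j : ℤ)).sum := by
      intro l
      induction l with
      | nil => rfl
      | cons j l ih =>
        rw [List.flatMap_cons, List.map_append, List.sum_append, ih, List.map_cons,
          List.sum_cons, List.map_replicate, List.sum_replicate, nsmul_eq_mul]
    rw [h1, ← List.ofFn_eq_map, List.sum_ofFn]
    simp only [hwt]
    push_cast
    rfl
  have htoL : ∀ β, toL (Polynomial ℂ) (PW' β) =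
      hc wz ((wt β : ℤ) - N) (toL (Polynomial ℂ) (PW β)) := by
    intro β
    apply lp_ext; intro u
    rw [hc_coeff, INT_toL_coeff, INT_toL_coeff, hPW'q]
    by_cases hu : ∀ j, 0 ≤ u j
    · rw [if_pos hu]
      set ρ : Fin m →₀ ℕ := Finsupp.equivFunOnFinite.symm (fun j => (u j).toNat) with hρ
      have h1 : dt wz u = ((∑ j, ρ j * w j : ℕ) : ℤ) := by
        simp only [dt, hwz]
        push_cast
        refine sum_congr rfl fun j _ => ?_
        have : ((ρ j : ℕ) : ℤ) = u j := by
          rw [hρ, Finsupp.equivFunOnFinite_symm_apply_apply]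
          exact Int.toNat_of_nonneg (hu j)
        rw [this]; ring
      have h2 : Finsupp.weight w ρ = ∑ j, ρ j * w j := by
        rw [Finsupp.weight_apply, Finsupp.sum_fintype _ _ (fun i => by simp)]
        exact sum_congr rfl fun j _ => by rw [smul_eq_mul]
      rw [h1]
      simp only [hq]
      by_cases h3 : N ≤ wt β
      · rw [if_pos h3, MvPolynomial.coeff_weightedHomogeneousComponent, h2]
        by_cases h4 : ∑ j, ρ j * w j = wt β - N
        · rw [if_pos h4, if_pos, if_pos hu]
          rw [h4, Nat.cast_sub h3]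
        · rw [if_neg h4, if_neg]
          intro h5
          apply h4
          omega
      · rw [if_neg h3, MvPolynomial.coeff_zero, if_neg]
        intro h5
        apply h3
        omega
    · rw [if_neg hu]
      split_ifs <;> rfl
  have h1 := congrArg (hc wz (((R : ℤ) - 1) * N)) hid
  have hRN : ((R - 1 : ℕ) : ℤ) = (R : ℤ) - 1 := by rw [Nat.cast_sub hR]; rfl
  have h2 : hc wz (((R : ℤ) - 1) * N) (b • (F1 a κ) ^ (R - 1) + E) = b • (F1 a κ) ^ (R - 1) := by
    rw [hc_add, hc_of_IsH (IsH_smul b (by
      have := IsH_pow hF (R - 1)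
      rwa [hRN] at this))]
    have h3 : hc wz (((R : ℤ) - 1) * N) E = 0 := by
      apply lp_ext; intro u
      rw [hc_coeff, coeff_zero']
      split_ifs with h4
      · by_contra h5
        obtain ⟨h6, h7⟩ := hE u h5
        have h8 : ∑ j, u j ≤ dt wz u := by
          simp only [dt, hwz]
          refine sum_le_sum fun j _ => ?_
          have := hw j
          have h9 : (1 : ℤ) ≤ (w j : ℤ) := by exact_mod_cast this
          nlinarith [h6 j]
        rw [h4] at h8
        have h10 : ((R : ℤ) - 1) * N ≤ (R : ℤ) * N := by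
          have : (0 : ℤ) ≤ N := Int.natCast_nonneg N
          nlinarith
        have h11 : ((R * N : ℕ) : ℤ) < L := by exact_mod_cast hL
        push_cast at h11
        omega
      · rfl
    rw [h3, add_zero]
  rw [h2, hc_sum] at h1
  unfold AId
  rw [add_zero, ← h1]
  refine (sum_subset hsub fun β _ hβ => ?_).trans (sum_congr rfl fun β hβ => ?_)
  · rw [Finsupp.notMem_support_iff.1 hβ, map_zero, zero_mul, zero_mul]
  · have hGG := IsH_GG hF Polynomial.X (lst β)
    have hG2 := IsH_mul hGG (IsH_pow hF (R - (lst β).length))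
    rw [hlst] at hG2
    have hl := hlen β hβ
    have e1 : ((lst β).length : ℤ) * (N : ℤ) - (wt β : ℤ) +
        ((R - (lst β).length : ℕ) : ℤ) * (N : ℤ) = (R : ℤ) * N - wt β := by
      rw [Nat.cast_sub hl]; ring
    rw [e1] at hG2
    rw [mul_assoc, mul_assoc, hc_mul _ hG2, htoL]
    congr 2
    ring

end Pool.Agent.H22.T7
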