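import Pool.Agent.H22.T7.APR
import Pool.Agent.H56.SMC.MREL

/-!
# RSP: the functional equation of a power series gives an approximate one for polynomials

Proof.  `rsp_weyl`: span induction.  For `W = mulLeft c * dl l`: `β = ∑_{j ∈ l} single j 1` (`Multiset.toFinsupp`-like), `p = Finsupp.single β c`; `(lst β).length = ∑ β_j = l.length`
(`mrel_lst_length`), and `dl l (g : MvPowerSeries) = (diffPow β g : MvPowerSeries)`: induction on `l`, `pderiv_coe`, and
`pderiv j (diffPow β g) = diffPow (β + single j 1) g` (the `pderiv`s commute: `MvPolynomial.pderiv_pderiv_comm`-like or `MvPolynomial` induction; `diffPow` is a list product of powers of commuting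
maps over `List.finRange`).  Sums: add the `p`'s.  Scalars.
`rsp`: `B c = ∑_{i<d0} c^i • D_i` (`PF_iff`).  `apr` for `D_i`: `ρ_i`; `ρ = ∑ ρ_i`, `d = d0 + 1`.  `hB`: `Hi (N+ρ) h → Hi N (B c h)`.  Given `L`: `W_i`, `p_i` (`rsp_weyl`, `wn_mono`),
`PW β = ∑_i C (X^i) * map C (p_i β)`, as a `Finsupp` (`∑_i (p_i).mapRange ..`).  `PW.act c g = ∑_i c^i • ∑_β p_i β * diffPow β g`, `↑(PW.act c g) = ∑_i c^i • W_i ↑g`.
`rspf`: `B ∈ PF`, `B k (G^{k+1}) = b(k) G^k`; `ρ`, `d` from `rsp`; given `L`, `f'` with `Hi (L+ρ) (f' - G)`: `PW` from `rsp`.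
`↑f'^{k+1} - G^{k+1} = (↑f' - G) * (..)` (`sub_dvd_pow_sub_pow`), so `Hi (L+ρ)` (`Hi_mul_left`), `Hi L (B k (↑f'^{k+1}) - B k (G^{k+1}))`, `Hi L (b(k) (↑f'^k - G^k))`, and
`Hi L (B k ↑(f'^{k+1}) - ↑(PW.act k (f'^{k+1})))`.  Together `Hi L ↑(PW.act k (f'^{k+1}) - C (b k) f'^k)`, and `Hi L ↑p ↔ HiP L p` (`MvPolynomial.coeff_coe`).
-/

set_option autoImplicit false

namespace Pool.Agent.H22.T7

open Finset
open Pool.Agent.H56.SMC

theorem rsp_ff_succ (x : ℂ) (m : ℕ) : H22.ff x (m + 1) = H22.ff x m * (x - m) := by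
  unfold H22.ff
  rw [Finset.prod_range_succ]

theorem rsp_ff_zero (a m : ℕ) (h : a < m) : H22.ff (a : ℂ) m = 0 := by
  unfold H22.ff
  exact Finset.prod_eq_zero (Finset.mem_range.2 h) (sub_self _)

theorem rsp_pd {m : ℕ} (j : Fin m) (β : Fin m →₀ ℕ) (g : MvPolynomial (Fin m) ℂ) :
    MvPolynomial.pderiv j (H22.diffPow β g) = H22.diffPow (β + Finsupp.single j 1) g := by
  induction g using MvPolynomial.induction_on' with
  | monomial v c =>
    rw [H22.diffPow_monomial, H22.diffPow_monomial, MvPolynomial.pderiv_monomial, tsub_tsub]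
    congr 1
    rw [mul_assoc]
    congr 1
    have e : ∏ i, H22.ff (v i) ((β + Finsupp.single j 1 : Fin m →₀ ℕ) i) =
        H22.ff (v j) (β j + 1) * ∏ i ∈ Finset.univ.erase j, H22.ff (v i) (β i) := by
      rw [← Finset.mul_prod_erase _ _ (Finset.mem_univ j)]
      congr 1
      · simp
      · refine Finset.prod_congr rfl fun i hi => ?_
        rw [Finset.mem_erase] at hi
        simp [Finsupp.single_apply, Ne.symm hi.1]
    rw [e, ← Finset.mul_prod_erase _ _ (Finset.mem_univ j), rsp_ff_succ]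
    rcases le_or_gt (β j) (v j) with h | h
    · rw [Finsupp.tsub_apply, Nat.cast_sub h]
      ring
    · rw [rsp_ff_zero _ _ h]
      ring
  | add p q hp hq => rw [map_add, map_add, hp, hq, map_add]

theorem rsp_diff0 {m : ℕ} (g : MvPolynomial (Fin m) ℂ) : H22.diffPow 0 g = g := by
  unfold H22.diffPow
  have : ((List.finRange m).map fun j =>
    ((MvPolynomial.pderiv j : Derivation ℂ (MvPolynomial (Fin m) ℂ)
      (MvPolynomial (Fin m) ℂ)).toLinearMap) ^ ((0 : Fin m →₀ ℕ) j)).prod = 1 := by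
    apply List.prod_eq_one
    intro x hx
    rw [List.mem_map] at hx
    obtain ⟨j, -, rfl⟩ := hx
    rw [Finsupp.coe_zero, Pi.zero_apply, pow_zero]
  rw [this]
  rfl

/-- exponent of a list -/
noncomputable def rsp_ex {m : ℕ} (l : List (Fin m)) : Fin m →₀ ℕ :=
  (l.map fun j => Finsupp.single j 1).sum

theorem rsp_ex_len {m : ℕ} (l : List (Fin m)) : ∑ j, (rsp_ex l) j = l.length := by
  induction l with
  | nil => simp [rsp_ex]
  | cons i l ih =>
    have e : rsp_ex (i :: l) = Finsupp.single i 1 + rsp_ex l := by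
      unfold rsp_ex
      rw [List.map_cons, List.sum_cons]
    rw [e, List.length_cons, ← ih]
    simp only [Finsupp.coe_add, Pi.add_apply, Finset.sum_add_distrib]
    rw [add_comm]
    congr 1
    simp [Finsupp.single_apply]

theorem rsp_dl {m : ℕ} (l : List (Fin m)) (g : MvPolynomial (Fin m) ℂ) :
    dl l (g : MvPowerSeries (Fin m) ℂ) =
      ((H22.diffPow (rsp_ex l) g : MvPolynomial (Fin m) ℂ) : MvPowerSeries (Fin m) ℂ) := by
  induction l with
  | nil =>
    have e : rsp_ex ([] : List (Fin m)) = 0 := rfl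
    rw [e, rsp_diff0]
    rfl
  | cons i l ih =>
    have e : rsp_ex (i :: l) = rsp_ex l + Finsupp.single i 1 := by
      unfold rsp_ex
      rw [List.map_cons, List.sum_cons, add_comm]
    have e2 : dl (i :: l) (g : MvPowerSeries (Fin m) ℂ) =
        MvPowerSeries.pderiv ℂ i (dl l (g : MvPowerSeries (Fin m) ℂ)) := by
      unfold dl
      rw [List.map_cons, List.prod_cons]
      rfl
    rw [e2, ih, e, ← rsp_pd, MvPowerSeries.pderiv_coe]

theorem rsp_coe_sum {m : ℕ} {α : Type} (s : Finset α) (f : α → MvPolynomial (Fin m) ℂ) :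
    ((∑ i ∈ s, f i : MvPolynomial (Fin m) ℂ) : MvPowerSeries (Fin m) ℂ) =
      ∑ i ∈ s, (f i : MvPowerSeries (Fin m) ℂ) :=
  map_sum (MvPolynomial.coeToMvPowerSeries.ringHom : MvPolynomial (Fin m) ℂ →+* _) f s

theorem rsp_coe_smul {m : ℕ} (c : ℂ) (p : MvPolynomial (Fin m) ℂ) :
    ((c • p : MvPolynomial (Fin m) ℂ) : MvPowerSeries (Fin m) ℂ) =
      c • (p : MvPowerSeries (Fin m) ℂ) := by
  rw [MvPolynomial.smul_eq_C_mul, MvPolynomial.coe_mul, MvPolynomial.coe_C,
    MvPowerSeries.smul_eq_C_mul]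

theorem rsp_weyl {m ρ : ℕ} {W : Module.End ℂ (MvPowerSeries (Fin m) ℂ)}
    (hW : W ∈ WN (Fin m) ρ) :
    ∃ p : (Fin m →₀ ℕ) →₀ MvPolynomial (Fin m) ℂ, (∀ β ∈ p.support, (lst β).length ≤ ρ) ∧
      ∀ g : MvPolynomial (Fin m) ℂ, W (g : MvPowerSeries (Fin m) ℂ) =
        ((p.sum fun β q => q * H22.diffPow β g : MvPolynomial (Fin m) ℂ) :
          MvPowerSeries (Fin m) ℂ) := by
  unfold WN at hW
  induction hW using Submodule.span_induction with
  | mem W hW =>
    obtain ⟨c, l, hl, rfl⟩ := hW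
    refine ⟨Finsupp.single (rsp_ex l) c, ?_, ?_⟩
    · intro β hβ
      have h1 := Finsupp.support_single_subset hβ
      rw [Finset.mem_singleton] at h1
      rw [h1, mrel_lst_length, rsp_ex_len]
      exact hl
    · intro g
      rw [Finsupp.sum_single_index (zero_mul _), MvPolynomial.coe_mul, ← rsp_dl]
      rfl
  | zero =>
    refine ⟨0, ?_, ?_⟩
    · intro β hβ
      simp at hβ
    · intro g
      rw [Finsupp.sum_zero_index, MvPolynomial.coe_zero]
      rfl
  | add W1 W2 _ _ ih1 ih2 =>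
    obtain ⟨p1, a1, b1⟩ := ih1
    obtain ⟨p2, a2, b2⟩ := ih2
    refine ⟨p1 + p2, ?_, ?_⟩
    · intro β hβ
      rcases Finset.mem_union.1 (Finsupp.support_add hβ) with h | h
      · exact a1 β h
      · exact a2 β h
    · intro g
      rw [Finsupp.sum_add_index' (fun _ => zero_mul _) (fun _ _ _ => add_mul _ _ _),
        MvPolynomial.coe_add, LinearMap.add_apply, b1, b2]
  | smul c W1 _ ih1 =>
    obtain ⟨p1, a1, b1⟩ := ih1
    refine ⟨c • p1, ?_, ?_⟩
    · intro β hβ
      exact a1 β (Finsupp.support_smul hβ)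
    · intro g
      rw [Finsupp.sum_smul_index' (fun _ => zero_mul _), LinearMap.smul_apply, b1,
        ← rsp_coe_smul]
      congr 1
      rw [Finsupp.smul_sum]
      refine Finsupp.sum_congr fun β _ => ?_
      rw [smul_mul_assoc]

theorem rsp_map {m : ℕ} (c : ℂ) (i : ℕ) (q : MvPolynomial (Fin m) ℂ) :
    MvPolynomial.map (Polynomial.evalRingHom c)
      (MvPolynomial.C (Polynomial.X ^ i) * MvPolynomial.map Polynomial.C q) = c ^ i • q := by
  rw [map_mul, MvPolynomial.map_C, MvPolynomial.map_map]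
  have e : (Polynomial.evalRingHom c).comp Polynomial.C = RingHom.id ℂ := by
    ext x
    simp
  rw [e, MvPolynomial.map_id, MvPolynomial.smul_eq_C_mul]
  simp

theorem rsp {m : ℕ} {B : ℂ → Module.End ℂ (MvPowerSeries (Fin m) ℂ)}
    (hB : B ∈ PF (MvPowerSeries (Fin m) ℂ)) :
    ∃ ρ d : ℕ, (∀ (c : ℂ) (N : ℕ) (h : MvPowerSeries (Fin m) ℂ), Hi (N + ρ) h → Hi N (B c h)) ∧
      ∀ L : ℕ, ∃ PW : H22.WeylS m, (∀ β ∈ PW.support, (lst β).length ≤ ρ) ∧
        (∀ β u, (MvPolynomial.coeff u (PW β)).natDegree < d) ∧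
        ∀ (c : ℂ) (g : MvPolynomial (Fin m) ℂ), Hi L (B c (g : MvPowerSeries (Fin m) ℂ) -
          ((PW.act c g : MvPolynomial (Fin m) ℂ) : MvPowerSeries (Fin m) ℂ)) := by
  obtain ⟨d0, D, hD, hBD⟩ := (PF_iff B).1 hB
  choose ρ h1 h2 using fun i => apr (hD i)
  have hρ : ∀ i, ρ i ≤ ∑ i, ρ i := fun i =>
    Finset.single_le_sum (f := ρ) (fun _ _ => Nat.zero_le _) (Finset.mem_univ i)
  have hBa : ∀ c h, B c h = ∑ i : Fin d0, c ^ (i : ℕ) • D i h := by
    intro c h
    rw [hBD, LinearMap.sum_apply]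
    exact Finset.sum_congr rfl fun i _ => LinearMap.smul_apply _ _ _
  refine ⟨∑ i, ρ i, d0 + 1, ?_, ?_⟩
  · intro c N h hh
    rw [hBa]
    exact Hi_sum _ _ fun i _ => Hi_smul _ (h1 i N h (Hi_mono (Nat.add_le_add_left (hρ i) N) hh))
  · intro L
    choose W hW hW2 using fun i => h2 i L
    choose p hp1 hp2 using fun i => rsp_weyl (wn_mono (hρ i) (hW i))
    refine ⟨∑ i : Fin d0, (p i).mapRange (fun q => MvPolynomial.C (Polynomial.X ^ (i : ℕ)) *
      MvPolynomial.map Polynomial.C q) (by simp), ?_, ?_, ?_⟩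
    · intro β hβ
      by_contra hcon
      rw [Finsupp.mem_support_iff] at hβ
      apply hβ
      rw [Finsupp.finsetSum_apply]
      refine Finset.sum_eq_zero fun i _ => ?_
      rw [Finsupp.mapRange_apply]
      have h3 : p i β = 0 := by
        by_contra h4
        exact hcon (hp1 i β (Finsupp.mem_support_iff.2 h4))
      rw [h3, map_zero, mul_zero]
    · intro β u
      rw [Finsupp.finsetSum_apply, MvPolynomial.coeff_sum, Nat.lt_succ_iff]
      refine Polynomial.natDegree_sum_le_of_forall_le _ _ fun i _ => ?_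
      rw [Finsupp.mapRange_apply, MvPolynomial.coeff_C_mul, MvPolynomial.coeff_map]
      refine (Polynomial.natDegree_mul_C_le _ _).trans ?_
      rw [Polynomial.natDegree_X_pow]
      exact i.2.le
    · intro c g
      have e : (H22.WeylS.act (∑ i : Fin d0, (p i).mapRange (fun q =>
          MvPolynomial.C (Polynomial.X ^ (i : ℕ)) * MvPolynomial.map Polynomial.C q)
          (by simp)) c g : MvPolynomial (Fin m) ℂ) =
          ∑ i : Fin d0, c ^ (i : ℕ) • ((p i).sum fun β q => q * H22.diffPow β g) := by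
        unfold H22.WeylS.act
        rw [← Finsupp.sum_finsetSum_index]
        · refine Finset.sum_congr rfl fun i _ => ?_
          rw [Finsupp.sum_mapRange_index]
          · rw [Finsupp.smul_sum]
            refine Finsupp.sum_congr fun β _ => ?_
            rw [rsp_map, smul_mul_assoc]
          · intro β
            rw [map_zero, zero_mul]
        · intro β
          rw [map_zero, zero_mul]
        · intro β q1 q2
          rw [map_add, add_mul]
      rw [e, rsp_coe_sum, hBa, ← Finset.sum_sub_distrib]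
      refine Hi_sum _ _ fun i _ => ?_
      rw [rsp_coe_smul, ← smul_sub, ← hp2]
      exact Hi_smul _ (hW2 i _)

/-- RSP -/
theorem rspf {m : ℕ} (G : MvPowerSeries (Fin m) ℂ) (b : Polynomial ℂ)
    (h : FEq (MvPowerSeries (Fin m) ℂ) G b) :
    ∃ ρ d : ℕ, ∀ (L : ℕ) (f' : MvPolynomial (Fin m) ℂ),
      Hi (L + ρ) ((f' : MvPowerSeries (Fin m) ℂ) - G) →
      ∃ PW : H22.WeylS m, (∀ β ∈ PW.support, (lst β).length ≤ ρ) ∧
        (∀ β u, (MvPolynomial.coeff u (PW β)).natDegree < d) ∧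
        ∀ k : ℕ, HiP L (PW.act (k : ℂ) (f' ^ (k + 1)) -
          MvPolynomial.C (b.eval (k : ℂ)) * f' ^ k) := by
  obtain ⟨B, hB, hBk⟩ := h
  obtain ⟨ρ, d, h1, h2⟩ := rsp hB
  refine ⟨ρ, d, fun L f' hf => ?_⟩
  obtain ⟨PW, a1, a2, a3⟩ := h2 L
  refine ⟨PW, a1, a2, fun k => ?_⟩
  have hpow : ∀ j : ℕ, Hi (L + ρ) ((f' : MvPowerSeries (Fin m) ℂ) ^ j - G ^ j) := by
    intro j
    obtain ⟨q, hq⟩ := sub_dvd_pow_sub_pow (f' : MvPowerSeries (Fin m) ℂ) G j
    rw [hq, mul_comm]
    exact Hi_mul_left q hf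
  have x1 := a3 (k : ℂ) (f' ^ (k + 1))
  rw [MvPolynomial.coe_pow] at x1
  have x2 := h1 (k : ℂ) L _ (hpow (k + 1))
  rw [map_sub, hBk k, one_mul] at x2
  have x3 := Hi_smul (-(b.eval (k : ℂ))) (Hi_mono (Nat.le_add_right L ρ) (hpow k))
  have key := Hi_add (Hi_add (Hi_smul (-1) x1) x2) x3
  intro u hu
  apply key u
  rw [← MvPolynomial.coeff_coe] at hu
  convert hu using 2
  have e1 : ((PW.act (k : ℂ) (f' ^ (k + 1)) - MvPolynomial.C (b.eval (k : ℂ)) * f' ^ k :
      MvPolynomial (Fin m) ℂ) : MvPowerSeries (Fin m) ℂ) =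
      ((PW.act (k : ℂ) (f' ^ (k + 1)) : MvPolynomial (Fin m) ℂ) : MvPowerSeries (Fin m) ℂ) -
        MvPowerSeries.C (b.eval (k : ℂ)) * (f' : MvPowerSeries (Fin m) ℂ) ^ k := by
    rw [← MvPolynomial.coe_C, ← MvPolynomial.coe_pow, ← MvPolynomial.coe_mul]
    exact map_sub (MvPolynomial.coeToMvPowerSeries.ringHom : MvPolynomial (Fin m) ℂ →+* _) _ _
  rw [e1, MvPowerSeries.smul_eq_C_mul, MvPowerSeries.smul_eq_C_mul, MvPowerSeries.smul_eq_C_mul,
    map_neg, map_neg, map_one]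
  ring

end Pool.Agent.H22.T7
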