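import Pool.Agent.H22.T7.DPS

/-!
# RST: restriction to the variables in the range of `ι` (proved)
-/

set_option autoImplicit false

namespace Pool.Agent.H22.T7

open Finset

variable {n m : ℕ}

/-- The coefficient of `γ` in the variables outside the range of `ι`. -/
noncomputable def rst_cf (ι : Fin m ↪ Fin n) (γ : Fin n →₀ ℕ) :
    MvPowerSeries (Fin n) ℂ →ₗ[ℂ] MvPowerSeries (Fin m) ℂ where
  toFun h := fun ρ => MvPowerSeries.coeff (Finsupp.embDomain ι ρ + γ) h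
  map_add' a b := by
    ext ρ
    exact (MvPowerSeries.coeff (R := ℂ) (Finsupp.embDomain ι ρ + γ)).map_add a b
  map_smul' c a := by
    ext ρ
    exact (MvPowerSeries.coeff (R := ℂ) (Finsupp.embDomain ι ρ + γ)).map_smul c a

theorem rst_coeff_cf (ι : Fin m ↪ Fin n) (γ : Fin n →₀ ℕ) (ρ : Fin m →₀ ℕ)
    (h : MvPowerSeries (Fin n) ℂ) :
    MvPowerSeries.coeff ρ (rst_cf ι γ h) =
      MvPowerSeries.coeff (Finsupp.embDomain ι ρ + γ) h := rfl

theorem rst_emb_add (ι : Fin m ↪ Fin n) (ρ ρ' : Fin m →₀ ℕ) :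
    Finsupp.embDomain ι (ρ + ρ') = Finsupp.embDomain ι ρ + Finsupp.embDomain ι ρ' := by
  simp only [Finsupp.embDomain_eq_mapDomain, Finsupp.mapDomain_add]

/-- The restriction of an exponent to the range. -/
noncomputable def rst_res (ι : Fin m ↪ Fin n) (p : Fin n →₀ ℕ) : Fin m →₀ ℕ :=
  Finsupp.equivFunOnFinite.symm fun x => p (ι x)

open Classical in
/-- The part of an exponent outside the range. -/
noncomputable def rst_off (ι : Fin m ↪ Fin n) (p : Fin n →₀ ℕ) : Fin n →₀ ℕ :=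
  Finsupp.equivFunOnFinite.symm fun j => if j ∈ Set.range ι then 0 else p j

theorem rst_res_apply (ι : Fin m ↪ Fin n) (p : Fin n →₀ ℕ) (x : Fin m) :
    rst_res ι p x = p (ι x) := rfl

open Classical in
theorem rst_off_apply (ι : Fin m ↪ Fin n) (p : Fin n →₀ ℕ) (j : Fin n) :
    rst_off ι p j = if j ∈ Set.range ι then 0 else p j := rfl

theorem rst_dec (ι : Fin m ↪ Fin n) (p : Fin n →₀ ℕ) :
    Finsupp.embDomain ι (rst_res ι p) + rst_off ι p = p := by
  classical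
  ext j
  rw [Finsupp.add_apply, rst_off_apply]
  by_cases hj : j ∈ Set.range ι
  · obtain ⟨x, rfl⟩ := hj
    rw [Finsupp.embDomain_apply_self, rst_res_apply, if_pos ⟨x, rfl⟩, add_zero]
  · rw [Finsupp.embDomain_of_notMem_range _ _ _ hj, if_neg hj, zero_add]

theorem rst_res_emb (ι : Fin m ↪ Fin n) (ρ : Fin m →₀ ℕ) (γ : Fin n →₀ ℕ)
    (hγ : ∀ x, γ (ι x) = 0) : rst_res ι (Finsupp.embDomain ι ρ + γ) = ρ := by
  ext x
  rw [rst_res_apply, Finsupp.add_apply, Finsupp.embDomain_apply_self, hγ, add_zero]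

theorem rst_off_emb (ι : Fin m ↪ Fin n) (ρ : Fin m →₀ ℕ) (γ : Fin n →₀ ℕ)
    (hγ : ∀ x, γ (ι x) = 0) : rst_off ι (Finsupp.embDomain ι ρ + γ) = γ := by
  classical
  ext j
  rw [rst_off_apply]
  by_cases hj : j ∈ Set.range ι
  · obtain ⟨x, rfl⟩ := hj
    rw [if_pos ⟨x, rfl⟩, hγ]
  · rw [if_neg hj, Finsupp.add_apply, Finsupp.embDomain_of_notMem_range _ _ _ hj, zero_add]

theorem rst_off_range (ι : Fin m ↪ Fin n) (p : Fin n →₀ ℕ) (x : Fin m) :
    rst_off ι p (ι x) = 0 := by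
  classical
  rw [rst_off_apply, if_pos ⟨x, rfl⟩]

theorem rst_res_add (ι : Fin m ↪ Fin n) (p q : Fin n →₀ ℕ) :
    rst_res ι (p + q) = rst_res ι p + rst_res ι q := by
  ext x
  rfl

theorem rst_off_add (ι : Fin m ↪ Fin n) (p q : Fin n →₀ ℕ) :
    rst_off ι (p + q) = rst_off ι p + rst_off ι q := by
  classical
  ext j
  rw [Finsupp.add_apply, rst_off_apply, rst_off_apply, rst_off_apply]
  split_ifs <;> simp

/-- (1) -/
theorem rst_cf_mul (ι : Fin m ↪ Fin n) (γ : Fin n →₀ ℕ) (hγ : ∀ x, γ (ι x) = 0)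
    (g h : MvPowerSeries (Fin n) ℂ) :
    rst_cf ι γ (g * h) = ∑ p ∈ antidiagonal γ, rst_cf ι p.1 g * rst_cf ι p.2 h := by
  classical
  ext ρ
  rw [rst_coeff_cf, MvPowerSeries.coeff_mul, map_sum]
  simp only [MvPowerSeries.coeff_mul, rst_coeff_cf]
  rw [← Finset.sum_product' (antidiagonal γ) (antidiagonal ρ)
    (fun (p : (Fin n →₀ ℕ) × (Fin n →₀ ℕ)) (q : (Fin m →₀ ℕ) × (Fin m →₀ ℕ)) =>
      MvPowerSeries.coeff (Finsupp.embDomain ι q.1 + p.1) g *
        MvPowerSeries.coeff (Finsupp.embDomain ι q.2 + p.2) h)]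
  symm
  refine Finset.sum_bij'
    (fun x _ => (Finsupp.embDomain ι x.2.1 + x.1.1, Finsupp.embDomain ι x.2.2 + x.1.2))
    (fun y _ => ((rst_off ι y.1, rst_off ι y.2), (rst_res ι y.1, rst_res ι y.2)))
    ?_ ?_ ?_ ?_ ?_
  · rintro ⟨⟨a, b⟩, ⟨c, d⟩⟩ hx
    rw [mem_product, HasAntidiagonal.mem_antidiagonal, HasAntidiagonal.mem_antidiagonal] at hx
    rw [HasAntidiagonal.mem_antidiagonal]
    simp only at hx ⊢
    rw [← hx.1, ← hx.2, rst_emb_add]
    abel
  · rintro ⟨a, b⟩ hy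
    rw [HasAntidiagonal.mem_antidiagonal] at hy
    simp only at hy
    rw [mem_product, HasAntidiagonal.mem_antidiagonal, HasAntidiagonal.mem_antidiagonal]
    simp only
    rw [← rst_off_add, ← rst_res_add, hy]
    exact ⟨rst_off_emb ι ρ γ hγ, rst_res_emb ι ρ γ hγ⟩
  · rintro ⟨⟨a, b⟩, ⟨c, d⟩⟩ hx
    rw [mem_product, HasAntidiagonal.mem_antidiagonal, HasAntidiagonal.mem_antidiagonal] at hx
    simp only at hx ⊢
    have ha : ∀ x, a (ι x) = 0 := fun x => by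
      have h1 := hγ x
      rw [← hx.1, Finsupp.add_apply] at h1
      omega
    have hb : ∀ x, b (ι x) = 0 := fun x => by
      have h1 := hγ x
      rw [← hx.1, Finsupp.add_apply] at h1
      omega
    rw [rst_off_emb ι c a ha, rst_off_emb ι d b hb, rst_res_emb ι c a ha, rst_res_emb ι d b hb]
  · rintro ⟨a, b⟩ _
    simp only [rst_dec]
  · rintro ⟨⟨a, b⟩, ⟨c, d⟩⟩ _
    rfl

/-- (2), in the range -/
theorem rst_cf_pderiv (ι : Fin m ↪ Fin n) (γ : Fin n →₀ ℕ) (hγ : ∀ x, γ (ι x) = 0) (x : Fin m)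
    (h : MvPowerSeries (Fin n) ℂ) :
    rst_cf ι γ (MvPowerSeries.pderiv ℂ (ι x) h) = MvPowerSeries.pderiv ℂ x (rst_cf ι γ h) := by
  ext ρ
  rw [rst_coeff_cf, MvPowerSeries.coeff_pderiv, MvPowerSeries.coeff_pderiv, rst_coeff_cf,
    Finsupp.add_apply, Finsupp.embDomain_apply_self, hγ, add_zero, rst_emb_add,
    Finsupp.embDomain_single]
  have h1 : Finsupp.embDomain ι ρ + γ + Finsupp.single (ι x) 1 =
      Finsupp.embDomain ι ρ + Finsupp.single (ι x) 1 + γ := by abel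
  rw [h1]

/-- (2), outside the range -/
theorem rst_cf_pderiv_off (ι : Fin m ↪ Fin n) (γ : Fin n →₀ ℕ) (j : Fin n)
    (hj : j ∉ Set.range ι) (h : MvPowerSeries (Fin n) ℂ) :
    rst_cf ι γ (MvPowerSeries.pderiv ℂ j h) =
      ((γ j : ℂ) + 1) • rst_cf ι (γ + Finsupp.single j 1) h := by
  ext ρ
  rw [rst_coeff_cf, MvPowerSeries.coeff_pderiv, MvPowerSeries.coeff_smul, rst_coeff_cf,
    Finsupp.add_apply, Finsupp.embDomain_of_notMem_range _ _ _ hj, zero_add, ← add_assoc,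
    mul_comm]

/-- (3) -/
theorem rst_cf_rename_zero (ι : Fin m ↪ Fin n) (g : MvPowerSeries (Fin m) ℂ) :
    rst_cf ι 0 (MvPowerSeries.rename ι g) = g := by
  ext ρ
  rw [rst_coeff_cf, add_zero, MvPowerSeries.coeff_embDomain_rename]

theorem rst_cf_rename_ne (ι : Fin m ↪ Fin n) (γ : Fin n →₀ ℕ) (hγ : ∀ x, γ (ι x) = 0)
    (h0 : γ ≠ 0) (g : MvPowerSeries (Fin m) ℂ) :
    rst_cf ι γ (MvPowerSeries.rename ι g) = 0 := by
  ext ρ
  rw [rst_coeff_cf, map_zero]
  refine MvPowerSeries.coeff_rename_eq_zero _ _ ?_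
  rintro ⟨u, hu⟩
  apply h0
  rw [← Finsupp.embDomain_eq_mapDomain] at hu
  ext j
  by_cases hj : j ∈ Set.range ι
  · obtain ⟨x, rfl⟩ := hj
    exact hγ x
  · have h1 := DFunLike.congr_fun hu j
    rw [Finsupp.add_apply, Finsupp.embDomain_of_notMem_range _ _ _ hj,
      Finsupp.embDomain_of_notMem_range _ _ _ hj, zero_add] at h1
    exact h1.symm

/-- (4) -/
theorem rst_claim (ι : Fin m ↪ Fin n) : ∀ D ∈ Diff (MvPowerSeries (Fin n) ℂ),
    ∀ γ : Fin n →₀ ℕ, (∀ x, γ (ι x) = 0) →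
      (rst_cf ι γ ∘ₗ D ∘ₗ (MvPowerSeries.rename ι :
        MvPowerSeries (Fin m) ℂ →ₐ[ℂ] MvPowerSeries (Fin n) ℂ).toLinearMap) ∈
          Diff (MvPowerSeries (Fin m) ℂ) := by
  classical
  refine Diff_ind ?_ ?_ ?_ ?_ ?_
  · intro γ hγ
    by_cases h0 : γ = 0
    · subst h0
      have h1 : (rst_cf ι 0 ∘ₗ (1 : Module.End ℂ (MvPowerSeries (Fin n) ℂ)) ∘ₗ
          (MvPowerSeries.rename ι :
            MvPowerSeries (Fin m) ℂ →ₐ[ℂ] MvPowerSeries (Fin n) ℂ).toLinearMap) = 1 := by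
        refine LinearMap.ext fun g => ?_
        exact rst_cf_rename_zero ι g
      rw [h1]
      exact one_mem _
    · have h1 : (rst_cf ι γ ∘ₗ (1 : Module.End ℂ (MvPowerSeries (Fin n) ℂ)) ∘ₗ
          (MvPowerSeries.rename ι :
            MvPowerSeries (Fin m) ℂ →ₐ[ℂ] MvPowerSeries (Fin n) ℂ).toLinearMap) = 0 := by
        refine LinearMap.ext fun g => ?_
        exact rst_cf_rename_ne ι γ hγ h0 g
      rw [h1]
      exact zero_mem _
  · intro D E hD hE γ hγ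
    have h1 := add_mem (hD γ hγ) (hE γ hγ)
    rw [LinearMap.add_comp, LinearMap.comp_add]
    exact h1
  · intro c D hD γ hγ
    have h1 := Subalgebra.smul_mem _ (hD γ hγ) c
    rw [LinearMap.smul_comp, LinearMap.comp_smul]
    exact h1
  · intro a D hD γ hγ
    have h1 : (rst_cf ι γ ∘ₗ (LinearMap.mulLeft ℂ a * D) ∘ₗ
        (MvPowerSeries.rename ι :
          MvPowerSeries (Fin m) ℂ →ₐ[ℂ] MvPowerSeries (Fin n) ℂ).toLinearMap) =
        ∑ p ∈ antidiagonal γ, LinearMap.mulLeft ℂ (rst_cf ι p.1 a) *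
          (rst_cf ι p.2 ∘ₗ D ∘ₗ (MvPowerSeries.rename ι :
            MvPowerSeries (Fin m) ℂ →ₐ[ℂ] MvPowerSeries (Fin n) ℂ).toLinearMap) := by
      refine LinearMap.ext fun g => ?_
      rw [LinearMap.sum_apply]
      exact rst_cf_mul ι γ hγ _ _
    rw [h1]
    refine sum_mem fun p hp => mul_mem (mulLeft_mem _) (hD p.2 fun x => ?_)
    rw [HasAntidiagonal.mem_antidiagonal] at hp
    have h2 := hγ x
    rw [← hp, Finsupp.add_apply] at h2
    omega
  · intro δ D hD γ hγ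
    have h1 : (rst_cf ι γ ∘ₗ (δ.toLinearMap * D) ∘ₗ
        (MvPowerSeries.rename ι :
          MvPowerSeries (Fin m) ℂ →ₐ[ℂ] MvPowerSeries (Fin n) ℂ).toLinearMap) =
        ∑ j, ∑ p ∈ antidiagonal γ, LinearMap.mulLeft ℂ (rst_cf ι p.1 (δ (MvPowerSeries.X j))) *
          (rst_cf ι p.2 ∘ₗ ((MvPowerSeries.pderiv ℂ j : Derivation ℂ (MvPowerSeries (Fin n) ℂ)
            (MvPowerSeries (Fin n) ℂ)).toLinearMap * D) ∘ₗ (MvPowerSeries.rename ι :
            MvPowerSeries (Fin m) ℂ →ₐ[ℂ] MvPowerSeries (Fin n) ℂ).toLinearMap) := by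
      refine LinearMap.ext fun g => ?_
      have h2 : δ (D (MvPowerSeries.rename ι g)) = ∑ j, δ (MvPowerSeries.X j) *
          MvPowerSeries.pderiv ℂ j (D (MvPowerSeries.rename ι g)) := dps δ _
      have h3 : (rst_cf ι γ) (δ (D (MvPowerSeries.rename ι g))) =
          ∑ j, ∑ p ∈ antidiagonal γ, rst_cf ι p.1 (δ (MvPowerSeries.X j)) *
            rst_cf ι p.2 (MvPowerSeries.pderiv ℂ j (D (MvPowerSeries.rename ι g))) := by
        rw [h2, map_sum]
        exact Finset.sum_congr rfl fun j _ => rst_cf_mul ι γ hγ _ _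
      rw [LinearMap.sum_apply]
      simp only [LinearMap.sum_apply]
      exact h3
    rw [h1]
    refine sum_mem fun j _ => sum_mem fun p hp => mul_mem (mulLeft_mem _) ?_
    have hp2 : ∀ x, p.2 (ι x) = 0 := fun x => by
      rw [HasAntidiagonal.mem_antidiagonal] at hp
      have h2 := hγ x
      rw [← hp, Finsupp.add_apply] at h2
      omega
    by_cases hj : j ∈ Set.range ι
    · obtain ⟨x, rfl⟩ := hj
      have h2 : (rst_cf ι p.2 ∘ₗ ((MvPowerSeries.pderiv ℂ (ι x) :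
            Derivation ℂ (MvPowerSeries (Fin n) ℂ)
            (MvPowerSeries (Fin n) ℂ)).toLinearMap * D) ∘ₗ (MvPowerSeries.rename ι :
            MvPowerSeries (Fin m) ℂ →ₐ[ℂ] MvPowerSeries (Fin n) ℂ).toLinearMap) =
          (MvPowerSeries.pderiv ℂ x : Derivation ℂ (MvPowerSeries (Fin m) ℂ)
            (MvPowerSeries (Fin m) ℂ)).toLinearMap * (rst_cf ι p.2 ∘ₗ D ∘ₗ
              (MvPowerSeries.rename ι :
            MvPowerSeries (Fin m) ℂ →ₐ[ℂ] MvPowerSeries (Fin n) ℂ).toLinearMap) := by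
        refine LinearMap.ext fun g => ?_
        exact rst_cf_pderiv ι p.2 hp2 x _
      rw [h2]
      exact mul_mem (der_mem _) (hD p.2 hp2)
    · have h2 : (rst_cf ι p.2 ∘ₗ ((MvPowerSeries.pderiv ℂ j :
            Derivation ℂ (MvPowerSeries (Fin n) ℂ)
            (MvPowerSeries (Fin n) ℂ)).toLinearMap * D) ∘ₗ (MvPowerSeries.rename ι :
            MvPowerSeries (Fin m) ℂ →ₐ[ℂ] MvPowerSeries (Fin n) ℂ).toLinearMap) =
          ((p.2 j : ℂ) + 1) • (rst_cf ι (p.2 + Finsupp.single j 1) ∘ₗ D ∘ₗ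
              (MvPowerSeries.rename ι :
            MvPowerSeries (Fin m) ℂ →ₐ[ℂ] MvPowerSeries (Fin n) ℂ).toLinearMap) := by
        refine LinearMap.ext fun g => ?_
        exact rst_cf_pderiv_off ι p.2 j hj _
      rw [h2]
      refine Subalgebra.smul_mem _ (hD _ fun x => ?_) _
      rw [Finsupp.add_apply, hp2, zero_add, Finsupp.single_apply, if_neg]
      rintro rfl
      exact hj ⟨x, rfl⟩

/-- RST -/
theorem rst {n m : ℕ} (ι : Fin m ↪ Fin n) (G : MvPowerSeries (Fin m) ℂ)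
    (V : MvPowerSeries (Fin n) ℂ) (hV : V ≠ 0)
    (hV2 : ∀ ρ, MvPowerSeries.coeff ρ V ≠ 0 → ∀ x, ρ (ι x) = 0) (b : Polynomial ℂ)
    (h : FEqV (MvPowerSeries (Fin n) ℂ) (MvPowerSeries.rename ι G) V b) :
    FEq (MvPowerSeries (Fin m) ℂ) G b := by
  classical
  obtain ⟨γ, hγ⟩ : ∃ γ, MvPowerSeries.coeff γ V ≠ 0 := by
    by_contra! hno
    exact hV (MvPowerSeries.ext fun γ => by rw [hno γ, map_zero])
  set v : ℂ := MvPowerSeries.coeff γ V with hv
  have hγ0 : ∀ x, γ (ι x) = 0 := hV2 γ hγ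
  have hcV : rst_cf ι γ V = MvPowerSeries.C v := by
    ext ρ
    rw [rst_coeff_cf, MvPowerSeries.coeff_C]
    split_ifs with h0
    · rw [h0, Finsupp.embDomain_zero, zero_add]
    · by_contra h1
      apply h0
      ext x
      have h2 := hV2 _ h1 x
      rw [Finsupp.add_apply, Finsupp.embDomain_apply_self] at h2
      simp only [Finsupp.coe_zero, Pi.zero_apply]
      omega
  have hcVg : ∀ g : MvPowerSeries (Fin m) ℂ,
      rst_cf ι γ (V * MvPowerSeries.rename ι g) = v • g := by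
    intro g
    rw [rst_cf_mul ι γ hγ0, Finset.sum_eq_single (γ, 0)]
    · rw [rst_cf_rename_zero, hcV, MvPowerSeries.smul_eq_C_mul]
    · rintro ⟨α, β⟩ hp hne
      rw [HasAntidiagonal.mem_antidiagonal] at hp
      simp only at hp ⊢
      have hβ : β ≠ 0 := by
        rintro rfl
        apply hne
        rw [add_zero] at hp
        rw [hp]
      have hβ0 : ∀ x, β (ι x) = 0 := fun x => by
        have h2 := hγ0 x
        rw [← hp, Finsupp.add_apply] at h2
        omega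
      rw [rst_cf_rename_ne ι β hβ0 hβ, mul_zero]
    · intro hno
      exact absurd (by rw [HasAntidiagonal.mem_antidiagonal, add_zero]) hno
  obtain ⟨B, hB, hBk⟩ := h
  obtain ⟨d, D, hD, hBD⟩ := (PF_iff B).1 hB
  refine ⟨fun c => ∑ i : Fin d, c ^ (i : ℕ) • (v⁻¹ • (rst_cf ι γ ∘ₗ D i ∘ₗ
    (MvPowerSeries.rename ι :
      MvPowerSeries (Fin m) ℂ →ₐ[ℂ] MvPowerSeries (Fin n) ℂ).toLinearMap)), ?_, ?_⟩
  · exact (PF_iff _).2 ⟨d, _, fun i => Subalgebra.smul_mem _ (rst_claim ι (D i) (hD i) γ hγ0) _,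
      fun c => rfl⟩
  · intro k
    have h1 : (∑ i : Fin d, (k : ℂ) ^ (i : ℕ) • (v⁻¹ • (rst_cf ι γ ∘ₗ D i ∘ₗ
        (MvPowerSeries.rename ι :
          MvPowerSeries (Fin m) ℂ →ₐ[ℂ] MvPowerSeries (Fin n) ℂ).toLinearMap))) (G ^ (k + 1)) =
        v⁻¹ • rst_cf ι γ (B (k : ℂ) ((MvPowerSeries.rename ι G) ^ (k + 1))) := by
      rw [hBD, LinearMap.sum_apply, LinearMap.sum_apply, map_sum, Finset.smul_sum]
      refine Finset.sum_congr rfl fun i _ => ?_
      rw [LinearMap.smul_apply, LinearMap.smul_apply, LinearMap.smul_apply, map_smul,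
        smul_comm, ← map_pow]
      rfl
    rw [h1, hBk k, map_smul, ← map_pow, hcVg, one_mul, smul_comm (b.eval (k : ℂ)) v, smul_smul,
      inv_mul_cancel₀ hγ, one_smul]

end Pool.Agent.H22.T7
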