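import Pool.Agent.H22.T7.CJ

/-!
# QF: the value at `-1`

Proof.  `pol_zero`: let `p : Polynomial R` with `p.eval (k : R) = 0` for infinitely many `k ∈ ℕ`; `R` is a domain containing `ℂ`, so `p = 0`
(`Polynomial.eq_zero_of_infinite_isRoot`, the casts `ℕ → R` are injective: `algebraMap ℂ R` is injective).
`ev_pol`: for `B ∈ PF R` and `h : R` there is `p : Polynomial R` with `B c h = p.eval (algebraMap ℂ R c)` for all `c` (`PF_iff`: `p = ∑_i C (D_i h) X^i`).
`qf`: put `B1 c = B (c - 1)` (`PF_aff`), and take `M`, `B'` from `conj hB1 G`, with `h = 1`: `G^M B1 j (G^j) = G^j B' j 1` for all `j`.  For `j = k + 1`: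
`G^j B' j 1 = G^M B k (G^{k+1}) = b(k) G^{M+k}`, so (cancel `G^k`) `G B' j 1 = b(j-1) G^M` for all `j ≥ 1`.  Both sides are polynomials in `j`
(`ev_pol`), so this holds for `j = 0` too: `G B' 0 1 = b(-1) G^M`.  And `j = 0` above: `G^M B(-1) 1 = B' 0 1`.  So `G^{M+1} B(-1) 1 = b(-1) G^M`,
`G (B(-1) 1) = b(-1)` (in `R`).  `G` is not a unit, so `b(-1) = 0`, and then `B(-1) 1 = 0` since `G ≠ 0`.
-/

set_option autoImplicit false

namespace Pool.Agent.H22.T7

open Finset

variable {R : Type} [CommRing R] [IsDomain R] [Algebra ℂ R]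

theorem pol_zero (p : Polynomial R) (N : ℕ) (hN : 0 < N)
    (h : ∀ k : ℕ, p.eval (((N * k : ℕ) : R)) = 0) : p = 0 := by
  have : CharZero R := charZero_of_injective_algebraMap (algebraMap ℂ R).injective
  apply Polynomial.eq_zero_of_infinite_isRoot
  have hinj : Function.Injective (fun k : ℕ => ((N * k : ℕ) : R)) := by
    intro k l hkl
    have h1 : N * k = N * l := Nat.cast_injective (R := R) hkl
    exact Nat.eq_of_mul_eq_mul_left hN h1
  refine (Set.infinite_range_of_injective hinj).mono ?_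
  rintro _ ⟨k, rfl⟩
  exact h k

omit [IsDomain R] in
theorem ev_pol {B : ℂ → Module.End ℂ R} (hB : B ∈ PF R) (h : R) :
    ∃ p : Polynomial R, ∀ c : ℂ, B c h = p.eval (algebraMap ℂ R c) := by
  obtain ⟨d, D, _, hD⟩ := (PF_iff B).1 hB
  refine ⟨∑ i : Fin d, Polynomial.C (D i h) * Polynomial.X ^ (i : ℕ), fun c => ?_⟩
  rw [hD c, LinearMap.sum_apply, Polynomial.eval_finsetSum]
  refine Finset.sum_congr rfl fun i _ => ?_
  rw [LinearMap.smul_apply, Polynomial.eval_mul, Polynomial.eval_C, Polynomial.eval_pow,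
    Polynomial.eval_X, Algebra.smul_def, map_pow, mul_comm]

/-- QF -/
theorem qf (G : R) (hG0 : G ≠ 0) (hG : ¬ IsUnit G) (b : Polynomial ℂ)
    {B : ℂ → Module.End ℂ R} (hB : B ∈ PF R)
    (h : ∀ k : ℕ, B (k : ℂ) (G ^ (k + 1)) = b.eval (k : ℂ) • G ^ k) :
    b.eval (-1) = 0 ∧ B (-1) 1 = 0 := by
  have hB1 : (fun c => B (1 * c + -1)) ∈ PF R := PF_aff hB 1 (-1)
  obtain ⟨M, B', hB', hc⟩ := conj hB1 G
  obtain ⟨q, hq⟩ := ev_pol hB' 1
  -- the identity for `j = k + 1`
  have h1 : ∀ k : ℕ, G * B' ((k + 1 : ℕ) : ℂ) 1 = G ^ M * algebraMap ℂ R (b.eval (k : ℂ)) := by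
    intro k
    have h2 := hc (k + 1) 1
    have h3 : (1 : ℂ) * ((k + 1 : ℕ) : ℂ) + -1 = (k : ℂ) := by push_cast; ring
    rw [h3, one_mul] at h2
    rw [h k, Algebra.smul_def] at h2
    have h4 : G ^ k ≠ 0 := pow_ne_zero _ hG0
    apply mul_left_cancel₀ h4
    rw [pow_succ] at h2
    linear_combination -h2
  set P : Polynomial R := Polynomial.C G * q -
    Polynomial.C (G ^ M) * (b.map (algebraMap ℂ R)).comp (Polynomial.X - 1) with hP
  have h5 : P.comp (Polynomial.X + 1) = 0 := by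
    refine pol_zero _ 1 Nat.one_pos fun k => ?_
    rw [Polynomial.eval_comp]
    have h6 : (Polynomial.X + 1 : Polynomial R).eval (((1 * k : ℕ) : R)) =
        algebraMap ℂ R (((k + 1 : ℕ) : ℂ)) := by
      simp
    rw [h6, hP, Polynomial.eval_sub, Polynomial.eval_mul, Polynomial.eval_C, Polynomial.eval_mul,
      Polynomial.eval_C, Polynomial.eval_comp, ← hq, h1 k]
    have h7 : (Polynomial.X - 1 : Polynomial R).eval (algebraMap ℂ R (((k + 1 : ℕ) : ℂ))) =
        algebraMap ℂ R (k : ℂ) := by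
      simp
    rw [h7, Polynomial.eval_map_algebraMap, Polynomial.aeval_algebraMap_apply]
    simp
  have h8 : P.eval 0 = 0 := by
    have h9 : (P.comp (Polynomial.X + 1)).eval (-1) = P.eval 0 := by
      rw [Polynomial.eval_comp]; simp
    rw [← h9, h5, Polynomial.eval_zero]
  have h10 : G * B' 0 1 = G ^ M * algebraMap ℂ R (b.eval (-1)) := by
    rw [hP, Polynomial.eval_sub, Polynomial.eval_mul, Polynomial.eval_C, Polynomial.eval_mul,
      Polynomial.eval_C, Polynomial.eval_comp] at h8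
    have h11 : (Polynomial.X - 1 : Polynomial R).eval 0 = algebraMap ℂ R (-1) := by simp
    have h12 : q.eval 0 = B' 0 1 := by rw [hq 0, map_zero]
    rw [h11, h12, Polynomial.eval_map_algebraMap, Polynomial.aeval_algebraMap_apply] at h8
    have h13 := sub_eq_zero.1 h8
    rw [h13]
    simp
  have h14 := hc 0 1
  simp only [Nat.cast_zero, mul_zero, zero_add, one_mul, pow_zero] at h14
  rw [← h14] at h10
  have h15 : G * B (-1) 1 = algebraMap ℂ R (b.eval (-1)) := by
    apply mul_left_cancel₀ (pow_ne_zero M hG0)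
    linear_combination h10
  have h16 : b.eval (-1) = 0 := by
    by_contra hne
    apply hG
    refine IsUnit.of_mul_eq_one (B (-1) 1 * algebraMap ℂ R (b.eval (-1))⁻¹) ?_
    rw [← mul_assoc, h15, ← map_mul, mul_inv_cancel₀ hne, map_one]
  refine ⟨h16, ?_⟩
  rw [h16, map_zero] at h15
  exact (mul_eq_zero.1 h15).resolve_left hG0

end Pool.Agent.H22.T7
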