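import Pool.Agent.H22.T7.SUA
import Pool.Agent.H22.T7.QF

/-!
# SUB: the functional equation of `G + ∑ u_k v_k`

Write `g` for `rename inl g`, `Q = rename inr (QQ e)`, `F = G + Q` (`sus_eq`), `[g, q] = g Q^q`.
Proof.  `B ∈ PF`, `B k (G^{k+1}) = (k+1) bt(k) G^k`.  By `qf` (with `b = (X+1) bt`): `B (-1) 1 = 0`.  `B c = ∑_i c^i • D_i` (`PF_iff`), `D_i'` from `ext`, `Θ`, `Δ` from `sua`.
`A c = ∑_i (c • 1 - Θ)^i * D_i'`, in `PF`.  `D_i' [g, q] = [D_i g, q]` (`Q^q = rename inr (QQ^q)`), `(c • 1 - Θ) [g, q] = (c - q) [g, q]`, so `A c [g, q] = [B (c - q) g, q]`.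
`F^{k+1} = ∑_{q ≤ k+1} binom(k+1, q) [G^{k+1-q}, q]` (`add_pow`).  `A k F^{k+1} = ∑_q binom(k+1,q) [B (k-q) G^{k+1-q}, q]`; `q = k+1` gives `B (-1) 1 = 0`; for `q ≤ k`:
`B (k-q) G^{(k-q)+1} = (k-q+1) bt(k-q) G^{k-q}` and `binom(k+1,q) (k+1-q) = (k+1) binom(k,q)` (`Nat.add_one_mul_choose_eq`-type).  So
`A k F^{k+1} = (k+1) ∑_{q ≤ k} binom(k,q) bt(k-q) [G^{k-q}, q] = (k+1) bt(Λ_k) F^k` with `Λ_c = c • 1 - Θ`, `bt(Λ) = aeval Λ bt` (`aeval Λ_c bt [g,q] = bt(c-q) [g,q]`).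
`Δ F^{k+1} = ∑_{q ≥ 1} binom(k+1,q) q (q-1+e) [G^{k+1-q}, q-1] = (k+1) ∑_{q ≤ k} binom(k,q) (q+e) [G^{k-q}, q]` (`binom(k+1,q+1)(q+1) = (k+1) binom(k,q)`) `= (k+1) (Θ + e) F^k`.
With `K_c = (c+e) • 1`, `K_c - Λ_c = e • 1 + Θ`; `K_c` and `Λ_c` commute, so `bt(K_c) - bt(Λ_c) = C_c (K_c - Λ_c)`, `C_c = ∑_i bt_i ∑_{l<i} K_c^l Λ_c^{i-1-l}` (`Commute.mul_geom_sum₂`,
or prove: for every polynomial `p` there is `C ∈ PF` with `p(K_c) - p(Λ_c) = C c * (K_c - Λ_c)`, by induction on `p`).  `bt(K_c) = bt(c+e) • 1`.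
`P c = A c + C_c * Δ` is in `PF`: `P k F^{k+1} = (k+1) bt(Λ_k) F^k + (k+1) C_k (K_k - Λ_k) F^k = (k+1) bt(k+e) F^k`.
-/

set_option autoImplicit false

namespace Pool.Agent.H22.T7

open Finset

section

variable {m e : ℕ} {Θ : Module.End ℂ (MvPowerSeries (Fin m ⊕ (Fin e ⊕ Fin e)) ℂ)}

/-- `[g, q] = g Q^q`. -/
noncomputable def sub_W (m e : ℕ) (g : MvPowerSeries (Fin m) ℂ) (q : ℕ) :
    MvPowerSeries (Fin m ⊕ (Fin e ⊕ Fin e)) ℂ :=
  MvPowerSeries.rename Sum.inl g * (MvPowerSeries.rename Sum.inr (QQ e)) ^ q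

theorem sub_W_smul (c : ℂ) (g : MvPowerSeries (Fin m) ℂ) (q : ℕ) :
    sub_W m e (c • g) q = c • sub_W m e g q := by
  unfold sub_W
  rw [map_smul, smul_mul_assoc]

theorem sub_W_zero (q : ℕ) : sub_W m e 0 q = 0 := by
  unfold sub_W
  rw [map_zero, zero_mul]

theorem sub_W_sum {α : Type} (s : Finset α) (f : α → MvPowerSeries (Fin m) ℂ) (q : ℕ) :
    sub_W m e (∑ i ∈ s, f i) q = ∑ i ∈ s, sub_W m e (f i) q := by
  unfold sub_W
  rw [map_sum, sum_mul]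

theorem sub_pow (G : MvPowerSeries (Fin m) ℂ) (k : ℕ) :
    (sus G e) ^ k = ∑ q ∈ range (k + 1), ((k.choose q : ℕ) : ℂ) • sub_W m e (G ^ (k - q)) q := by
  rw [sus_eq, add_comm, add_pow]
  refine sum_congr rfl fun q _ => ?_
  unfold sub_W
  rw [Nat.cast_smul_eq_nsmul, nsmul_eq_mul, map_pow]
  ring

/-- The family `c ↦ c • 1 - Θ`. -/
noncomputable def sub_Lam (Θ : Module.End ℂ (MvPowerSeries (Fin m ⊕ (Fin e ⊕ Fin e)) ℂ)) :
    ℂ → Module.End ℂ (MvPowerSeries (Fin m ⊕ (Fin e ⊕ Fin e)) ℂ) :=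
  fun c => c • (1 : Module.End ℂ _) - Θ

theorem sub_Lam_mem (hΘ : Θ ∈ Diff (MvPowerSeries (Fin m ⊕ (Fin e ⊕ Fin e)) ℂ)) :
    sub_Lam Θ ∈ PF (MvPowerSeries (Fin m ⊕ (Fin e ⊕ Fin e)) ℂ) := by
  have h := Subalgebra.sub_mem _ (id_mem (R := MvPowerSeries (Fin m ⊕ (Fin e ⊕ Fin e)) ℂ))
    (const_mem hΘ)
  exact h

theorem sub_Lam_W (hΘ1 : ∀ (g : MvPowerSeries (Fin m) ℂ) (q : ℕ),
      Θ (sub_W m e g q) = (q : ℂ) • sub_W m e g q) (c : ℂ) (g : MvPowerSeries (Fin m) ℂ) (q : ℕ) :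
    sub_Lam Θ c (sub_W m e g q) = (c - q) • sub_W m e g q := by
  show (c • (1 : Module.End ℂ (MvPowerSeries (Fin m ⊕ (Fin e ⊕ Fin e)) ℂ)) - Θ)
    (sub_W m e g q) = _
  rw [LinearMap.sub_apply, LinearMap.smul_apply, Module.End.one_apply, hΘ1, sub_smul]

theorem sub_Lam_pow (hΘ1 : ∀ (g : MvPowerSeries (Fin m) ℂ) (q : ℕ),
      Θ (sub_W m e g q) = (q : ℂ) • sub_W m e g q) (c : ℂ) (g : MvPowerSeries (Fin m) ℂ) (q : ℕ)
    (i : ℕ) : ((sub_Lam Θ c) ^ i) (sub_W m e g q) = (c - q) ^ i • sub_W m e g q := by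
  induction i with
  | zero => simp
  | succ i ih =>
    rw [pow_succ, Module.End.mul_apply, sub_Lam_W hΘ1, map_smul, ih, smul_smul, pow_succ]
    congr 1
    ring

theorem sub_L1 (hΘ : Θ ∈ Diff (MvPowerSeries (Fin m ⊕ (Fin e ⊕ Fin e)) ℂ))
    (hΘ1 : ∀ (g : MvPowerSeries (Fin m) ℂ) (q : ℕ),
      Θ (sub_W m e g q) = (q : ℂ) • sub_W m e g q) (p : Polynomial ℂ) :
    ∃ E ∈ PF (MvPowerSeries (Fin m ⊕ (Fin e ⊕ Fin e)) ℂ), ∀ c g q,
      E c (sub_W m e g q) = p.eval (c - q) • sub_W m e g q := by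
  induction p using Polynomial.induction_on' with
  | add p p' hp hp' =>
    obtain ⟨E, hE, hE1⟩ := hp
    obtain ⟨E', hE', hE1'⟩ := hp'
    refine ⟨E + E', (PF _).add_mem hE hE', fun c g q => ?_⟩
    rw [Pi.add_apply, LinearMap.add_apply, hE1, hE1', Polynomial.eval_add, add_smul]
  | monomial k a =>
    refine ⟨a • (sub_Lam Θ) ^ k, (PF _).smul_mem ((PF _).pow_mem (sub_Lam_mem hΘ) k) a,
      fun c g q => ?_⟩
    rw [Pi.smul_apply, Pi.pow_apply, LinearMap.smul_apply, sub_Lam_pow hΘ1, smul_smul,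
      Polynomial.eval_monomial]

theorem sub_L2 (hΘ : Θ ∈ Diff (MvPowerSeries (Fin m ⊕ (Fin e ⊕ Fin e)) ℂ))
    (hΘ1 : ∀ (g : MvPowerSeries (Fin m) ℂ) (q : ℕ),
      Θ (sub_W m e g q) = (q : ℂ) • sub_W m e g q) (p : Polynomial ℂ) :
    ∃ E ∈ PF (MvPowerSeries (Fin m ⊕ (Fin e ⊕ Fin e)) ℂ), ∃ r : ℂ → ℕ → ℂ,
      (∀ c g q, E c (sub_W m e g q) = r c q • sub_W m e g q) ∧
      ∀ (c : ℂ) (q : ℕ), r c q * ((q : ℂ) + e) = p.eval (c + e) - p.eval (c - q) := by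
  induction p using Polynomial.induction_on with
  | C a =>
    refine ⟨0, (PF _).zero_mem, fun _ _ => 0, fun c g q => ?_, fun c q => ?_⟩
    · rw [Pi.zero_apply, LinearMap.zero_apply, zero_smul]
    · simp
  | add p p' hp hp' =>
    obtain ⟨E, hE, r, hE1, hr⟩ := hp
    obtain ⟨E', hE', r', hE1', hr'⟩ := hp'
    refine ⟨E + E', (PF _).add_mem hE hE', fun c q => r c q + r' c q, fun c g q => ?_,
      fun c q => ?_⟩
    · rw [Pi.add_apply, LinearMap.add_apply, hE1, hE1', add_smul]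
    · rw [add_mul, hr, hr', Polynomial.eval_add, Polynomial.eval_add]
      ring
  | monomial k a hp =>
    obtain ⟨E, hE, r, hE1, hr⟩ := hp
    obtain ⟨E', hE', hE1'⟩ := sub_L1 hΘ hΘ1 (Polynomial.C a * Polynomial.X ^ k)
    refine ⟨(fun c : ℂ => (c + (e : ℂ)) •
      (1 : Module.End ℂ (MvPowerSeries (Fin m ⊕ (Fin e ⊕ Fin e)) ℂ))) * E + E', ?_,
      fun c q => (c + e) * r c q + (Polynomial.C a * Polynomial.X ^ k).eval (c - q),
      fun c g q => ?_, fun c q => ?_⟩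
    · refine (PF _).add_mem ((PF _).mul_mem ?_ hE) hE'
      have h1 := PF_aff (R := MvPowerSeries (Fin m ⊕ (Fin e ⊕ Fin e)) ℂ) id_mem 1 (e : ℂ)
      simpa only [one_mul] using h1
    · rw [Pi.add_apply, LinearMap.add_apply, Pi.mul_apply, Module.End.mul_apply, hE1, hE1',
        map_smul, LinearMap.smul_apply, Module.End.one_apply, smul_smul, add_smul]
      congr 2
      ring
    · have h1 := hr c q
      have h2 : ∀ z : ℂ, (Polynomial.C a * Polynomial.X ^ (k + 1)).eval z =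
          z * (Polynomial.C a * Polynomial.X ^ k).eval z := by
        intro z
        simp only [Polynomial.eval_mul, Polynomial.eval_C, Polynomial.eval_pow,
          Polynomial.eval_X]
        ring
      rw [h2, h2, add_mul]
      linear_combination (c + e) * h1

end

/-- SUB -/
theorem susp {m : ℕ} (G : MvPowerSeries (Fin m) ℂ) (hG0 : G ≠ 0) (hG : ¬ IsUnit G) (e : ℕ)
    (bt : Polynomial ℂ)
    (h : FEq (MvPowerSeries (Fin m) ℂ) G ((Polynomial.X + 1) * bt)) :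
    FEq (MvPowerSeries (Fin m ⊕ (Fin e ⊕ Fin e)) ℂ) (sus G e)
      ((Polynomial.X + 1) * bt.comp (Polynomial.X + Polynomial.C (e : ℂ))) := by
  classical
  have hdom : IsDomain (MvPowerSeries (Fin m) ℂ) := NoZeroDivisors.to_isDomain _
  obtain ⟨B, hB, hBk⟩ := h
  have hq := qf G hG0 hG _ hB (fun k => by rw [hBk k, one_mul])
  obtain ⟨d, D, hD, hBD⟩ := (PF_iff B).1 hB
  choose D' hD' hD'2 using fun i => ext (β := Fin e ⊕ Fin e) (hD i)
  obtain ⟨Θ, hΘ, Δ, hΔ, hΘ1, hΔ0, hΔ1⟩ := sua m e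
  have hΘ1' : ∀ (g : MvPowerSeries (Fin m) ℂ) (q : ℕ),
      Θ (sub_W m e g q) = (q : ℂ) • sub_W m e g q := hΘ1
  have hD'W : ∀ i (g : MvPowerSeries (Fin m) ℂ) (q : ℕ),
      D' i (sub_W m e g q) = sub_W m e (D i g) q := by
    intro i g q
    have h1 := hD'2 i g (QQ e ^ q)
    unfold sub_W
    rw [← map_pow]
    exact h1
  set A : ℂ → Module.End ℂ (MvPowerSeries (Fin m ⊕ (Fin e ⊕ Fin e)) ℂ) :=
    ∑ i : Fin d, (sub_Lam Θ) ^ (i : ℕ) * (fun _ => D' i) with hA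
  have hAmem : A ∈ PF (MvPowerSeries (Fin m ⊕ (Fin e ⊕ Fin e)) ℂ) :=
    (PF _).sum_mem fun i _ => (PF _).mul_mem ((PF _).pow_mem (sub_Lam_mem hΘ) _)
      (const_mem (hD' i))
  have hAW : ∀ (c : ℂ) (g : MvPowerSeries (Fin m) ℂ) (q : ℕ),
      A c (sub_W m e g q) = sub_W m e (B (c - q) g) q := by
    intro c g q
    rw [hBD, hA, Finset.sum_apply, LinearMap.sum_apply, LinearMap.sum_apply, sub_W_sum]
    refine sum_congr rfl fun i _ => ?_
    rw [Pi.mul_apply, Pi.pow_apply, Module.End.mul_apply, hD'W, sub_Lam_pow hΘ1',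
      LinearMap.smul_apply, sub_W_smul]
  obtain ⟨E, hE, r, hEW, hr⟩ := sub_L2 hΘ hΘ1' bt
  refine ⟨A + E * (fun _ => Δ), (PF _).add_mem hAmem ((PF _).mul_mem hE (const_mem hΔ)),
    fun k => ?_⟩
  rw [one_mul, Pi.add_apply, LinearMap.add_apply, Pi.mul_apply, Module.End.mul_apply]
  have h1 : A (k : ℂ) (sus G e ^ (k + 1)) = ∑ q ∈ range (k + 1),
      (((k : ℂ) + 1) * (k.choose q : ℕ) * bt.eval ((k : ℂ) - q)) •
        sub_W m e (G ^ (k - q)) q := by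
    rw [sub_pow, map_sum, sum_range_succ]
    have h2 : A (k : ℂ) (((((k + 1).choose (k + 1) : ℕ) : ℂ)) •
        sub_W m e (G ^ (k + 1 - (k + 1))) (k + 1)) = 0 := by
      rw [map_smul, hAW, Nat.sub_self, pow_zero]
      have h3 : ((k : ℂ) - ((k + 1 : ℕ) : ℂ)) = -1 := by push_cast; ring
      rw [h3, hq.2, sub_W_zero, smul_zero]
    rw [h2, add_zero]
    refine sum_congr rfl fun q hq' => ?_
    rw [mem_range] at hq'
    have hqk : q ≤ k := by omega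
    have h3 : k + 1 - q = (k - q) + 1 := by omega
    have h4 : ((k : ℂ) - (q : ℂ)) = ((k - q : ℕ) : ℂ) := by rw [Nat.cast_sub hqk]
    rw [map_smul, hAW, h4, h3, hBk, one_mul, sub_W_smul, smul_smul]
    congr 1
    rw [Polynomial.eval_mul, Polynomial.eval_add, Polynomial.eval_X, Polynomial.eval_one]
    have h5 : ((k + 1).choose q : ℂ) * (((k - q : ℕ) : ℂ) + 1) = ((k : ℂ) + 1) * (k.choose q) := by
      have h6 := Nat.add_one_mul_choose_eq k q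
      have h7 := Nat.choose_mul_succ_eq k q
      have h8 : ((k.choose q * (k + 1) : ℕ) : ℂ) = (((k + 1).choose q * (k + 1 - q) : ℕ) : ℂ) := by
        rw [h7]
      rw [h3] at h8
      push_cast at h8 ⊢
      linear_combination -h8
    linear_combination (bt.eval ((k - q : ℕ) : ℂ)) * h5
  have h2 : Δ (sus G e ^ (k + 1)) = ∑ q ∈ range (k + 1),
      (((k : ℂ) + 1) * (k.choose q : ℕ) * ((q : ℂ) + e)) • sub_W m e (G ^ (k - q)) q := by
    rw [sub_pow, map_sum, sum_range_succ']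
    have h3 : Δ (((((k + 1).choose 0 : ℕ) : ℂ)) • sub_W m e (G ^ (k + 1 - 0)) 0) = 0 := by
      rw [map_smul]
      unfold sub_W
      rw [pow_zero, mul_one, hΔ0, smul_zero]
    rw [h3, add_zero]
    refine sum_congr rfl fun q _ => ?_
    have h4 : k + 1 - (q + 1) = k - q := by omega
    have h5 : Δ (sub_W m e (G ^ (k - q)) (q + 1)) =
        (((q : ℂ) + 1) * ((q : ℂ) + e)) • sub_W m e (G ^ (k - q)) q := hΔ1 _ q
    rw [map_smul, h4, h5, smul_smul]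
    congr 1
    have h6 := Nat.add_one_mul_choose_eq k q
    have h7 : (((k + 1) * k.choose q : ℕ) : ℂ) = (((k + 1).choose (q + 1) * (q + 1) : ℕ) : ℂ) := by
      exact_mod_cast h6
    push_cast at h7 ⊢
    linear_combination -((q : ℂ) + e) * h7
  rw [h1, h2, map_sum, ← sum_add_distrib, sub_pow, smul_sum]
  refine sum_congr rfl fun q _ => ?_
  rw [map_smul, hEW, smul_smul, smul_smul, ← add_smul]
  congr 1
  have h3 := hr (k : ℂ) q
  have h4 : ((Polynomial.X + 1) * bt.comp (Polynomial.X + Polynomial.C (e : ℂ))).eval (k : ℂ) =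
      ((k : ℂ) + 1) * bt.eval ((k : ℂ) + e) := by
    simp [Polynomial.eval_comp]
  rw [h4]
  linear_combination ((k : ℂ) + 1) * (k.choose q : ℂ) * h3

end Pool.Agent.H22.T7
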