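import Pool.Agent.H22.T7.TDefs
import Pool.Agent.H56.SMC.APPG
import Pool.Agent.H56.SMC.H11Aux

/-!
# TRA: from `a'` to `a`

Proof.  Let `YD a w Yb Yj`, `s0 = -|w|/N(w)`.  (1) All `w_j > 0`: if `w_j = 0`, `conv` gives `a i = single j k`, so `∑ a_i l w_l = 0` and `wmin a w = 0` (`appg_wmin_le`), against `YD.pos`.
So `Yj = ∅` (`YD.onj`).
(2) `wmin a' w = wmin a w`: `≤`: for `i` with `a_i·w = wmin a w` (`exists_wmin`, `r > 0`: `appg_pos`), `a' (η i) = a i`, `appg_wmin_le a' w (η i)`; `≥`: every exponent `a' t` has `a'_t·w ≥ wmin a w`: `t = η i` or `Above`.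
(3) `YD a' w (Yb.map η) ∅`: `pos`, `on`: clear.  `ind`: `H22.rowR a' (η b) = H22.rowR a b` (it depends only on `a' (η b) = a b`); reindex by `Yb ≃ Yb.map η` (`LinearIndependent.comp` / `linearIndependent_equiv`); the
`Yj`-part is indexed by an empty type in both.  `rel`: `i` with `a'_i·w = wmin a' w` is `η i0` with `a_{i0}·w = wmin a w` (`Above`: strict for `t` outside the range).  `span`: `p0R a' w = p0R a w` (by (2)),
the sets coincide.
(4) `h` gives `UY a' (Yb.map η) ∅`, i.e. `b' = η b`, `k`; `ApexY a' (Yb.map η) ∅ (η b) k ↔ ApexY a Yb ∅ b k`.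
-/

set_option autoImplicit false

namespace Pool.Agent.H22.T7

open Finset AddMonoidAlgebra
open Pool.Agent.H56.SMC Pool.Agent.H37.T5 Pool.Agent.H56.T5 Pool.Agent.H37.T6

/-- Above the exponents `a`, the rows of `a'` are those of `a`. -/
theorem tra_row {m r r' : ℕ} (a : Fin r → (Fin m →₀ ℕ)) (a' : Fin r' → (Fin m →₀ ℕ))
    (η : Fin r ↪ Fin r') (hη : Above a a' η) (b : Fin r) :
    H22.rowR a' (η b) = H22.rowR a b := by
  funext t
  rcases t with t | t
  · simp [H22.rowR]
  · simp [H22.rowR, hη.1]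

/-- The minima agree. -/
theorem tra_wmin {m r r' : ℕ} (a : Fin r → (Fin m →₀ ℕ)) (a' : Fin r' → (Fin m →₀ ℕ))
    (η : Fin r ↪ Fin r') (hη : Above a a' η) (w : Fin m → ℕ) (hw : ∀ j, 0 < w j) (hr : 0 < r) :
    H22.wmin a' w = H22.wmin a w := by
  have hr' : 0 < r' := (Nat.zero_le _).trans_lt (η ⟨0, hr⟩).2
  apply le_antisymm
  · obtain ⟨i, hi⟩ := H11.exists_wmin hr a w
    have h1 := H11.wmin_le a' w (η i)
    rw [hη.1, hi] at h1
    exact h1
  · obtain ⟨t, ht⟩ := H11.exists_wmin hr' a' w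
    rw [← ht]
    by_cases h1 : t ∈ Set.range η
    · obtain ⟨i, rfl⟩ := h1
      rw [hη.1]
      exact H11.wmin_le a w i
    · exact (hη.2 t h1 w hw).le

/-- TRA -/
theorem tra {m r r' : ℕ} (a : Fin r → (Fin m →₀ ℕ)) (a' : Fin r' → (Fin m →₀ ℕ))
    (η : Fin r ↪ Fin r') (hη : Above a a' η) (conv : Conv a) (s0 : ℂ) (h : HYpos a' s0) :
    HY a s0 := by
  intro w Yb Yj hY hs
  have hr : 0 < r := appg_pos a w hY.pos
  have hw : ∀ j, 0 < w j := by
    intro j
    by_contra hj
    have hj0 : w j = 0 := by omega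
    obtain ⟨i, k, hik⟩ := conv j
    have h1 := H11.wmin_le a w i
    have h2 : ∑ l, a i l * w l = 0 := by
      apply sum_eq_zero
      intro l _
      by_cases hl : l = j
      · subst hl
        rw [hj0, mul_zero]
      · rw [hik, Finsupp.single_eq_of_ne hl, zero_mul]
    have h3 := hY.pos
    omega
  have hYj : Yj = ∅ := by
    apply Finset.eq_empty_of_forall_notMem
    intro j hj
    have h1 := hY.onj j hj
    have h2 := hw j
    omega
  subst hYj
  have hwm := tra_wmin a a' η hη w hw hr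
  have hrow := tra_row a a' η hη
  have hface : ∀ t, ∑ j, a' t j * w j = H22.wmin a' w → ∃ i, η i = t ∧
      ∑ j, a i j * w j = H22.wmin a w := by
    intro t ht
    by_cases h1 : t ∈ Set.range η
    · obtain ⟨i, rfl⟩ := h1
      refine ⟨i, rfl, ?_⟩
      rw [← hwm, ← ht, hη.1]
    · exfalso
      have h2 := hη.2 t h1 w hw
      omega
  have hYD : YD a' w (Yb.map η) ∅ := by
    refine ⟨?_, ?_, ?_, ?_, ?_, ?_⟩
    · rw [hwm]
      exact hY.pos
    · intro b hb
      obtain ⟨b0, hb0, rfl⟩ := Finset.mem_map.1 hb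
      rw [hη.1, hwm]
      exact hY.on b0 hb0
    · intro j hj
      exact absurd hj (Finset.notMem_empty j)
    · have hex : ∀ t : (Yb.map η : Finset (Fin r')), ∃ b : Yb, η b.1 = t.1 := by
        intro t
        obtain ⟨b, hb, hbt⟩ := Finset.mem_map.1 t.2
        exact ⟨⟨b, hb⟩, hbt⟩
      choose g hg using hex
      have hginj : Function.Injective g := by
        intro t t' htt
        apply Subtype.ext
        rw [← hg t, ← hg t', htt]
      have h1 := hY.ind.comp (Sum.map g id)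
        (Sum.map_injective.2 ⟨hginj, Function.injective_id⟩)
      have h2 : (Sum.elim (fun b : Yb => H22.rowR a b.1)
          (fun j : (∅ : Finset (Fin m)) => (eR j.1 : Unit ⊕ Fin m → ℝ))) ∘
            (Sum.map g id) =
          Sum.elim (fun b : (Yb.map η : Finset (Fin r')) => H22.rowR a' b.1)
            (fun j : (∅ : Finset (Fin m)) => (eR j.1 : Unit ⊕ Fin m → ℝ)) := by
        funext t
        rcases t with t | t
        · simp only [Function.comp_apply, Sum.map_inl, Sum.elim_inl]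
          rw [← hrow, hg]
        · rfl
      rw [h2] at h1
      exact h1
    · intro y hy1 hy2 hy3 hy4
      have h1 := hY.rel y (fun i hi => by
        have := hy1 (η i) (by rw [hη.1, hwm]; exact hi)
        rwa [hrow] at this) hy2 (fun b hb => by
        have := hy3 (η b) (Finset.mem_map_of_mem _ hb)
        rwa [hrow] at this) hy4
      refine ⟨fun t ht => ?_, h1.2⟩
      obtain ⟨i, rfl, hi⟩ := hface t ht
      rw [hrow]
      exact h1.1 i hi
    · have h1 : p0R a' w = p0R a w := by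
        unfold p0R
        rw [hwm]
      have h2 : ({y | ∃ b ∈ Yb.map η, y = H22.rowR a' b} : Set (Unit ⊕ Fin m → ℝ)) =
          {y | ∃ b ∈ Yb, y = H22.rowR a b} := by
        ext y
        constructor
        · rintro ⟨b, hb, rfl⟩
          obtain ⟨b0, hb0, rfl⟩ := Finset.mem_map.1 hb
          exact ⟨b0, hb0, hrow b0⟩
        · rintro ⟨b, hb, rfl⟩
          exact ⟨η b, Finset.mem_map_of_mem _ hb, (hrow b).symm⟩
      rw [h1, h2]
      exact hY.span
  have hap : ∀ b k, ApexY a' (Yb.map η) ∅ (η b) k ↔ ApexY a Yb ∅ b k := by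
    intro b k
    unfold ApexY
    rw [hη.1]
    constructor
    · rintro ⟨h1, h2, h3, h4⟩
      refine ⟨(Finset.mem_map' η).1 h1, h2, h3, fun b' hb' hne => ?_⟩
      have := h4 (η b') (Finset.mem_map_of_mem _ hb') (fun h => hne (η.injective h))
      rwa [hη.1] at this
    · rintro ⟨h1, h2, h3, h4⟩
      refine ⟨Finset.mem_map_of_mem _ h1, h2, h3, fun b' hb' hne => ?_⟩
      obtain ⟨b0, hb0, rfl⟩ := Finset.mem_map.1 hb'
      rw [hη.1]
      exact h4 b0 hb0 (fun h => hne (by rw [h]))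
  have hs' : s0 = -(H22.wsum w : ℂ) / (H22.wmin a' w : ℂ) := by
    rw [hwm]
    exact hs
  obtain ⟨b', k, hb', hk⟩ := h w (Yb.map η) ∅ hw hYD hs'
  obtain ⟨b, hb, rfl⟩ := Finset.mem_map.1 hb'.1
  refine ⟨b, k, (hap b k).1 hb', fun k' hk' => hk k' ((hap b k').2 hk')⟩

end Pool.Agent.H22.T7
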