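import Pool.Agent.H22.T7.TDefs
import Pool.Agent.H37.SM.ZRG

/-!
# ZST: regularity under `aff` and `unstab`

Proof.  `reg_aff`: `Z = num/denom`, `RatFunc.eval RatFunc.C (C c * X + C d) Z = (num.eval₂ C (..)) / (denom.eval₂ C (..))` (definition of `RatFunc.eval`), and
`p.eval₂ RatFunc.C (RatFunc.C c * RatFunc.X + RatFunc.C d) = algebraMap (p.comp (Polynomial.C c * Polynomial.X + Polynomial.C d))` (`Polynomial.hom_eval₂`, `RatFunc.algebraMap_C`, `RatFunc.algebraMap_X`); the value of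
`denom.comp (..)` at `s0` is `denom.eval (c s0 + d) ≠ 0`; `reg_iff`.
`reg_unstab`: `1/(X+1)` is regular at `s0 ≠ -1`, `reg_X_div`; `((X+1) Z - 1)/X` is regular at `s0 - e ≠ 0`; `reg_aff` with `c = 1`, `d = -e`.
`reg_prod`: induction.
-/

set_option autoImplicit false

namespace Pool.Agent.H22.T7

open Finset
open Pool.Agent.H37.SM

theorem zst_eval (c d : ℂ) (p : Polynomial ℂ) :
    p.eval₂ (RatFunc.C : ℂ →+* RatFunc ℂ) (RatFunc.C c * RatFunc.X + RatFunc.C d) =
      algebraMap (Polynomial ℂ) (RatFunc ℂ)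
        (p.comp (Polynomial.C c * Polynomial.X + Polynomial.C d)) := by
  have h1 : (algebraMap (Polynomial ℂ) (RatFunc ℂ)).comp (Polynomial.C : ℂ →+* Polynomial ℂ) =
      (RatFunc.C : ℂ →+* RatFunc ℂ) := by
    ext x
    exact RatFunc.algebraMap_C x
  have h2 : algebraMap (Polynomial ℂ) (RatFunc ℂ)
      (Polynomial.C c * Polynomial.X + Polynomial.C d) =
        RatFunc.C c * RatFunc.X + RatFunc.C d := by
    rw [map_add, map_mul, RatFunc.algebraMap_C, RatFunc.algebraMap_C, RatFunc.algebraMap_X]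
  rw [Polynomial.comp, Polynomial.hom_eval₂, h1, h2]

theorem zst_comp (c d s0 : ℂ) (p : Polynomial ℂ) :
    (p.comp (Polynomial.C c * Polynomial.X + Polynomial.C d)).eval s0 =
      p.eval (c * s0 + d) := by
  rw [Polynomial.eval_comp]
  simp

theorem reg_aff (c d s0 : ℂ) (Z : RatFunc ℂ) (h : Reg (c * s0 + d) Z) : Reg s0 (aff c d Z) := by
  rw [reg_iff]
  refine ⟨Z.num.comp (Polynomial.C c * Polynomial.X + Polynomial.C d),
    Z.denom.comp (Polynomial.C c * Polynomial.X + Polynomial.C d), ?_, ?_⟩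
  · rw [zst_comp]
    exact h
  · rw [aff, RatFunc.eval, zst_eval, zst_eval]

theorem reg_unstab (e : ℕ) (s0 : ℂ) (hs1 : s0 ≠ -1) (h0 : s0 - e ≠ 0) (Z : RatFunc ℂ)
    (h : Reg (s0 - e) Z) : Reg s0 (unstab e Z) := by
  have h1 : Reg s0 (1 / (RatFunc.X + 1)) := by
    rw [reg_iff]
    refine ⟨1, Polynomial.X + 1, ?_, ?_⟩
    · intro h0
      apply hs1
      rw [Polynomial.eval_add, Polynomial.eval_X, Polynomial.eval_one] at h0
      linear_combination h0
    · rw [map_add, RatFunc.algebraMap_X, map_one]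
  have h2 : Reg s0 (RatFunc.X / (RatFunc.X + 1)) := reg_X_div hs1
  have h3 : Reg (s0 - e) (1 : RatFunc ℂ) := by
    have h := reg_natCast (s0 := s0 - e) 1
    rwa [Nat.cast_one] at h
  have h4 : Reg (s0 - e) ((RatFunc.X + 1) * Z - 1) := ((reg_X.add h3).mul h).sub h3
  have h5 : Reg (s0 - e) (1 / RatFunc.X : RatFunc ℂ) := by
    rw [reg_iff]
    refine ⟨1, Polynomial.X, ?_, ?_⟩
    · rw [Polynomial.eval_X]
      exact h0
    · rw [RatFunc.algebraMap_X, map_one]
  have h6 : Reg (s0 - e) (((RatFunc.X + 1) * Z - 1) / RatFunc.X) := by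
    rw [div_eq_mul_one_div]
    exact h4.mul h5
  have h7 : Reg s0 (aff 1 (-(e : ℂ)) (((RatFunc.X + 1) * Z - 1) / RatFunc.X)) := by
    apply reg_aff
    rwa [one_mul, ← sub_eq_add_neg]
  exact h1.add (h2.mul h7)

theorem reg_prod {α : Type} (s0 : ℂ) (T : Finset α) (f : α → RatFunc ℂ)
    (h : ∀ i ∈ T, Reg s0 (f i)) : Reg s0 (∏ i ∈ T, f i) := by
  classical
  induction T using Finset.induction_on with
  | empty =>
    rw [Finset.prod_empty]
    have h := reg_natCast (s0 := s0) 1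
    rwa [Nat.cast_one] at h
  | insert i T hi ih =>
    rw [Finset.prod_insert hi]
    exact (h i (Finset.mem_insert_self i T)).mul
      (ih fun j hj => h j (Finset.mem_insert_of_mem hj))

theorem reg_C (s0 c : ℂ) : Reg s0 (RatFunc.C c) := by
  rw [reg_iff]
  refine ⟨Polynomial.C c, 1, by simp, ?_⟩
  rw [RatFunc.algebraMap_C, map_one, div_one]

end Pool.Agent.H22.T7
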