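import Pool.Agent.H22.T7.UP
import Pool.Agent.H22.T7.FEA
import Pool.Agent.H22.T7.CMP
import Pool.Agent.H22.T7.AUT
import Pool.Agent.H22.T7.RST
import Pool.Agent.H22.T7.SUB
import Pool.Agent.H22.T7.RSP
import Pool.Agent.H22.T7.QHW
import Pool.Agent.H22.T7.QHN
import Pool.Agent.H22.T7.FPR
import Pool.Agent.H22.T7.TRA
import Pool.Agent.H22.T7.LOC
import Pool.Agent.H22.T7.ZST
import Pool.Agent.H22.T7.RTX
import Pool.Agent.H37.T6.FIN6

/-!
# MAI: assembly
-/

set_option autoImplicit false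

namespace Pool.Agent.H22.T7

open Finset
open Pool.Agent.H56.SMC Pool.Agent.H37.T5 Pool.Agent.H56.T5 Pool.Agent.H37.T6 Pool.Agent.H37.SM

/-- A bound for `N(v)`. -/
theorem mai_K {m r r' : ℕ} (a : Fin r → (Fin m →₀ ℕ)) (a' : Fin r' → (Fin m →₀ ℕ))
    (η : Fin r ↪ Fin r') (hη : ∀ i, a' (η i) = a i) (conv : Conv a) :
    ∀ (v : Fin m → ℕ) (j : Fin m), H22.wmin a' v ≤ (∑ i, (a i).degree) * v j := by
  classical
  intro v j
  obtain ⟨i, k, hik⟩ := conv j
  have h1 := appg_wmin_le a' v (η i)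
  rw [hη] at h1
  have h2 : (H22.wmin a' v : ℤ) ≤ ((k * v j : ℕ) : ℤ) := by
    refine h1.trans (le_of_eq ?_)
    rw [hik]
    rw [Finset.sum_eq_single j]
    · simp [mul_comm]
    · intro j' _ hj'
      simp [Finsupp.single_apply, Ne.symm hj']
    · intro h; exact absurd (mem_univ _) h
  have h3 : H22.wmin a' v ≤ k * v j := by exact_mod_cast h2
  refine h3.trans (Nat.mul_le_mul_right _ ?_)
  have h4 : (a i).degree = k := by rw [hik]; simp
  rw [← h4]
  exact Finset.single_le_sum (f := fun i => (a i).degree) (fun _ _ => Nat.zero_le _) (mem_univ i)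

/-- The root side for convenient germs. -/
theorem mai_root {m r : ℕ} (hm : 0 < m) (a : Fin r → (Fin m →₀ ℕ)) (κ : Fin r → ℂ)
    (conv : Conv a) (nd : NondegC a κ) (H : MvPowerSeries (Fin m) ℂ)
    (high : ∀ ρ, MvPowerSeries.coeff ρ H ≠ 0 → ∀ w : Fin m → ℕ, (∀ j, 0 < w j) →
      H22.wmin a w < ∑ j, ρ j * w j) (b : Polynomial ℂ)
    (h : FEq (MvPowerSeries (Fin m) ℂ) (∑ i, MvPowerSeries.monomial (a i) (κ i) + H) b)
    (s0 : ℂ) (hs1 : s0 ≠ -1) (hb : b.eval s0 ≠ 0) : HY a s0 := by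
  classical
  obtain ⟨ρ, d, hρ⟩ := rspf _ b h
  set K : ℕ := ∑ i, (a i).degree with hKdef
  set L : ℕ := m * ((2 * ρ + d + b.natDegree + 3) * K + 1) with hL
  set D0 : ℕ := L + ρ + K + 1 with hD0
  obtain ⟨r', a', κ', η, hη, hnd, hHi⟩ := fpr hm a κ conv nd H high D0 (fun i => by
    have h1 : (a i).degree ≤ K :=
      Finset.single_le_sum (f := fun i => (a i).degree) (fun _ _ => Nat.zero_le _) (mem_univ i)
    omega)
  obtain ⟨PW, hlen, hdeg, hfe⟩ := hρ L (fpoly a' κ') (Hi_mono (by omega) hHi)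
  have hA := int_afe hm a' κ' b ρ d L K (mai_K a a' η hη.1 conv) le_rfl PW hlen hdeg hfe
  exact tra a a' η hη conv s0 (rootX a' κ' hnd b hA s0 hs1 hb)

/-- The root side for quasi-homogeneous germs. -/
theorem mai_rootQ {m r : ℕ} (a : Fin r → (Fin m →₀ ℕ)) (κ : Fin r → ℂ)
    (nd : NondegC a κ) (w0 : Fin m → ℕ) (N : ℕ) (hw : ∀ j, 0 < w0 j)
    (hN : ∀ i, ∑ j, a i j * w0 j = N) (b : Polynomial ℂ)
    (h : FEq (MvPowerSeries (Fin m) ℂ) (∑ i, MvPowerSeries.monomial (a i) (κ i)) b)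
    (s0 : ℂ) (hs1 : s0 ≠ -1) (hb : b.eval s0 ≠ 0) : HY a s0 := by
  classical
  have hG : (∑ i, MvPowerSeries.monomial (a i) (κ i) : MvPowerSeries (Fin m) ℂ) =
      ((fpoly a κ : MvPolynomial (Fin m) ℂ) : MvPowerSeries (Fin m) ℂ) := by
    unfold fpoly
    have h1 := map_sum (MvPolynomial.coeToMvPowerSeries.ringHom (R := ℂ) (σ := Fin m))
      (fun i => MvPolynomial.monomial (a i) (κ i)) univ
    simp only [MvPolynomial.coeToMvPowerSeries.ringHom_apply] at h1
    rw [h1]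
    exact sum_congr rfl fun i _ => (MvPolynomial.coe_monomial _ _).symm
  rw [hG] at h
  obtain ⟨ρ, d, hρ⟩ := rspf _ b h
  set R : ℕ := 2 * ρ + d + b.natDegree + 4 with hR
  set L : ℕ := R * N + 1 with hL
  obtain ⟨PW, hlen, hdeg, hfe⟩ := hρ L (fpoly a κ) (by
    rw [sub_self]
    intro u hu
    exact absurd rfl hu)
  obtain ⟨E, hl, hid, hE⟩ := int_L a κ b ρ d L PW hlen hdeg hfe
  obtain ⟨PW', hl', hid'⟩ := qhw a κ b w0 N hw hN R L PW E (by omega) hl hid hE (by omega)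
  intro w Yb Yj hY hs
  refine rootW a κ (ndq a κ nd w0 N hw hN) b s0 hs1 hb w
    ⟨R, PW', 0, by omega, hl', hid', fun u hu => absurd ?_ hu⟩ Yb Yj hY hs
  rfl

theorem mai_sus_ne {m : ℕ} (G : MvPowerSeries (Fin m) ℂ) (hG : G ≠ 0) (e : ℕ) :
    sus G e ≠ 0 := by
  intro h0
  apply hG
  have h1 := congrArg (MvPowerSeries.killCompl
    (Function.Embedding.inl : Fin m ↪ Fin m ⊕ (Fin e ⊕ Fin e))) h0
  rw [map_zero] at h1
  unfold sus at h1
  rw [map_add, map_sum] at h1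
  have h2 : MvPowerSeries.killCompl (Function.Embedding.inl : Fin m ↪ Fin m ⊕ (Fin e ⊕ Fin e))
      (MvPowerSeries.rename Sum.inl G) = G :=
    MvPowerSeries.killCompl_rename_app
      (e := (Function.Embedding.inl : Fin m ↪ Fin m ⊕ (Fin e ⊕ Fin e))) G
  rw [h2] at h1
  rw [← h1]
  symm
  rw [add_eq_left]
  refine Finset.sum_eq_zero fun k _ => ?_
  rw [map_mul, MvPowerSeries.killCompl_X_eq_zero, zero_mul]
  rintro ⟨x, hx⟩
  exact Sum.inl_ne_inr hx

theorem mai_const {m : ℕ} {G : MvPowerSeries (Fin m) ℂ} (T : SND G) :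
    ¬ IsUnit G := by
  intro hG
  have h1 : IsUnit (sus G T.e) := by
    rw [MvPowerSeries.isUnit_iff_constantCoeff] at hG ⊢
    have h2 : MvPowerSeries.constantCoeff (sus G T.e) = MvPowerSeries.constantCoeff G := by
      unfold sus
      rw [map_add, map_sum, MvPowerSeries.constantCoeff_rename]
      simp
    rw [h2]
    exact hG
  have h3 : IsUnit (T.φ (sus G T.e)) := h1.map T.φ
  rw [T.eq, MvPowerSeries.isUnit_iff_constantCoeff, map_add, map_sum] at h3
  apply h3.ne_zero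
  have h4 : MvPowerSeries.constantCoeff T.H = 0 := by
    by_contra hc
    have h5 := T.high 0 hc (fun _ => 1) (fun _ => one_pos)
    simp at h5
  rw [h4, add_zero]
  refine Finset.sum_eq_zero fun i _ => ?_
  rw [← MvPowerSeries.coeff_zero_eq_constantCoeff_apply, MvPowerSeries.coeff_monomial, if_neg]
  exact fun h => T.ne i h.symm

/-- One factor. -/
theorem mai_snd {m : ℕ} {G : MvPowerSeries (Fin m) ℂ} (T : SND G) (hG0 : G ≠ 0)
    (b : Polynomial ℂ) (h : FEq (MvPowerSeries (Fin m) ℂ) G b) (s0 : ℂ) (hs : s0.re < 0)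
    (hb : b.eval s0 ≠ 0) : Reg s0 T.Z := by
  classical
  have hG := mai_const T
  have hdom : IsDomain (MvPowerSeries (Fin m) ℂ) := NoZeroDivisors.to_isDomain _
  obtain ⟨B, hB, hBk⟩ := h
  have hq := qf G hG0 hG b hB (fun k => by rw [hBk k, one_mul])
  have h : FEq (MvPowerSeries (Fin m) ℂ) G b := ⟨B, hB, hBk⟩
  obtain ⟨bt, hbt⟩ : ∃ bt : Polynomial ℂ, b = (Polynomial.X + 1) * bt := by
    have h1 : (Polynomial.X - Polynomial.C (-1 : ℂ)) ∣ b := Polynomial.dvd_iff_isRoot.2 hq.1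
    obtain ⟨bt, h2⟩ := h1
    refine ⟨bt, ?_⟩
    rw [h2]
    simp
  rw [hbt] at h
  have h1 := susp G hG0 hG T.e bt h
  have h2 := aut T.φ _ _ h1
  rw [T.eq] at h2
  set b2 : Polynomial ℂ := (Polynomial.X + 1) * bt.comp (Polynomial.X + Polynomial.C (T.e : ℂ))
    with hb2
  set t0 : ℂ := s0 - T.e with ht0
  have hs1 : s0 ≠ -1 := by
    rintro rfl
    exact hb hq.1
  have hbt0 : bt.eval s0 ≠ 0 := by
    intro h0
    apply hb
    rw [hbt, Polynomial.eval_mul, h0, mul_zero]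
  have ht1 : t0 ≠ -1 := by
    intro h0
    have h3 : s0 = (T.e : ℂ) - 1 := by
      rw [ht0] at h0
      linear_combination h0
    rcases Nat.eq_zero_or_pos T.e with he | he
    · apply hs1
      rw [h3, he]
      simp
    · rw [h3] at hs
      have h4 : ((T.e : ℂ) - 1).re = (T.e : ℝ) - 1 := by simp
      rw [h4] at hs
      have h5 : (1 : ℝ) ≤ T.e := by exact_mod_cast he
      linarith
  have hb2' : b2.eval t0 ≠ 0 := by
    rw [hb2, Polynomial.eval_mul, Polynomial.eval_comp]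
    refine mul_ne_zero ?_ ?_
    · intro h0
      apply ht1
      simp only [Polynomial.eval_add, Polynomial.eval_X, Polynomial.eval_one] at h0
      linear_combination h0
    · have h3 : (Polynomial.X + Polynomial.C (T.e : ℂ)).eval t0 = s0 := by
        rw [ht0]; simp
      rw [h3]
      exact hbt0
  have h4 : Reg t0 (topZetaL T.a T.𝒟 T.𝒯) := by
    rcases T.alt with hc | ⟨hH, w0, N, hw, hN⟩
    · have hHY := mai_root T.pos T.a T.κ hc T.nd T.H T.high b2 h2 t0 ht1 hb2'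
      have hne : ∃ i, T.a i ≠ 0 := by
        obtain ⟨i, -, -⟩ := hc ⟨0, T.pos⟩
        exact ⟨i, T.ne i⟩
      exact loc T.a hc T.𝒟 T.𝒯 t0 ht1 (polesT6 T.a T.inj hne t0 ht1 hHY T.𝒟 T.𝒯)
    · rw [hH, add_zero] at h2
      have hHY := mai_rootQ T.a T.κ T.nd w0 N hw hN b2 h2 t0 ht1 hb2'
      rw [loq T.a w0 N hw hN T.𝒟 T.𝒯]
      rcases Nat.eq_zero_or_pos T.r with hr | hr
      · exfalso
        have h5 := T.eq
        rw [hH, add_zero] at h5
        have h6 : (∑ i, MvPowerSeries.monomial (T.a i) (T.κ i) :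
            MvPowerSeries (Fin T.m') ℂ) = 0 := by
          refine Finset.sum_eq_zero fun i _ => ?_
          have := i.2
          omega
        rw [h6] at h5
        exact mai_sus_ne G hG0 T.e (T.φ.injective (h5.trans (map_zero T.φ).symm))
      · exact polesT6 T.a T.inj ⟨⟨0, hr⟩, T.ne _⟩ t0 ht1 hHY T.𝒟 T.𝒯
  refine reg_unstab T.e s0 hs1 ?_ _ h4
  intro h0
  have h5 : s0 = (T.e : ℂ) := by linear_combination h0
  rw [h5] at hs
  simp at hs
  have h6 : (0 : ℝ) ≤ T.e := by positivity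
  linarith

/-- The exponents vanish on the range of `ι`. -/
def Off {n m : ℕ} (ι : Fin m ↪ Fin n) (h : MvPowerSeries (Fin n) ℂ) : Prop :=
  ∀ ρ, MvPowerSeries.coeff ρ h ≠ 0 → ∀ x, ρ (ι x) = 0

theorem Off_one {n m : ℕ} (ι : Fin m ↪ Fin n) : Off ι (1 : MvPowerSeries (Fin n) ℂ) := by
  classical
  intro ρ hρ x
  rw [MvPowerSeries.coeff_one] at hρ
  by_cases h : ρ = 0
  · rw [h]; rfl
  · rw [if_neg h] at hρ; exact absurd rfl hρ

theorem Off_mul {n m : ℕ} (ι : Fin m ↪ Fin n) {g h : MvPowerSeries (Fin n) ℂ}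
    (hg : Off ι g) (hh : Off ι h) : Off ι (g * h) := by
  classical
  intro ρ hρ x
  rw [MvPowerSeries.coeff_mul] at hρ
  obtain ⟨q, hq, hne⟩ := Finset.exists_ne_zero_of_sum_ne_zero hρ
  rw [Finset.HasAntidiagonal.mem_antidiagonal] at hq
  rw [← hq, Finsupp.add_apply, hg _ (left_ne_zero_of_mul hne) x,
    hh _ (right_ne_zero_of_mul hne) x]

theorem Off_pow {n m : ℕ} (ι : Fin m ↪ Fin n) {g : MvPowerSeries (Fin n) ℂ}
    (hg : Off ι g) (k : ℕ) : Off ι (g ^ k) := by
  induction k with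
  | zero => rw [pow_zero]; exact Off_one ι
  | succ k ih => rw [pow_succ]; exact Off_mul ι ih hg

theorem Off_prod {n m : ℕ} {α : Type} (ι : Fin m ↪ Fin n) (s : Finset α)
    (f : α → MvPowerSeries (Fin n) ℂ) (hf : ∀ i ∈ s, Off ι (f i)) : Off ι (∏ i ∈ s, f i) := by
  classical
  induction s using Finset.induction_on with
  | empty => rw [prod_empty]; exact Off_one ι
  | insert i s hi ih =>
    rw [prod_insert hi]
    exact Off_mul ι (hf i (mem_insert_self i s)) (ih fun j hj => hf j (mem_insert_of_mem hj))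

theorem Off_rename {n m m' : ℕ} (ι : Fin m ↪ Fin n) (ι' : Fin m' ↪ Fin n)
    (hd : ∀ x y, ι x ≠ ι' y) (g : MvPowerSeries (Fin m') ℂ) :
    Off ι (MvPowerSeries.rename ι' g) := by
  classical
  intro ρ hρ x
  by_contra hx
  apply hρ
  apply MvPowerSeries.coeff_rename_eq_zero
  rintro ⟨ρ', rfl⟩
  apply hx
  exact Finsupp.mapDomain_of_notMem_range _ _ (by rintro ⟨y, hy⟩; exact hd x y hy.symm)

/-- The local statement. -/
theorem mai_gt {n : ℕ} (F : MvPolynomial (Fin n) ℂ) (hF : F ≠ 0) (p : Fin n → ℂ) (T : GT F p)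
    (b : Polynomial ℂ) (P : H22.WeylS n) (hfe : H22.FunctionalEquation F b P) (s0 : ℂ)
    (hs : s0.re < 0) (hb : b.eval s0 ≠ 0) : Reg s0 T.Z := by
  classical
  have hdom : IsDomain (MvPowerSeries (Fin n) ℂ) := NoZeroDivisors.to_isDomain _
  have h1 := aut T.φ _ _ (cmp F p b (fea F b P hfe))
  have hg0 : T.φ (germ F p) ≠ 0 := by
    intro h0
    have h2 : germ F p = 0 := by
      have := T.φ.injective (h0.trans (map_zero T.φ).symm)
      exact this
    apply hF
    have h3 : (MvPolynomial.aeval (fun j => MvPolynomial.X j + MvPolynomial.C (p j)) F :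
        MvPolynomial (Fin n) ℂ) = 0 := MvPolynomial.coe_injective _ _ (by
      rw [MvPolynomial.coe_zero]; exact h2)
    have h4 := congrArg (MvPolynomial.aeval (fun j => MvPolynomial.X j - MvPolynomial.C (p j) :
      Fin n → MvPolynomial (Fin n) ℂ)) h3
    rw [map_zero, ← AlgHom.comp_apply] at h4
    have h5 : (MvPolynomial.aeval (fun j => MvPolynomial.X j - MvPolynomial.C (p j) :
        Fin n → MvPolynomial (Fin n) ℂ)).comp (MvPolynomial.aeval
        (fun j => MvPolynomial.X j + MvPolynomial.C (p j) : Fin n → MvPolynomial (Fin n) ℂ)) =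
        AlgHom.id ℂ _ := by
      apply MvPolynomial.algHom_ext
      intro j
      simp
    rw [h5] at h4
    exact h4
  rw [T.eq] at h1 hg0
  refine reg_prod s0 _ _ fun j _ => ?_
  apply reg_aff
  rw [add_zero]
  set U : MvPowerSeries (Fin n) ℂ := ∏ j' ∈ univ.erase j,
    (MvPowerSeries.rename (T.ι j') (T.G j')) ^ (T.N j') with hU
  have hprod : T.u * ∏ j, (MvPowerSeries.rename (T.ι j) (T.G j)) ^ (T.N j) =
      (MvPowerSeries.rename (T.ι j) (T.G j)) ^ (T.N j) * (T.u * U) := by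
    rw [← mul_prod_erase univ _ (mem_univ j)]
    ring
  rw [hprod] at h1 hg0
  have hG1 : MvPowerSeries.rename (T.ι j) (T.G j) ≠ 0 := by
    intro h0
    apply hg0
    rw [h0, zero_pow (T.Npos j).ne', zero_mul]
  have hU1 : T.u * U ≠ 0 := fun h0 => hg0 (by rw [h0, mul_zero])
  have hU2 : U ≠ 0 := fun h0 => hU1 (by rw [h0, mul_zero])
  obtain ⟨M, h2⟩ := up _ _ hG1 hU1 (T.N j) (T.Npos j) b h1
  rw [mul_pow] at h2
  have h3 := FEqV_unit _ _ _ (T.hu.pow M) _ h2
  have hoff : Off (T.ι j) (U ^ M) := by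
    refine Off_pow _ (Off_prod _ _ _ fun j' hj' => Off_pow _ (Off_rename _ _ ?_ _) _) _
    exact T.disj j j' (Ne.symm (ne_of_mem_erase hj'))
  have h4 := rst (T.ι j) (T.G j) (U ^ M) (pow_ne_zero _ hU2) hoff _ h3
  have hN : ((T.N j : ℕ) : ℂ) ≠ 0 := by exact_mod_cast (T.Npos j).ne'
  refine mai_snd (T.T j) ?_ _ h4 _ ?_ ?_
  · intro h0
    apply hG1
    rw [h0, map_zero]
  · have h5 : ((T.N j : ℂ) * s0).re = (T.N j : ℝ) * s0.re := by simp
    rw [h5]
    have h6 : (0 : ℝ) < T.N j := by exact_mod_cast T.Npos j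
    exact mul_neg_of_pos_of_neg h6 hs
  · rw [Polynomial.eval_comp]
    have h7 : (Polynomial.C ((T.N j : ℂ)⁻¹) * Polynomial.X).eval ((T.N j : ℂ) * s0) = s0 := by
      simp only [Polynomial.eval_mul, Polynomial.eval_C, Polynomial.eval_X]
      field_simp
    rw [h7]
    exact hb

end Pool.Agent.H22.T7
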