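import Pool.Agent.H22.T7.JFX
import Pool.Agent.H56.T5.MRELL

/-!
# MRX: the relation obtained from the approximate functional equation

ADAPT `mrelL_key` and `mrelL` (`Pool/Agent/H56/T5/MRELL.lean`); the other auxiliary lemmas there can be used as they are.

Proof.  `A = PA`, `s = C s0 + X`, `ψ = aeval s : Polynomial ℂ →+* PA`; `lmap ψ (F1 a κ) = F := lmap (algebraMap ℂ PA) (toL ℂ (fpoly a κ))` (as in `bfa`: `ψ ∘ C = algebraMap`).  Apply `lmap ψ` to `AId`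
(`bfa_lmap_mul`, `bfa_lmap_pow`, `bfa_GG_lmap`, `bfa_toL_map`, `lmap_smul`, `lmap_add`):
`∑_β p_β GG F s (lst β) F^{R-|β|} = b(s) • F^{R-1} + E'`, `E' = lmap ψ E`.
`b(s) • I 0 0 1 = I (1-R) 0 (b(s) • F^{R-1})` (as in `mrelL_key`) `= I (1-R) 0 (∑ ..) - I (1-R) 0 E' = I 0 (-R) (F G) - I (1-R) 0 E'`, where the first term is treated exactly as in `mrelL_key` (with
`bfbL`), `G = ∑_β H^{R-|β|} q_β` polynomially supported.  By `jfX`: `I 0 (-R) (F G) = mk (lmap jK (C ρ0 • emb R (F G)))` and, with `1 - R = -(R-1 : ℕ)` (`0 < R`),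
`I (1-R) 0 E' = mk (lmap jK (ρ1 • JF_emb (R-1) 0 E'))`.  So `x = C ρ0 • emb R (F G) - ρ1 • JF_emb (R-1) 0 E'` (`lmap_sub`, `Submodule.Quotient.mk_sub`) and `mrelL_fin`.
Exponents: of the first term `mrelL_exp`; of the second `vec (R-1) 0 ρ` with `E'.coeff ρ ≠ 0` (`Finsupp.mapDomain_support`, as in `mrelL_exp`), so `E.coeff ρ ≠ 0` (`lmap_coeff`).
-/

set_option autoImplicit false

namespace Pool.Agent.H22.T7

open Finset AddMonoidAlgebra
open Pool.Agent.H56.SMC Pool.Agent.H37.T5 Pool.Agent.H56.T5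

/-- the relation with a remainder, for abstract `I` -/
theorem MRX_key {n : ℕ} {A W : Type} [CommRing A] [AddCommGroup W] [Module A W] (s c : A)
    (F H E : LP A n) (hF : Supp (Pos n) F) (hH : Supp (Pos n) H) (I : ℤ → ℤ → LP A n →ₗ[A] W)
    (h1 : ∀ i m g, Supp (Pos n) g → I i m g = I (i - 1) m (F * g))
    (h2 : ∀ i m g, Supp (Pos n) g → I i m g = I i (m - 1) (H * g))
    (R : ℕ) (hR0 : 0 < R) (S : Finset (Fin n →₀ ℕ)) (hRl : ∀ β ∈ S, (lst β).length ≤ R)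
    (pb q : (Fin n →₀ ℕ) → LP A n) (hpb : ∀ β, Supp (Pos n) (pb β)) (hq : ∀ β, Supp (Pos n) (q β))
    (hb : ∑ β ∈ S, pb β * GG F s (lst β) * F ^ (R - (lst β).length) = c • F ^ (R - 1) + E)
    (hq1 : ∀ β, I (1 - ((lst β).length : ℤ)) 0 (pb β * GG F s (lst β)) =
      I 1 (0 - ((lst β).length : ℤ)) (q β)) :
    c • I 0 0 1 = I 0 (-(R : ℤ)) (F * ∑ β ∈ S, H ^ (R - (lst β).length) * q β) -
      I (-((R - 1 : ℕ) : ℤ)) 0 E := by
  have e0 : (-((R - 1 : ℕ) : ℤ)) = 1 - (R : ℤ) := by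
    rw [Nat.cast_sub hR0]
    push_cast
    ring
  have e2 : c • I 0 0 1 = I (1 - (R : ℤ)) 0 (c • F ^ (R - 1)) := by
    rw [mrelL_iter1 F hF I h1 (R - 1) 0 0 1 mrelL_one, mul_one, ← map_smul]
    congr 2
    rw [Nat.cast_sub hR0]
    push_cast
    ring
  have hsum : Supp (Pos n) (∑ β ∈ S, H ^ (R - (lst β).length) * q β) :=
    Supp.sum S fun β _ => pos_mul (mrelL_pow hH _) (hq β)
  have e1 : c • F ^ (R - 1) =
      ∑ β ∈ S, pb β * GG F s (lst β) * F ^ (R - (lst β).length) - E := by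
    rw [hb, add_sub_cancel_right]
  rw [e2, e0, e1, map_sub]
  congr 1
  rw [map_sum]
  have e3 : I 0 (-(R : ℤ)) (F * ∑ β ∈ S, H ^ (R - (lst β).length) * q β) =
      I 1 (-(R : ℤ)) (∑ β ∈ S, H ^ (R - (lst β).length) * q β) := by
    rw [h1 1 (-(R : ℤ)) _ hsum, sub_self]
  rw [e3, map_sum]
  refine sum_congr rfl fun β hβ => ?_
  have hl := hRl β hβ
  have e4 := hq1 β
  rw [zero_sub] at e4
  have e5 := mrelL_iter1 F hF I h1 (R - (lst β).length) (1 - ((lst β).length : ℤ)) 0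
    (pb β * GG F s (lst β)) (pos_mul (hpb β) (pos_GG F hF s _))
  have e6 := mrelL_iter2 H hH I h2 (R - (lst β).length) 1 (-((lst β).length : ℤ)) (q β) (hq β)
  have e7 : (1 - ((lst β).length : ℤ)) - ((R - (lst β).length : ℕ) : ℤ) = 1 - (R : ℤ) := by
    rw [Nat.cast_sub hl]; ring
  have e8 : (-((lst β).length : ℤ)) - ((R - (lst β).length : ℕ) : ℤ) = -(R : ℤ) := by
    rw [Nat.cast_sub hl]; ring
  rw [e7] at e5
  rw [e8] at e6
  rw [← e6, ← e4, e5]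
  congr 1
  rw [mul_comm]

/-- the identity, with coefficients in `A` -/
theorem MRX_id {n r : ℕ} (a : Fin r → (Fin n →₀ ℕ)) (κ : Fin r → ℂ) (b : Polynomial ℂ) (R : ℕ)
    (PW : H22.WeylS n) (E : LP (Polynomial ℂ) n) (hid : AId a κ b R PW E)
    {A : Type} [CommRing A] [Algebra ℂ A] (s : A) :
    ∑ β ∈ PW.support, toL A (MvPolynomial.map
        (Polynomial.aeval s : Polynomial ℂ →ₐ[ℂ] A).toRingHom (PW β)) *
      GG (lmap (algebraMap ℂ A) (toL ℂ (fpoly a κ))) s (lst β) *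
        (lmap (algebraMap ℂ A) (toL ℂ (fpoly a κ))) ^ (R - (lst β).length) =
    (Polynomial.aeval s b : A) • (lmap (algebraMap ℂ A) (toL ℂ (fpoly a κ))) ^ (R - 1) +
      lmap (Polynomial.aeval s : Polynomial ℂ →ₐ[ℂ] A).toRingHom E := by
  have h := congrArg (lmap (Polynomial.aeval s : Polynomial ℂ →ₐ[ℂ] A).toRingHom) hid
  have h1 : lmap (Polynomial.aeval s : Polynomial ℂ →ₐ[ℂ] A).toRingHom (F1 a κ) =
      lmap (algebraMap ℂ A) (toL ℂ (fpoly a κ)) := by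
    apply lp_ext; intro u
    rw [F1, lmap_coeff, lmap_coeff, lmap_coeff]
    exact Polynomial.aeval_C _ _
  have e6 : (Polynomial.aeval s : Polynomial ℂ →ₐ[ℂ] A).toRingHom Polynomial.X = s :=
    Polynomial.aeval_X _
  rw [lmap_sum, lmap_add, lmap_smul, bfa_lmap_pow, h1] at h
  rw [← sub_eq_iff_eq_add'] at h ⊢
  rw [← h]
  congr 1
  refine sum_congr rfl fun β _ => ?_
  have e7 := bfa_toL_map (Polynomial.aeval s : Polynomial ℂ →ₐ[ℂ] A).toRingHom (PW β)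
  rw [bfa_lmap_mul, bfa_lmap_mul, bfa_lmap_pow, bfa_GG_lmap, h1, e6, e7]

/-- MRX -/
theorem mrx {n r : ℕ} {ϑ : Type} [Fintype ϑ] (a : Fin r → (Fin n →₀ ℕ)) (κ : Fin r → ℂ)
    (bb : ϑ → Lat n) (hbb : ∀ k j, 0 ≤ bb k j) (lam : ϑ → ℂ) (b : Polynomial ℂ) (R : ℕ)
    (PW : H22.WeylS n) (E : LP (Polynomial ℂ) n) (hR : 0 < R)
    (hlen : ∀ β ∈ PW.support, (lst β).length ≤ R) (hid : AId a κ b R PW E)
    (hE : ∀ ρ, E.coeff ρ ≠ 0 → ∀ j, 0 ≤ ρ j)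
    (s0 t0 : ℂ) (ht0 : ∀ m : ℤ, t0 ≠ (m : ℂ)) (hs0 : ∀ k : ℕ, s0 ≠ (k : ℂ)) :
    ∃ x : LP PA (n + 2),
      ExL (fun j => jK (pp (PowerSeries.C s0 + PowerSeries.X) (PowerSeries.C t0) j)) (cA a bb)
        (fun i => jK (PowerSeries.C (cC κ lam i))) ev (sh univ) Set.univ
        (lmap jK (single 0 (Polynomial.aeval (PowerSeries.C s0 + PowerSeries.X : PA) b) - x)) ∧
      ∀ u, x.coeff u ≠ 0 → (∃ (ρ : Lat n) (i : Fin r),
        u = vec 0 R (ρ + fun j => (a i j : ℤ)) ∧ ∀ j, 0 ≤ ρ j) ∨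
        ∃ ρ : Lat n, E.coeff ρ ≠ 0 ∧ u = vec ((R : ℤ) - 1) 0 ρ := by
  classical
  obtain ⟨I, h1, h2, h3, h4, h5, h6⟩ := jfX a κ bb hbb lam s0 t0 ht0 hs0
  have hb := MRX_id a κ b R PW E hid (PowerSeries.C s0 + PowerSeries.X : PA)
  have hF := mrelL_F (fpoly a κ)
  have hH := mrelL_H bb hbb lam
  have hpb : ∀ β : Fin n →₀ ℕ, Supp (Pos n) (toL PA (MvPolynomial.map
      (Polynomial.aeval (PowerSeries.C s0 + PowerSeries.X : PA) :
      Polynomial ℂ →ₐ[ℂ] PA).toRingHom (PW β))) := fun β => mrel_toL_nonneg _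
  have hq := fun β : Fin n →₀ ℕ => bfbL (PowerSeries.C s0 + PowerSeries.X) (PowerSeries.C t0)
    (lmap (algebraMap ℂ PA) (toL ℂ (fpoly a κ))) (lmap (algebraMap ℂ PA) (Hl bb lam)) hF hH
    I h1 h2 h3 (lst β) 0 (toL PA (MvPolynomial.map
      (Polynomial.aeval (PowerSeries.C s0 + PowerSeries.X : PA) :
      Polynomial ℂ →ₐ[ℂ] PA).toRingHom (PW β))) (hpb β)
  choose q hq1 hq2 using hq
  obtain ⟨ρ0, hρ0⟩ := h5 R
  obtain ⟨ρ1, hρ1⟩ := h6 (R - 1)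
  have e1 := MRX_key _ _ _ _ _ hF hH I h1 h2 R hR PW.support hlen _ q hpb hq2 hb hq1
  rw [h4, hρ0, hρ1, ← Submodule.Quotient.mk_sub, ← lmap_sub] at e1
  refine ⟨_, mrelL_fin _ _ _ _ _ _ _ _ e1, fun u hu => ?_⟩
  rw [coeff_sub'] at hu
  by_cases hu1 : (PowerSeries.C ρ0 • emb (R : ℤ) (lmap (algebraMap ℂ PA) (toL ℂ (fpoly a κ)) *
      ∑ β ∈ PW.support, (lmap (algebraMap ℂ PA) (Hl bb lam)) ^ (R - (lst β).length) *
        q β)).coeff u = 0
  · right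
    rw [hu1, zero_sub, neg_ne_zero, coeff_smul'] at hu
    have hu2 := right_ne_zero_of_mul hu
    have h7 := Finsupp.mapDomain_support (Finsupp.mem_support_iff.2 hu2)
    obtain ⟨w, hw, rfl⟩ := Finset.mem_image.1 h7
    refine ⟨w, fun h8 => Finsupp.mem_support_iff.1 hw ?_, ?_⟩
    · rw [lmap_coeff, h8, map_zero]
    · rw [Nat.cast_sub hR, Nat.cast_one]
  · left
    exact mrelL_exp a κ R _
      (Supp.sum _ fun β _ => pos_mul (mrelL_pow hH _) (hq2 β)) _ u hu1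

end Pool.Agent.H22.T7
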