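import Pool.Agent.H22.T7.TDefs
import Pool.Agent.H56.SMC.NDG
import Pool.Agent.H56.SMC.H11Aux

/-!
# NDF: adding generic pure powers gives a polynomial nondegenerate for all weights

Proof.  Let `w : Fin m → ℤ`, `x` in the torus with `f'_w(x) = 0` and all `x_k ∂_k f'_w(x) = 0`.
Case 1: all `w_j > 0`.  The face of `w` for `a'` is the image under `η` of the face of `w` for `a`: for `t` not in the range of `η` and `W j = (w j).toNat`:
`∑ w_j a'_t j > wmin a W = min_i ∑ w_j a_i j` (`Above`; `exists_wmin` in `Pool/Agent/H56/SMC/H11Aux.lean` for the minimum; `r > 0` since otherwise `wmin = 0`... if `r = 0` then both sums over `a` are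
empty; treat: `nd` gives a contradiction for `r = 0`, all sums are `0`), so `t` is not on the face, and `η i` is on the face iff `i` is on the face for `a`.  So the sums coincide, contradicting `nd`.
Case 2: some `w_j ≤ 0`.  Choose `k` with `w_k` minimal, so `w_k ≤ 0`.  For every exponent `u = a' t` (`degree ≤ D0`): `∑ w_j u_j ≥ w_k ∑ u_j ≥ w_k D0 = w · (D0 e_k)`.  So `θ k` is on the face.
`der (T) lam hT k`: a derivation `𝒟` of `ℂ` with `𝒟 = 0` on `T`, `𝒟 lam_k = 1`, `𝒟 lam_j = 0` for `j ≠ k` (`T` as a set).  So `𝒟 (κ' t) = 0` for `t ≠ θ k`, `𝒟 (κ' (θ k)) = 1`.  Apply `𝒟` to `f'_w(x) = ∑_{t on the face} κ'_t x^{a'_t} = 0`: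
`0 = x_k^{D0} + ∑_t κ'_t x^{a'_t} ∑_j a'_{tj} 𝒟 x_j / x_j = x_k^{D0} + ∑_j (x_j ∂_j f'_w)(x) 𝒟 x_j / x_j = x_k^{D0}` (as in `ndg`, `ndg_deriv` with `ndgm x (fun j => (a' t j : ℤ))`).  But `x_k ≠ 0`.
-/

set_option autoImplicit false

namespace Pool.Agent.H22.T7

open Finset AddMonoidAlgebra
open Pool.Agent.H56.SMC Pool.Agent.H37.T5 Pool.Agent.H56.T5

/-- The weighted degree with natural weights. -/
theorem ndf_cast {m : ℕ} (w : Fin m → ℤ) (hw : ∀ j, 0 < w j) (u : Fin m →₀ ℕ) :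
    ∑ j, w j * (u j : ℤ) = ((∑ j, u j * (w j).toNat : ℕ) : ℤ) := by
  push_cast
  refine sum_congr rfl fun j _ => ?_
  rw [Int.toNat_of_nonneg (hw j).le, mul_comm]

/-- Case 1: positive weights. -/
theorem ndf_face {m r r' : ℕ} (hr : 0 < r) (a : Fin r → (Fin m →₀ ℕ))
    (a' : Fin r' → (Fin m →₀ ℕ)) (η : Fin r ↪ Fin r') (hη : Above a a' η)
    (w : Fin m → ℤ) (hw : ∀ j, 0 < w j) :
    (∀ i, (∀ t', ∑ j, w j * (a' (η i) j : ℤ) ≤ ∑ j, w j * (a' t' j : ℤ)) ↔
      (∀ i', ∑ j, w j * (a i j : ℤ) ≤ ∑ j, w j * (a i' j : ℤ))) ∧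
    ∀ t, t ∉ Set.range η → ¬ (∀ t', ∑ j, w j * (a' t j : ℤ) ≤ ∑ j, w j * (a' t' j : ℤ)) := by
  obtain ⟨i0, hi0⟩ := Pool.Agent.H56.SMC.H11.exists_wmin hr a (fun j => (w j).toNat)
  have hW : ∀ j, 0 < (w j).toNat := fun j => by have := hw j; omega
  have hlt : ∀ t, t ∉ Set.range η → ∑ j, w j * (a i0 j : ℤ) < ∑ j, w j * (a' t j : ℤ) := by
    intro t ht
    rw [ndf_cast w hw, ndf_cast w hw]
    have := hη.2 t ht (fun j => (w j).toNat) hW
    rw [← hi0] at this
    exact_mod_cast this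
  refine ⟨fun i => ⟨fun h i' => ?_, fun h t' => ?_⟩, fun t ht h => ?_⟩
  · have := h (η i')
    rwa [hη.1, hη.1] at this
  · rw [hη.1]
    by_cases ht : t' ∈ Set.range η
    · obtain ⟨i', rfl⟩ := ht
      rw [hη.1]
      exact h i'
    · exact (h i0).trans (hlt t' ht).le
  · have h1 := h (η i0)
    rw [hη.1] at h1
    exact absurd (hlt t ht) (not_lt.2 h1)

/-- NDF -/
theorem ndf {m r r' : ℕ} (hm : 0 < m) (a : Fin r → (Fin m →₀ ℕ)) (κ : Fin r → ℂ)
    (a' : Fin r' → (Fin m →₀ ℕ)) (κ' : Fin r' → ℂ) (η : Fin r ↪ Fin r') (hη : Above a a' η)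
    (hκη : ∀ i, κ' (η i) = κ i) (nd : NondegC a κ) (D0 : ℕ)
    (hdeg : ∀ t, (a' t).degree ≤ D0) (T : Set ℂ) (lam : Fin m → ℂ)
    (hT : AlgebraicIndependent (Algebra.adjoin ℚ T) lam) (θ : Fin m ↪ Fin r')
    (hθ1 : ∀ j, a' (θ j) = Finsupp.single j D0) (hθ2 : ∀ j, κ' (θ j) = lam j)
    (hκT : ∀ t, t ∉ Set.range θ → κ' t ∈ T) : Nondeg a' κ' := by
  classical
  intro w x hx
  rintro ⟨hf, hk⟩
  by_cases hw : ∀ j, 0 < w j
  · -- positive weights
    rcases Nat.eq_zero_or_pos r with hr | hr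
    · subst hr
      exact nd w hw x hx ⟨by simp, fun k => by simp⟩
    obtain ⟨h1, h2⟩ := ndf_face hr a a' η hη w hw
    refine nd w hw x hx ⟨?_, fun k => ?_⟩
    · rw [← hf, sum_filter, sum_filter]
      refine Fintype.sum_of_injective η η.injective _ _ (fun t ht => if_neg (h2 t ht)) fun i => ?_
      rw [hκη, if_congr (h1 i) rfl rfl, hη.1]
    · rw [← hk k, sum_filter, sum_filter]
      refine Fintype.sum_of_injective η η.injective _ _ (fun t ht => if_neg (h2 t ht)) fun i => ?_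
      rw [hκη, if_congr (h1 i) rfl rfl, hη.1]
  · push Not at hw
    obtain ⟨j0, hj0⟩ := hw
    have : Nonempty (Fin m) := ⟨⟨0, hm⟩⟩
    obtain ⟨k, hkmin⟩ := Finite.exists_min w
    have hk0 : w k ≤ 0 := (hkmin j0).trans hj0
    have hface : ∀ t', ∑ j, w j * (a' (θ k) j : ℤ) ≤ ∑ j, w j * (a' t' j : ℤ) := by
      intro t'
      have e1 : ∑ j, w j * (a' (θ k) j : ℤ) = w k * D0 := by
        rw [hθ1, Finset.sum_eq_single k]
        · simp
        · intro j _ hj
          simp [Finsupp.single_eq_of_ne hj]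
        · simp
      have e2 : w k * ((a' t').degree : ℤ) ≤ ∑ j, w j * (a' t' j : ℤ) := by
        rw [Finsupp.degree_eq_sum]
        push_cast
        rw [mul_sum]
        exact sum_le_sum fun j _ => mul_le_mul_of_nonneg_right (hkmin j) (by positivity)
      have e3 : w k * (D0 : ℤ) ≤ w k * ((a' t').degree : ℤ) := by
        have := hdeg t'
        exact mul_le_mul_of_nonpos_left (by exact_mod_cast this) hk0
      rw [e1]
      exact e3.trans e2
    obtain ⟨D, hD1, hD2, hD3⟩ := der T lam hT k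
    set mA : Fin r' → ℂ := fun t =>
      if ∀ t', ∑ j, w j * (a' t j : ℤ) ≤ ∑ j, w j * (a' t' j : ℤ) then
        ndgm x (fun j => (a' t j : ℤ)) else 0 with hmA
    have hE0 : ∑ t, κ' t * mA t = 0 := by
      rw [← hf, sum_filter]
      refine sum_congr rfl fun t _ => ?_
      simp only [hmA]
      split_ifs
      · simp [ndgm]
      · simp
    have hEk : ∀ k, ∑ t, κ' t * (a' t k : ℂ) * mA t = 0 := by
      intro k
      rw [← hk k, sum_filter]
      refine sum_congr rfl fun t _ => ?_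
      simp only [hmA]
      split_ifs
      · simp [ndgm]
      · simp
    have hDm : ∀ t, D (mA t) = ∑ j, ((a' t j : ℂ) * mA t) * (D (x j) / x j) := by
      intro t
      simp only [hmA]
      split_ifs
      · rw [ndg_deriv D x hx, mul_sum]
        refine sum_congr rfl fun j _ => ?_
        push_cast
        ring
      · simp
    have hDκ : ∀ t, D (κ' t) = if t = θ k then 1 else 0 := by
      intro t
      split_ifs with ht
      · rw [ht, hθ2, hD2]
      · by_cases hr : t ∈ Set.range θ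
        · obtain ⟨j, rfl⟩ := hr
          rw [hθ2]
          exact hD3 j fun h => ht (by rw [h])
        · exact hD1 _ (hκT t hr)
    have h1 := congrArg D hE0
    rw [map_zero, map_sum] at h1
    have h2 : ∀ t, D (κ' t * mA t) = (if t = θ k then mA t else 0) +
        ∑ j, (κ' t * (a' t j : ℂ) * mA t) * (D (x j) / x j) := by
      intro t
      rw [Derivation.leibniz, hDm, hDκ]
      simp only [smul_eq_mul, mul_sum]
      rw [add_comm]
      congr 1
      · split_ifs <;> simp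
      · exact sum_congr rfl fun j _ => by ring
    simp only [h2] at h1
    rw [sum_add_distrib, sum_ite_eq' univ (θ k), if_pos (mem_univ _), sum_comm] at h1
    have h3 : ∑ j, ∑ t, (κ' t * (a' t j : ℂ) * mA t) * (D (x j) / x j) = 0 := by
      refine sum_eq_zero fun j _ => ?_
      rw [← sum_mul, hEk, zero_mul]
    rw [h3, add_zero] at h1
    simp only [hmA] at h1
    rw [if_pos hface] at h1
    exact ndgm_ne x hx _ h1

end Pool.Agent.H22.T7
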