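import Pool.Agent.H22.T7.TDefs

/-!
# PFB: differential operators and polynomial families, basic facts

Proof.  `mulLeft_mem`, `der_mem`, `const_mem`, `id_mem`: `Algebra.subset_adjoin`.
`Diff_ind`: the set `S = {D | ∀ E, P E → P (D * E)}` is a subalgebra of `Module.End ℂ R` (sums: `add_mul`; products: `mul_assoc`; `algebraMap c`:
`(algebraMap c) * E = c • E`) which contains the generators, so `Diff R ≤ S`; take `E = 1`.
`PF_iff`.  `⊇`: `c ↦ c^i • D_i` is the product of the `i`-th power of `c ↦ c • 1` and the constant family `D_i`.  `⊆`: the families of the form on the right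
form a subalgebra (sum: pad with `0` to `d = max`; or `d = d1 + d2` is not allowed, since the exponent is the index, so pad; product: Cauchy product,
`(∑_i c^i D_i)(∑_j c^j E_j) = ∑_l c^l ∑_{i+j=l} D_i E_j`; constants: `d = 1`) containing the generators (`c • 1`: `d = 2`, `D_0 = 0`, `D_1 = 1`).  A convenient
intermediate form: `∃ (d : ℕ) (D : ℕ → Module.End ℂ R), (∀ i, D i ∈ Diff R) ∧ ∀ c, B c = ∑ i ∈ range d, c^i • D i`, and then `Finset.sum_range`.
`PF_aff`: the set of all `B` with `(fun c => B (α * c + β)) ∈ PF R` is a subalgebra (composition with `c ↦ α c + β` is an algebra homomorphism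
`Pi.…`) containing the generators: `c ↦ (α c + β) • 1 = α • (c • 1) + β • 1`, constants.
-/

set_option autoImplicit false

namespace Pool.Agent.H22.T7

open Finset

variable {R : Type} [CommRing R] [Algebra ℂ R]

theorem mulLeft_mem (a : R) : LinearMap.mulLeft ℂ a ∈ Diff R :=
  Algebra.subset_adjoin (Or.inl ⟨a, rfl⟩)

theorem der_mem (δ : Derivation ℂ R R) : δ.toLinearMap ∈ Diff R :=
  Algebra.subset_adjoin (Or.inr ⟨δ, rfl⟩)

/-- Induction for differential operators. -/
theorem Diff_ind {P : Module.End ℂ R → Prop} (h1 : P 1)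
    (hadd : ∀ D E, P D → P E → P (D + E)) (hsmul : ∀ (c : ℂ) D, P D → P (c • D))
    (hmul : ∀ a D, P D → P (LinearMap.mulLeft ℂ a * D))
    (hder : ∀ (δ : Derivation ℂ R R) D, P D → P (δ.toLinearMap * D)) :
    ∀ D ∈ Diff R, P D := by
  intro D hD
  have key : ∀ E, P E → P (D * E) := by
    unfold Diff at hD
    refine Algebra.adjoin_induction (p := fun D _ => ∀ E, P E → P (D * E)) ?_ ?_ ?_ ?_ hD
    · rintro D (⟨a, rfl⟩ | ⟨δ, rfl⟩) E hE
      · exact hmul a E hE
      · exact hder δ E hE
    · intro c E hE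
      rw [Algebra.algebraMap_eq_smul_one, smul_mul_assoc, one_mul]
      exact hsmul c E hE
    · intro D1 D2 _ _ h1 h2 E hE
      rw [add_mul]
      exact hadd _ _ (h1 E hE) (h2 E hE)
    · intro D1 D2 _ _ h1 h2 E hE
      rw [mul_assoc]
      exact h1 _ (h2 E hE)
  have := key 1 h1
  rwa [mul_one] at this

theorem const_mem {D : Module.End ℂ R} (hD : D ∈ Diff R) : (fun _ => D) ∈ PF R :=
  Algebra.subset_adjoin (Or.inr ⟨D, hD, rfl⟩)

theorem id_mem : (fun c => c • (1 : Module.End ℂ R)) ∈ PF R :=
  Algebra.subset_adjoin (Or.inl rfl)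

/-- The families `c ↦ ∑_{i<d} c^i D_i`. -/
def PForm (B : ℂ → Module.End ℂ R) : Prop :=
  ∃ (d : ℕ) (D : ℕ → Module.End ℂ R), (∀ i, D i ∈ Diff R) ∧
    ∀ c, B c = ∑ i ∈ range d, c ^ i • D i

theorem pform_pad {d d' : ℕ} (h : d ≤ d') (D : ℕ → Module.End ℂ R) (c : ℂ) :
    ∑ i ∈ range d, c ^ i • D i = ∑ i ∈ range d', c ^ i • (if i < d then D i else 0) := by
  rw [← Finset.sum_subset (Finset.range_mono h)]
  · apply Finset.sum_congr rfl
    intro i hi
    rw [if_pos (Finset.mem_range.1 hi)]
  · intro i _ hi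
    rw [if_neg (fun h => hi (Finset.mem_range.2 h)), smul_zero]

theorem pform_of_mem {B : ℂ → Module.End ℂ R} (hB : B ∈ PF R) : PForm B := by
  unfold PF at hB
  refine Algebra.adjoin_induction (p := fun B _ => PForm B) ?_ ?_ ?_ ?_ hB
  · rintro B (rfl | ⟨D, hD, rfl⟩)
    · refine ⟨2, fun i => if i = 1 then 1 else 0, ?_, ?_⟩
      · intro i
        dsimp only
        split_ifs
        · exact one_mem _
        · exact zero_mem _
      · intro c
        simp [Finset.sum_range_succ]
    · refine ⟨1, fun _ => D, fun _ => hD, ?_⟩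
      intro c
      simp
  · intro r
    refine ⟨1, fun _ => r • 1, fun _ => (Diff R).smul_mem (one_mem _) r, ?_⟩
    intro c
    simp [Algebra.algebraMap_eq_smul_one]
  · rintro B1 B2 _ _ ⟨d1, D1, h1, e1⟩ ⟨d2, D2, h2, e2⟩
    refine ⟨max d1 d2, fun i => (if i < d1 then D1 i else 0) + (if i < d2 then D2 i else 0), ?_, ?_⟩
    · intro i
      dsimp only
      refine add_mem ?_ ?_
      · split_ifs
        · exact h1 i
        · exact zero_mem _
      · split_ifs
        · exact h2 i
        · exact zero_mem _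
    · intro c
      rw [Pi.add_apply, e1, e2, pform_pad (le_max_left d1 d2), pform_pad (le_max_right d1 d2),
        ← Finset.sum_add_distrib]
      apply Finset.sum_congr rfl
      intro i _
      rw [smul_add]
  · rintro B1 B2 _ _ ⟨d1, D1, h1, e1⟩ ⟨d2, D2, h2, e2⟩
    refine ⟨d1 + d2, fun l => ∑ p ∈ antidiagonal l,
      (if p.1 < d1 then D1 p.1 else 0) * (if p.2 < d2 then D2 p.2 else 0), ?_, ?_⟩
    · intro l
      dsimp only
      refine sum_mem ?_
      intro p _
      refine mul_mem ?_ ?_
      · split_ifs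
        · exact h1 _
        · exact zero_mem _
      · split_ifs
        · exact h2 _
        · exact zero_mem _
    · intro c
      rw [Pi.mul_apply, e1, e2]
      have e3 : ∀ l, c ^ l • (∑ p ∈ antidiagonal l,
          (if p.1 < d1 then D1 p.1 else 0) * (if p.2 < d2 then D2 p.2 else 0)) =
          ∑ p ∈ antidiagonal l, (c ^ p.1 • (if p.1 < d1 then D1 p.1 else 0)) *
            (c ^ p.2 • (if p.2 < d2 then D2 p.2 else 0)) := by
        intro l
        rw [Finset.smul_sum]
        apply Finset.sum_congr rfl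
        intro p hp
        rw [smul_mul_smul_comm, ← pow_add, HasAntidiagonal.mem_antidiagonal.1 hp]
      simp_rw [e3]
      rw [Finset.sum_mul_sum, ← Finset.sum_product', Finset.sum_sigma']
      refine Finset.sum_bij_ne_zero (fun (p : ℕ × ℕ) _ _ => (⟨p.1 + p.2, p⟩ : (_ : ℕ) × (ℕ × ℕ)))
        ?_ ?_ ?_ ?_
      · rintro ⟨i, j⟩ h _
        simp only [Finset.mem_product, Finset.mem_range] at h
        simp only [Finset.mem_sigma, Finset.mem_range, HasAntidiagonal.mem_antidiagonal, and_true]
        omega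
      · rintro p _ _ q _ _ h
        simp only [Sigma.mk.injEq, heq_eq_eq] at h
        exact h.2
      · rintro ⟨l, i, j⟩ h h0
        simp only [Finset.mem_sigma, Finset.mem_range, HasAntidiagonal.mem_antidiagonal] at h
        have hi : i < d1 := by
          by_contra hi
          apply h0
          dsimp only
          rw [if_neg hi, smul_zero, zero_mul]
        have hj : j < d2 := by
          by_contra hj
          apply h0
          dsimp only
          rw [if_neg hj, smul_zero, mul_zero]
        refine ⟨(i, j), ?_, ?_, ?_⟩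
        · simp only [Finset.mem_product, Finset.mem_range]
          exact ⟨hi, hj⟩
        · dsimp only at h0 ⊢
          rw [if_pos hi, if_pos hj] at h0
          exact h0
        · dsimp only
          rw [h.2]
      · rintro ⟨i, j⟩ h _
        simp only [Finset.mem_product, Finset.mem_range] at h
        dsimp only
        rw [if_pos h.1, if_pos h.2]

theorem pow_id_mem (i : ℕ) : (fun c : ℂ => c ^ i • (1 : Module.End ℂ R)) ∈ PF R := by
  have h : (fun c : ℂ => c ^ i • (1 : Module.End ℂ R)) =
      (fun c : ℂ => c • (1 : Module.End ℂ R)) ^ i := by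
    funext c
    rw [Pi.pow_apply, smul_pow, one_pow]
  rw [h]
  exact pow_mem id_mem i

/-- The explicit form of a polynomial family. -/
theorem PF_iff (B : ℂ → Module.End ℂ R) : B ∈ PF R ↔
    ∃ (d : ℕ) (D : Fin d → Module.End ℂ R), (∀ i, D i ∈ Diff R) ∧
      ∀ c, B c = ∑ i : Fin d, c ^ (i : ℕ) • D i := by
  constructor
  · intro hB
    obtain ⟨d, D, hD, e⟩ := pform_of_mem hB
    refine ⟨d, fun i => D i, fun i => hD i, ?_⟩
    intro c
    rw [e, Finset.sum_range]
  · rintro ⟨d, D, hD, e⟩
    have h : B = ∑ i : Fin d, (fun c : ℂ => c ^ (i : ℕ) • (1 : Module.End ℂ R)) * (fun _ => D i) := by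
      funext c
      rw [e, Finset.sum_apply]
      apply Finset.sum_congr rfl
      intro i _
      rw [Pi.mul_apply, smul_mul_assoc, one_mul]
    rw [h]
    exact sum_mem fun i _ => mul_mem (pow_id_mem _) (const_mem (hD i))

theorem PF_aff {B : ℂ → Module.End ℂ R} (hB : B ∈ PF R) (α β : ℂ) :
    (fun c => B (α * c + β)) ∈ PF R := by
  have hB' := hB
  unfold PF at hB'
  refine Algebra.adjoin_induction (p := fun B _ => (fun c => B (α * c + β)) ∈ PF R)
    ?_ ?_ ?_ ?_ hB'
  · rintro B (rfl | ⟨D, hD, rfl⟩)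
    · have h : (fun c => (α * c + β) • (1 : Module.End ℂ R)) =
          α • (fun c => c • (1 : Module.End ℂ R)) + β • (fun _ => (1 : Module.End ℂ R)) := by
        funext c
        simp [add_smul, mul_smul]
      rw [h]
      exact add_mem ((PF R).smul_mem id_mem α) ((PF R).smul_mem (const_mem (one_mem _)) β)
    · exact const_mem hD
  · intro r
    exact (PF R).algebraMap_mem r
  · intro B1 B2 _ _ h1 h2
    exact add_mem h1 h2
  · intro B1 B2 _ _ h1 h2
    exact mul_mem h1 h2

end Pool.Agent.H22.T7
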