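import Pool.Agent.H22.T7.EXT

/-!
# SUA: the operators `Θ = ∑ u_k ∂_{u_k}` and `Δ = ∑ ∂_{u_k} ∂_{v_k}`

`Q = rename inr (QQ e) = ∑_k u_k v_k`.
Proof.  `Θ = ∑_k mulLeft u_k * pderiv u_k`, `Δ = ∑_k pderiv u_k * pderiv v_k`, `u_k = X (inr (inl k))`, `v_k = X (inr (inr k))`; both in `Diff`.
`pderiv u_k (rename inl g) = 0` (`pderiv_inr_inl`), `pderiv u_k Q = v_k`, `pderiv v_k Q = u_k`.  So `pderiv u_k (g Q^q) = q Q^{q-1} v_k g` (`Derivation.leibniz_pow`), `Θ (g Q^q) = q Q^{q-1} Q g = q g Q^q`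
(also for `q = 0`); `pderiv v_k (g Q^{q+1}) = (q+1) g Q^q u_k`, `pderiv u_k` of this: `(q+1) g (q Q^{q-1} v_k u_k + Q^q)`; the sum over `k`: `(q+1) g (q Q^q + e Q^q)`.
`Q` is `rename inr (QQ e)`: `QQ`, `map_sum`, `rename_X`.
-/

set_option autoImplicit false

namespace Pool.Agent.H22.T7

open Finset

theorem SUA_Q (m e : ℕ) :
    (MvPowerSeries.rename Sum.inr (QQ e) : MvPowerSeries (Fin m ⊕ (Fin e ⊕ Fin e)) ℂ) =
      ∑ k, MvPowerSeries.X (Sum.inr (Sum.inl k)) * MvPowerSeries.X (Sum.inr (Sum.inr k)) := by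
  unfold QQ
  rw [map_sum]
  refine Finset.sum_congr rfl fun k _ => ?_
  rw [map_mul, MvPowerSeries.rename_X, MvPowerSeries.rename_X]

theorem sus_eq {m : ℕ} (G : MvPowerSeries (Fin m) ℂ) (e : ℕ) :
    sus G e = MvPowerSeries.rename Sum.inl G + MvPowerSeries.rename Sum.inr (QQ e) := by
  rw [SUA_Q]
  rfl

theorem SUA_du (m e : ℕ) (k : Fin e) :
    MvPowerSeries.pderiv ℂ (Sum.inr (Sum.inl k) : Fin m ⊕ (Fin e ⊕ Fin e))
      (MvPowerSeries.rename Sum.inr (QQ e)) = MvPowerSeries.X (Sum.inr (Sum.inr k)) := by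
  rw [SUA_Q, map_sum, Finset.sum_eq_single k]
  · rw [Derivation.leibniz, MvPowerSeries.pderiv_X_self, MvPowerSeries.pderiv_X_of_ne (by simp),
      smul_zero, zero_add, smul_eq_mul, mul_one]
  · intro l _ hl
    have e1 : MvPowerSeries.pderiv ℂ (Sum.inr (Sum.inl k) : Fin m ⊕ (Fin e ⊕ Fin e))
        (MvPowerSeries.X (Sum.inr (Sum.inl l))) = 0 :=
      MvPowerSeries.pderiv_X_of_ne (by simpa using hl)
    have e2 : MvPowerSeries.pderiv ℂ (Sum.inr (Sum.inl k) : Fin m ⊕ (Fin e ⊕ Fin e))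
        (MvPowerSeries.X (Sum.inr (Sum.inr l))) = 0 :=
      MvPowerSeries.pderiv_X_of_ne (by simp)
    rw [Derivation.leibniz, e1, e2, smul_zero, smul_zero, add_zero]
  · intro h
    exact absurd (Finset.mem_univ k) h

theorem SUA_dv (m e : ℕ) (k : Fin e) :
    MvPowerSeries.pderiv ℂ (Sum.inr (Sum.inr k) : Fin m ⊕ (Fin e ⊕ Fin e))
      (MvPowerSeries.rename Sum.inr (QQ e)) = MvPowerSeries.X (Sum.inr (Sum.inl k)) := by
  rw [SUA_Q, map_sum, Finset.sum_eq_single k]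
  · rw [Derivation.leibniz, MvPowerSeries.pderiv_X_self, MvPowerSeries.pderiv_X_of_ne (by simp),
      smul_zero, add_zero, smul_eq_mul, mul_one]
  · intro l _ hl
    have e1 : MvPowerSeries.pderiv ℂ (Sum.inr (Sum.inr k) : Fin m ⊕ (Fin e ⊕ Fin e))
        (MvPowerSeries.X (Sum.inr (Sum.inl l))) = 0 :=
      MvPowerSeries.pderiv_X_of_ne (by simp)
    have e2 : MvPowerSeries.pderiv ℂ (Sum.inr (Sum.inr k) : Fin m ⊕ (Fin e ⊕ Fin e))
        (MvPowerSeries.X (Sum.inr (Sum.inr l))) = 0 :=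
      MvPowerSeries.pderiv_X_of_ne (by simpa using hl)
    rw [Derivation.leibniz, e1, e2, smul_zero, smul_zero, add_zero]
  · intro h
    exact absurd (Finset.mem_univ k) h

theorem SUA_dpow {R : Type} [CommRing R] [Algebra ℂ R] (D : Derivation ℂ R R) (g Q w : R)
    (hg : D g = 0) (hQ : D Q = w) (q : ℕ) :
    D (g * Q ^ q) = g * ((q : R) * (Q ^ (q - 1) * w)) := by
  rw [Derivation.leibniz, Derivation.leibniz_pow, hg, hQ, smul_zero, add_zero, smul_eq_mul,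
    smul_eq_mul, nsmul_eq_mul]

/-- SUA -/
theorem sua (m e : ℕ) :
    ∃ Θ ∈ Diff (MvPowerSeries (Fin m ⊕ (Fin e ⊕ Fin e)) ℂ),
    ∃ Δ ∈ Diff (MvPowerSeries (Fin m ⊕ (Fin e ⊕ Fin e)) ℂ),
      (∀ (g : MvPowerSeries (Fin m) ℂ) (q : ℕ),
        Θ (MvPowerSeries.rename Sum.inl g * (MvPowerSeries.rename Sum.inr (QQ e)) ^ q) =
          (q : ℂ) • (MvPowerSeries.rename Sum.inl g *
            (MvPowerSeries.rename Sum.inr (QQ e)) ^ q)) ∧
      (∀ g : MvPowerSeries (Fin m) ℂ, Δ (MvPowerSeries.rename Sum.inl g) = 0) ∧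
      (∀ (g : MvPowerSeries (Fin m) ℂ) (q : ℕ),
        Δ (MvPowerSeries.rename Sum.inl g * (MvPowerSeries.rename Sum.inr (QQ e)) ^ (q + 1)) =
          (((q : ℂ) + 1) * ((q : ℂ) + e)) • (MvPowerSeries.rename Sum.inl g *
            (MvPowerSeries.rename Sum.inr (QQ e)) ^ q)) := by
  let u : Fin e → MvPowerSeries (Fin m ⊕ (Fin e ⊕ Fin e)) ℂ :=
    fun k => MvPowerSeries.X (Sum.inr (Sum.inl k))
  let v : Fin e → MvPowerSeries (Fin m ⊕ (Fin e ⊕ Fin e)) ℂ :=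
    fun k => MvPowerSeries.X (Sum.inr (Sum.inr k))
  let du : Fin e → Derivation ℂ (MvPowerSeries (Fin m ⊕ (Fin e ⊕ Fin e)) ℂ)
      (MvPowerSeries (Fin m ⊕ (Fin e ⊕ Fin e)) ℂ) :=
    fun k => MvPowerSeries.pderiv ℂ (Sum.inr (Sum.inl k))
  let dv : Fin e → Derivation ℂ (MvPowerSeries (Fin m ⊕ (Fin e ⊕ Fin e)) ℂ)
      (MvPowerSeries (Fin m ⊕ (Fin e ⊕ Fin e)) ℂ) :=
    fun k => MvPowerSeries.pderiv ℂ (Sum.inr (Sum.inr k))
  set Q : MvPowerSeries (Fin m ⊕ (Fin e ⊕ Fin e)) ℂ := MvPowerSeries.rename Sum.inr (QQ e) with hQ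
  have hQs : ∑ k, u k * v k = Q := (SUA_Q m e).symm
  have hduQ : ∀ k, du k Q = v k := fun k => SUA_du m e k
  have hdvQ : ∀ k, dv k Q = u k := fun k => SUA_dv m e k
  have hdug : ∀ k (g : MvPowerSeries (Fin m) ℂ), du k (MvPowerSeries.rename Sum.inl g) = 0 :=
    fun k g => pderiv_inr_inl (Sum.inl k) g
  have hdvg : ∀ k (g : MvPowerSeries (Fin m) ℂ), dv k (MvPowerSeries.rename Sum.inl g) = 0 :=
    fun k g => pderiv_inr_inl (Sum.inr k) g
  have hduu : ∀ k, du k (u k) = 1 := fun k => MvPowerSeries.pderiv_X_self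
  have hmem : ∀ δ : Derivation ℂ (MvPowerSeries (Fin m ⊕ (Fin e ⊕ Fin e)) ℂ)
      (MvPowerSeries (Fin m ⊕ (Fin e ⊕ Fin e)) ℂ), δ.toLinearMap ∈
        Diff (MvPowerSeries (Fin m ⊕ (Fin e ⊕ Fin e)) ℂ) := fun δ =>
    Algebra.subset_adjoin (Or.inr ⟨δ, rfl⟩)
  have hmul : ∀ a : MvPowerSeries (Fin m ⊕ (Fin e ⊕ Fin e)) ℂ, LinearMap.mulLeft ℂ a ∈
        Diff (MvPowerSeries (Fin m ⊕ (Fin e ⊕ Fin e)) ℂ) := fun a =>
    Algebra.subset_adjoin (Or.inl ⟨a, rfl⟩)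
  have hpow : ∀ q : ℕ, (q : MvPowerSeries (Fin m ⊕ (Fin e ⊕ Fin e)) ℂ) * (Q ^ (q - 1) * Q) =
      q * Q ^ q := by
    intro q
    rcases q with _ | q
    · simp
    · rw [Nat.add_sub_cancel, ← pow_succ]
  refine ⟨∑ k, LinearMap.mulLeft ℂ (u k) * (du k).toLinearMap,
    Subalgebra.sum_mem _ fun k _ => Subalgebra.mul_mem _ (hmul _) (hmem _),
    ∑ k, (du k).toLinearMap * (dv k).toLinearMap,
    Subalgebra.sum_mem _ fun k _ => Subalgebra.mul_mem _ (hmem _) (hmem _), ?_, ?_, ?_⟩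
  · intro g q
    rw [LinearMap.sum_apply]
    have h1 : ∀ k ∈ (Finset.univ : Finset (Fin e)),
        (LinearMap.mulLeft ℂ (u k) * (du k).toLinearMap)
          (MvPowerSeries.rename Sum.inl g * Q ^ q) =
        (MvPowerSeries.rename Sum.inl g * ((q : MvPowerSeries (Fin m ⊕ (Fin e ⊕ Fin e)) ℂ) *
          Q ^ (q - 1))) * (u k * v k) := by
      intro k _
      change u k * du k (MvPowerSeries.rename Sum.inl g * Q ^ q) = _
      rw [SUA_dpow (du k) _ Q (v k) (hdug k g) (hduQ k) q]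
      ring
    rw [Finset.sum_congr rfl h1, ← Finset.mul_sum, hQs]
    have h2 := hpow q
    rw [Nat.cast_smul_eq_nsmul, nsmul_eq_mul]
    linear_combination MvPowerSeries.rename Sum.inl g * h2
  · intro g
    rw [LinearMap.sum_apply]
    refine Finset.sum_eq_zero fun k _ => ?_
    change du k (dv k (MvPowerSeries.rename Sum.inl g)) = 0
    rw [hdvg, map_zero]
  · intro g q
    rw [LinearMap.sum_apply]
    have h1 : ∀ k ∈ (Finset.univ : Finset (Fin e)),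
        ((du k).toLinearMap * (dv k).toLinearMap)
          (MvPowerSeries.rename Sum.inl g * Q ^ (q + 1)) =
        ((q + 1 : ℕ) : MvPowerSeries (Fin m ⊕ (Fin e ⊕ Fin e)) ℂ) *
          (MvPowerSeries.rename Sum.inl g *
          ((q : MvPowerSeries (Fin m ⊕ (Fin e ⊕ Fin e)) ℂ) * Q ^ (q - 1))) * (u k * v k) +
        ((q + 1 : ℕ) : MvPowerSeries (Fin m ⊕ (Fin e ⊕ Fin e)) ℂ) *
          (MvPowerSeries.rename Sum.inl g * Q ^ q) := by
      intro k _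
      change du k (dv k (MvPowerSeries.rename Sum.inl g * Q ^ (q + 1))) = _
      rw [SUA_dpow (dv k) _ Q (u k) (hdvg k g) (hdvQ k) (q + 1), Nat.add_sub_cancel]
      have h3 : MvPowerSeries.rename Sum.inl g *
          (((q + 1 : ℕ) : MvPowerSeries (Fin m ⊕ (Fin e ⊕ Fin e)) ℂ) * (Q ^ q * u k)) =
          (q + 1 : ℕ) • ((MvPowerSeries.rename Sum.inl g * Q ^ q) * u k) := by
        rw [nsmul_eq_mul]
        ring
      rw [h3, map_nsmul, Derivation.leibniz, hduu,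
        SUA_dpow (du k) _ Q (v k) (hdug k g) (hduQ k) q, nsmul_eq_mul, smul_eq_mul, smul_eq_mul]
      ring
    rw [Finset.sum_congr rfl h1, Finset.sum_add_distrib, ← Finset.mul_sum, hQs,
      Finset.sum_const, Finset.card_univ, Fintype.card_fin, nsmul_eq_mul]
    have h2 := hpow q
    have h4 : (((q : ℂ) + 1) * ((q : ℂ) + e)) = (((q + 1) * (q + e) : ℕ) : ℂ) := by
      push_cast
      ring
    rw [h4, Nat.cast_smul_eq_nsmul, nsmul_eq_mul]
    push_cast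
    linear_combination ((q : MvPowerSeries (Fin m ⊕ (Fin e ⊕ Fin e)) ℂ) + 1) *
      MvPowerSeries.rename Sum.inl g * h2

end Pool.Agent.H22.T7
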