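import Pool.Agent.H22.T7.QF

/-!
# UP: from `G^N U` to `G`

Proof.  Let `B (k) (f^{k+1}) = b(k) f^k`, `f = G^N U`.  `B1 c = B (c - 1)` (`PF_aff`), `M`, `B1'` from `conj hB1 U`.  For `j = k + 1`, `h = G^{N(k+1)}`, `h U^j = f^{k+1}`:
`U^{k+1} B1' (k+1) (G^{N(k+1)}) = U^M b(k) f^k = U^M b(k) G^{Nk} U^k`, so `U B1'(k+1) (G^{N(k+1)}) = b(k) U^M G^{Nk}`.  Put
`C t = mulLeft U * B1' (t/N + 1) * mulLeft (G^{N-1})`, in `PF R` (`PF_aff`, `mulLeft_mem`).  For `t = Nk`: `C t (G^{t+1}) = b(t/N) U^M G^t` (`(N-1) + Nk + 1 = N(k+1)`).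
General `t ∈ ℕ`: `conj` for `C2 c = C (c - 1)` and `U := G`, `h = 1`: `G^m C t (G^{t+1}) = G^{t+1} C2' (t+1) 1` for all `t`.  Let `p`, `q` be the polynomials over `R` with
`p(t) = G · C2' (t+1) 1` (`ev_pol`, composed with `X + 1`) and `q(t) = b(t/N) U^M G^m`.  For `t = Nk`: `G^t p(t) = G^m C t (G^{t+1}) = G^t q(t)`, so
`p = q` (`pol_zero` for `p - q`).  So for all `t`: `G^m C t (G^{t+1}) = G^t q(t) = G^m b(t/N) U^M G^t`; cancel `G^m`.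
`FEqV_unit`: `B' = mulLeft (v⁻¹) * B`.
-/

set_option autoImplicit false

namespace Pool.Agent.H22.T7

open Finset

variable {R : Type} [CommRing R] [Algebra ℂ R]

theorem FEqV_unit (G v V : R) (hv : IsUnit v) (b : Polynomial ℂ) (h : FEqV R G (v * V) b) :
    FEqV R G V b := by
  obtain ⟨B, hB, hk⟩ := h
  obtain ⟨w, hw⟩ := hv.exists_left_inv
  refine ⟨(fun _ => LinearMap.mulLeft ℂ w) * B, mul_mem (const_mem (mulLeft_mem w)) hB, ?_⟩
  intro k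
  have h1 : ((fun _ => LinearMap.mulLeft ℂ w) * B : ℂ → Module.End ℂ R) (k : ℂ) (G ^ (k + 1)) =
      w * B (k : ℂ) (G ^ (k + 1)) := rfl
  rw [h1, hk k, mul_smul_comm]
  congr 1
  calc w * (v * V * G ^ k) = (w * v) * (V * G ^ k) := by ring
    _ = V * G ^ k := by rw [hw, one_mul]

/-- UP -/
theorem up [IsDomain R] (G U : R) (hG : G ≠ 0) (hU : U ≠ 0) (N : ℕ) (hN : 0 < N)
    (b : Polynomial ℂ) (h : FEq R (G ^ N * U) b) :
    ∃ M : ℕ, FEqV R G (U ^ M) (b.comp (Polynomial.C ((N : ℂ)⁻¹) * Polynomial.X)) := by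
  obtain ⟨B, hB, hk⟩ := h
  have hNC : (N : ℂ) ≠ 0 := Nat.cast_ne_zero.mpr hN.ne'
  obtain ⟨M, B1', hB1', h1⟩ := conj (PF_aff hB 1 (-1)) U
  -- the equation for multiples of N
  have hU1 : ∀ k : ℕ, U * B1' ((k + 1 : ℕ) : ℂ) (G ^ (N * (k + 1))) =
      b.eval (k : ℂ) • (U ^ M * G ^ (N * k)) := by
    intro k
    have e1 := h1 (k + 1) (G ^ (N * (k + 1)))
    have e2 : G ^ (N * (k + 1)) * U ^ (k + 1) = (G ^ N * U) ^ (k + 1) := by
      rw [mul_pow, ← pow_mul]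
    have e3 : (1 : ℂ) * ((k + 1 : ℕ) : ℂ) + -1 = (k : ℂ) := by push_cast; ring
    rw [e2] at e1
    simp only [e3] at e1
    rw [hk k] at e1
    have e4 : U ^ k * (U * B1' ((k + 1 : ℕ) : ℂ) (G ^ (N * (k + 1)))) =
        U ^ k * (b.eval (k : ℂ) • (U ^ M * G ^ (N * k))) := by
      have e5 : U ^ k * (U * B1' ((k + 1 : ℕ) : ℂ) (G ^ (N * (k + 1)))) =
          U ^ (k + 1) * B1' ((k + 1 : ℕ) : ℂ) (G ^ (N * (k + 1))) := by ring
      rw [e5, ← e1, mul_smul_comm, mul_smul_comm]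
      congr 1
      rw [mul_pow, ← pow_mul]
      ring
    exact mul_left_cancel₀ (pow_ne_zero k hU) e4
  -- the family for `G`
  have hC : ((fun _ => LinearMap.mulLeft ℂ U) * (fun c => B1' (((N : ℂ)⁻¹) * c + 1)) *
      (fun _ => LinearMap.mulLeft ℂ (G ^ (N - 1))) : ℂ → Module.End ℂ R) ∈ PF R :=
    mul_mem (mul_mem (const_mem (mulLeft_mem U)) (PF_aff hB1' ((N : ℂ)⁻¹) 1))
      (const_mem (mulLeft_mem (G ^ (N - 1))))
  obtain ⟨C, hCdef⟩ : ∃ C : ℂ → Module.End ℂ R, C =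
      ((fun _ => LinearMap.mulLeft ℂ U) * (fun c => B1' (((N : ℂ)⁻¹) * c + 1)) *
      (fun _ => LinearMap.mulLeft ℂ (G ^ (N - 1))) : ℂ → Module.End ℂ R) := ⟨_, rfl⟩
  have hCe : ∀ (t : ℂ) (x : R), C t x = U * B1' (((N : ℂ)⁻¹) * t + 1) (G ^ (N - 1) * x) := by
    intro t x
    rw [hCdef]
    rfl
  rw [← hCdef] at hC
  have hCN : ∀ k : ℕ, C ((N * k : ℕ) : ℂ) (G ^ (N * k + 1)) =
      b.eval (k : ℂ) • (U ^ M * G ^ (N * k)) := by
    intro k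
    rw [hCe]
    have e1 : ((N : ℂ)⁻¹) * ((N * k : ℕ) : ℂ) + 1 = ((k + 1 : ℕ) : ℂ) := by
      push_cast
      field_simp
    have e2 : G ^ (N - 1) * G ^ (N * k + 1) = G ^ (N * (k + 1)) := by
      rw [← pow_add]
      congr 1
      have : N * (k + 1) = N * k + N := by ring
      omega
    rw [e1, e2, hU1 k]
  obtain ⟨m, C2', hC2', h2⟩ := conj (PF_aff hC 1 (-1)) G
  have h3 : ∀ t : ℕ, G ^ m * C (t : ℂ) (G ^ (t + 1)) =
      G ^ (t + 1) * C2' ((t + 1 : ℕ) : ℂ) 1 := by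
    intro t
    have e1 := h2 (t + 1) 1
    have e3 : (1 : ℂ) * ((t + 1 : ℕ) : ℂ) + -1 = (t : ℂ) := by push_cast; ring
    simp only [e3] at e1
    rw [one_mul] at e1
    exact e1
  obtain ⟨p0, hp0⟩ := ev_pol hC2' 1
  obtain ⟨p, hp⟩ : ∃ p : Polynomial R, p = Polynomial.C G * p0.comp (Polynomial.X + 1) :=
    ⟨_, rfl⟩
  obtain ⟨b', hb'⟩ : ∃ b' : Polynomial ℂ,
      b' = b.comp (Polynomial.C ((N : ℂ)⁻¹) * Polynomial.X) := ⟨_, rfl⟩
  obtain ⟨q, hq⟩ : ∃ q : Polynomial R,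
      q = Polynomial.C (U ^ M * G ^ m) * b'.map (algebraMap ℂ R) := ⟨_, rfl⟩
  have hpe : ∀ t : ℕ, p.eval ((t : ℕ) : R) = G * C2' ((t + 1 : ℕ) : ℂ) 1 := by
    intro t
    rw [hp, hp0]
    simp
  have hqe : ∀ t : ℕ, q.eval ((t : ℕ) : R) = b'.eval (t : ℂ) • (U ^ M * G ^ m) := by
    intro t
    rw [hq]
    have e1 : ((t : ℕ) : R) = algebraMap ℂ R (t : ℂ) := by simp
    rw [e1, Polynomial.eval_mul, Polynomial.eval_C, Polynomial.eval_map_algebraMap,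
      Polynomial.aeval_algebraMap_apply, Polynomial.coe_aeval_eq_eval, Algebra.smul_def, mul_comm]
  have hb'e : ∀ k : ℕ, b'.eval ((N * k : ℕ) : ℂ) = b.eval (k : ℂ) := by
    intro k
    rw [hb']
    have e1 : ((N : ℂ)⁻¹) * ((N * k : ℕ) : ℂ) = (k : ℂ) := by
      push_cast
      field_simp
    rw [Polynomial.eval_comp, Polynomial.eval_mul, Polynomial.eval_C, Polynomial.eval_X, e1]
  have hpq : p - q = 0 := by
    apply pol_zero (p - q) N hN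
    intro k
    rw [Polynomial.eval_sub, hpe, hqe, hb'e, sub_eq_zero]
    apply mul_left_cancel₀ (pow_ne_zero (N * k) hG)
    have e1 := h3 (N * k)
    rw [hCN k] at e1
    have e2 : G ^ (N * k) * (G * C2' ((N * k + 1 : ℕ) : ℂ) 1) =
        G ^ (N * k + 1) * C2' ((N * k + 1 : ℕ) : ℂ) 1 := by ring
    rw [e2, ← e1, mul_smul_comm, mul_smul_comm]
    congr 1
    ring
  have hpq' : p = q := sub_eq_zero.mp hpq
  refine ⟨M, C, hC, ?_⟩
  intro t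
  rw [← hb']
  apply mul_left_cancel₀ (pow_ne_zero m hG)
  rw [h3 t]
  have e1 : G ^ (t + 1) * C2' ((t + 1 : ℕ) : ℂ) 1 =
      G ^ t * (G * C2' ((t + 1 : ℕ) : ℂ) 1) := by ring
  rw [e1, ← hpe, hpq', hqe, mul_smul_comm, mul_smul_comm]
  congr 1
  ring

end Pool.Agent.H22.T7
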