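import Pool.Agent.H22.T7.DPS

/-!
# WNA: operators with polynomial coefficients

Proof.  `wn_mono`: span of a larger set.  `wn_mem`: `subset_span`.
`wn_mulLeft`: `mulLeft c * (mulLeft c' * dl l) = mulLeft (c c') * dl l` (span induction).  `wn_pderiv`: `pderiv j * (mulLeft c * dl l) = mulLeft (pderiv j c) * dl l + mulLeft c * dl (j :: l)`
(Leibniz, `pderiv_coe`).  `wn_mul`: span induction on the left factor `mulLeft c * dl l`, induction on `l` (`dl (j :: l) = pderiv j * dl l`).
`wn_Hi`: span induction: `dl l` lowers the order by `l.length` (`Hi_pderiv`, induction on `l`), `Hi_mul_left`, `Hi_mono`.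
-/

set_option autoImplicit false

namespace Pool.Agent.H22.T7

open Finset

variable {σ : Type}

theorem wn_mono {ρ ρ' : ℕ} (h : ρ ≤ ρ') : WN σ ρ ≤ WN σ ρ' := by
  refine Submodule.span_mono ?_
  rintro D ⟨c, l, hl, rfl⟩
  exact ⟨c, l, hl.trans h, rfl⟩

theorem wn_mem (c : MvPolynomial σ ℂ) (l : List σ) {ρ : ℕ} (h : l.length ≤ ρ) :
    LinearMap.mulLeft ℂ (c : MvPowerSeries σ ℂ) * dl l ∈ WN σ ρ :=
  Submodule.subset_span ⟨c, l, h, rfl⟩

theorem wn_mulLeft (c : MvPolynomial σ ℂ) {ρ : ℕ} {W : Module.End ℂ (MvPowerSeries σ ℂ)}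
    (hW : W ∈ WN σ ρ) : LinearMap.mulLeft ℂ (c : MvPowerSeries σ ℂ) * W ∈ WN σ ρ := by
  induction hW using Submodule.span_induction with
  | mem x hx =>
    obtain ⟨c', l, hl, rfl⟩ := hx
    have : LinearMap.mulLeft ℂ (c : MvPowerSeries σ ℂ) *
        (LinearMap.mulLeft ℂ (c' : MvPowerSeries σ ℂ) * dl l) =
        LinearMap.mulLeft ℂ ((c * c' : MvPolynomial σ ℂ) : MvPowerSeries σ ℂ) * dl l := by
      ext h : 1
      simp
    rw [this]
    exact wn_mem _ _ hl
  | zero => simp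
  | add x y _ _ hx hy => rw [mul_add]; exact Submodule.add_mem _ hx hy
  | smul a x _ hx => rw [mul_smul_comm]; exact Submodule.smul_mem _ _ hx

theorem dl_cons (j : σ) (l : List σ) : dl (j :: l) =
    ((MvPowerSeries.pderiv ℂ j :
      Derivation ℂ (MvPowerSeries σ ℂ) (MvPowerSeries σ ℂ)).toLinearMap) * dl l := by
  simp [dl]

theorem wn_pderiv (j : σ) {ρ : ℕ} {W : Module.End ℂ (MvPowerSeries σ ℂ)}
    (hW : W ∈ WN σ ρ) : ((MvPowerSeries.pderiv ℂ j :
      Derivation ℂ (MvPowerSeries σ ℂ) (MvPowerSeries σ ℂ)).toLinearMap) * W ∈ WN σ (ρ + 1) := by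
  induction hW using Submodule.span_induction with
  | mem x hx =>
    obtain ⟨c, l, hl, rfl⟩ := hx
    have : ((MvPowerSeries.pderiv ℂ j :
        Derivation ℂ (MvPowerSeries σ ℂ) (MvPowerSeries σ ℂ)).toLinearMap) *
        (LinearMap.mulLeft ℂ (c : MvPowerSeries σ ℂ) * dl l) =
        LinearMap.mulLeft ℂ ((MvPolynomial.pderiv j c : MvPolynomial σ ℂ) : MvPowerSeries σ ℂ) *
          dl l + LinearMap.mulLeft ℂ (c : MvPowerSeries σ ℂ) * dl (j :: l) := by
      rw [dl_cons]
      ext h : 1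
      have h1 : MvPowerSeries.pderiv ℂ j ((c : MvPowerSeries σ ℂ) * dl l h) =
          ((MvPolynomial.pderiv j c : MvPolynomial σ ℂ) : MvPowerSeries σ ℂ) * dl l h +
          (c : MvPowerSeries σ ℂ) * MvPowerSeries.pderiv ℂ j (dl l h) := by
        rw [Derivation.leibniz, MvPowerSeries.pderiv_coe]
        simp only [smul_eq_mul]
        ring
      simpa using h1
    rw [this]
    exact Submodule.add_mem _ (wn_mem _ _ (by omega)) (wn_mem _ _ (by simpa using hl))
  | zero => simp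
  | add x y _ _ hx hy => rw [mul_add]; exact Submodule.add_mem _ hx hy
  | smul a x _ hx => rw [mul_smul_comm]; exact Submodule.smul_mem _ _ hx

theorem wn_dl_mul (l : List σ) {ρ' : ℕ} {W' : Module.End ℂ (MvPowerSeries σ ℂ)}
    (hW' : W' ∈ WN σ ρ') : dl l * W' ∈ WN σ (l.length + ρ') := by
  induction l with
  | nil => simpa [dl] using hW'
  | cons j l ih =>
    rw [dl_cons, mul_assoc]
    have := wn_pderiv j ih
    rwa [List.length_cons, add_right_comm]

theorem wn_mul {ρ ρ' : ℕ} {W W' : Module.End ℂ (MvPowerSeries σ ℂ)}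
    (hW : W ∈ WN σ ρ) (hW' : W' ∈ WN σ ρ') : W * W' ∈ WN σ (ρ + ρ') := by
  induction hW using Submodule.span_induction with
  | mem x hx =>
    obtain ⟨c, l, hl, rfl⟩ := hx
    rw [mul_assoc]
    exact wn_mulLeft _ (wn_mono (by omega) (wn_dl_mul l hW'))
  | zero => simp
  | add x y _ _ hx hy => rw [add_mul]; exact Submodule.add_mem _ hx hy
  | smul a x _ hx => rw [smul_mul_assoc]; exact Submodule.smul_mem _ _ hx

theorem Hi_dl (l : List σ) : ∀ (N : ℕ) {h : MvPowerSeries σ ℂ}, Hi (N + l.length) h →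
    Hi N (dl l h) := by
  induction l with
  | nil => intro N h hh; simpa [dl] using hh
  | cons j l ih =>
    intro N h hh
    rw [dl_cons]
    have h1 : Hi (N + 1) (dl l h) := ih (N + 1) (by rwa [List.length_cons, ← add_assoc,
      add_right_comm] at hh)
    exact Hi_pderiv j h1

theorem wn_Hi {ρ : ℕ} {W : Module.End ℂ (MvPowerSeries σ ℂ)} (hW : W ∈ WN σ ρ) (N : ℕ)
    {h : MvPowerSeries σ ℂ} (hh : Hi (N + ρ) h) : Hi N (W h) := by
  induction hW using Submodule.span_induction with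
  | mem x hx =>
    obtain ⟨c, l, hl, rfl⟩ := hx
    have h1 := Hi_dl l N (Hi_mono (by omega : N + l.length ≤ N + ρ) hh)
    exact Hi_mul_left _ h1
  | zero => intro ρ hρ; simp at hρ
  | add x y _ _ hx hy => exact Hi_add hx hy
  | smul a x _ hx => exact Hi_smul a hx

end Pool.Agent.H22.T7
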